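import Pool.Agent.TH152.HY.Curve
import Pool.Agent.TH152.AC.Fin
import Pool.Agent.W602.Cov.GAll

/-!
Entire curves which are highly ramified over an arrangement which is not reducible, and abelian
covers of projective space.
-/

set_option autoImplicit false

namespace Pool.Agent.TH152.HY

open Filter Metric Real Set Topology Pool.Agent.H159R3.NV Pool.Agent.W602.NC Pool.Agent.W602.TL
  Pool.Agent.W603.BP Pool.Agent.W601.PH Pool.Agent.W602.Cov Pool.Agent.TH152.AC

/-- the points over `ζ` -/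
noncomputable def wpt (ζ : ℂ) (k : ℕ) : ℂ := (Complex.log ζ + k * (2 * π * Complex.I))⁻¹

theorem exp_wpt {ζ : ℂ} (hζ : ζ ≠ 0) (k : ℕ) : Complex.exp (wpt ζ k)⁻¹ = ζ := by
  unfold wpt
  rw [inv_inv, Complex.exp_add, Complex.exp_nat_mul_two_pi_mul_I, mul_one, Complex.exp_log hζ]

theorem wpt_tendsto (ζ : ℂ) : Tendsto (wpt ζ) atTop (𝓝 0) := by
  rw [tendsto_zero_iff_norm_tendsto_zero]
  have h1 : ∀ k : ℕ, ‖wpt ζ k‖ = ‖Complex.log ζ + k * (2 * π * Complex.I)‖⁻¹ := fun k => by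
    unfold wpt
    rw [norm_inv]
  simp only [h1]
  apply Tendsto.inv_tendsto_atTop
  have h2 : ∀ k : ℕ, (k : ℝ) * (2 * π) - ‖Complex.log ζ‖
      ≤ ‖Complex.log ζ + k * (2 * π * Complex.I)‖ := by
    intro k
    have h3 : ‖(k : ℂ) * (2 * π * Complex.I)‖ = k * (2 * π) := by
      rw [norm_mul, norm_mul, norm_mul, Complex.norm_natCast, Complex.norm_I,
        Complex.norm_real, Real.norm_of_nonneg Real.pi_pos.le]
      simp
    have h4 : ‖(k : ℂ) * (2 * π * Complex.I)‖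
        ≤ ‖Complex.log ζ + k * (2 * π * Complex.I)‖ + ‖Complex.log ζ‖ := by
      calc _ = ‖(Complex.log ζ + k * (2 * π * Complex.I)) - Complex.log ζ‖ := by
            congr 1; ring
        _ ≤ _ := norm_sub_le _ _
    rw [h3] at h4
    linarith
  refine tendsto_atTop_mono h2 ?_
  apply tendsto_atTop_add_const_right
  exact Tendsto.atTop_mul_const (by positivity) tendsto_natCast_atTop_atTop

theorem wpt_ev {ζ : ℂ} (hζ : ζ ≠ 0) : ∀ᶠ k in atTop, wpt ζ k ∈ PB 1 := by
  have h1 : ∀ᶠ k in atTop, ‖wpt ζ k‖ < 1 := by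
    have h2 := (wpt_tendsto ζ).norm
    rw [norm_zero] at h2
    exact h2.eventually (gt_mem_nhds one_pos)
  have h2 : ∀ᶠ k : ℕ in atTop, wpt ζ k ≠ 0 := by
    by_cases h : ζ = 1
    · filter_upwards [eventually_gt_atTop 0] with k hk
      unfold wpt
      rw [h, Complex.log_one, zero_add]
      have : (k : ℂ) ≠ 0 := by exact_mod_cast hk.ne'
      exact inv_ne_zero (mul_ne_zero this Complex.two_pi_I_ne_zero)
    · refine Eventually.of_forall fun k hk => h ?_
      have h3 := exp_wpt hζ k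
      rw [hk, inv_zero, Complex.exp_zero] at h3
      exact h3.symm
  filter_upwards [h1, h2] with k hk1 hk2
  exact ⟨hk2, hk1⟩

/-- **Entire curves.** -/
theorem curve_entire {n q m : ℕ} {ℓ : Fin q → Form n} (hirr : ¬ Reducible ℓ)
    (hm : n * (n + 1) * (n + 2) < 2 * m) {x : ℂ → Fin (n + 1) → ℂ} (hx : CurveInPn x)
    (hne : ∀ i, ∃ z, ℓ i (x z) ≠ 0)
    (hord : ∀ z, ∀ a : Fin q → ℕ, (∀ i, analyticOrderAt (fun w => ℓ i (x w)) z = a i) →
      a ≠ 0 → ∃ i, m ≤ a i) :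
    ∃ κ : Finset (Fin q), κ.Nonempty ∧ κ ≠ Finset.univ ∧ ∀ z, x z ∈ Flat ℓ κ ⊔ Flat ℓ κᶜ := by
  classical
  obtain ⟨z1, z2, hz12⟩ := hx.nonconst
  have hn : 1 ≤ n := by
    by_contra h0
    obtain rfl : n = 0 := by omega
    have h1 : x z1 0 ≠ 0 := by
      intro h
      apply hx.ne z1
      funext j
      obtain rfl : j = 0 := Fin.eq_zero j
      exact h
    apply hz12 (x z2 0 / x z1 0)
    funext j
    obtain rfl : j = 0 := Fin.eq_zero j
    rw [Pi.smul_apply, smul_eq_mul]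
    field_simp
  set v : ℂ → Fin (n + 1) → ℂ := fun w => x (Complex.exp w⁻¹) with hv
  have hφan : ∀ w, w ≠ 0 → AnalyticAt ℂ (fun w : ℂ => Complex.exp w⁻¹) w := fun w hw =>
    (analyticAt_inv hw).cexp
  have hvan : ∀ j, AnalyticOnNhd ℂ (fun w => v w j) (PB 1) := fun j w hw =>
    ((hx.diff j).analyticAt _).comp_of_eq (hφan w hw.1) rfl
  have hiff : ∀ f : ℂ → ℂ, Differentiable ℂ f → (∀ w ∈ PB 1, f (Complex.exp w⁻¹) = 0) →
      ∀ z, f z = 0 := by
    intro f hf h z
    apply zero_of_punctured hf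
    intro ζ hζ
    obtain ⟨k, hk⟩ := (wpt_ev hζ).exists
    have := h _ hk
    rwa [exp_wpt hζ] at this
  have hdisc := curve_disc hn hirr hm hvan (fun w _ => hx.ne _) (by
    intro w hw a ha
    refine hord (Complex.exp w⁻¹) a fun i => ?_
    rw [← ha i]
    have e1 : (fun w => ℓ i (v w)) = (fun z => ℓ i (x z)) ∘ fun w : ℂ => Complex.exp w⁻¹ := rfl
    have hd : deriv (fun w : ℂ => Complex.exp w⁻¹) w ≠ 0 := by
      have h1 : HasDerivAt (fun w : ℂ => Complex.exp w⁻¹)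
          (Complex.exp w⁻¹ * (-(w ^ 2)⁻¹)) w := (hasDerivAt_inv hw.1).cexp
      rw [h1.deriv]
      exact mul_ne_zero (Complex.exp_ne_zero _) (neg_ne_zero.mpr (inv_ne_zero
        (pow_ne_zero _ hw.1)))
    rw [e1, analyticOrderAt_comp_of_deriv_ne_zero (hφan w hw.1) hd])
  rcases hdisc with ⟨i, hi⟩ | ⟨κ, h1, h2, h3⟩ | ⟨h, -, -, hr⟩
  · exfalso
    obtain ⟨z, hz⟩ := hne i
    exact hz (hiff _ (form_diff hx.diff (ℓ i)) hi z)
  · refine ⟨κ, h1, h2, fun z => ?_⟩
    by_contra hcon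
    obtain ⟨φ, hφ1, hφ2⟩ := Submodule.exists_le_ker_of_notMem hcon
    exact hφ1 (hiff _ (form_diff hx.diff φ) (fun w hw => hφ2 (h3 w hw)) z)
  · exfalso
    obtain ⟨g, hg1, hg2, hg3⟩ := extends_mrel hvan (fun w _ => hx.ne _) hr
    have h0 : (0 : ℂ) ∈ ball (0 : ℂ) 1 := mem_ball_self one_pos
    have hgc : ∀ l, ContinuousAt (fun w => g w l) 0 := fun l =>
      ((differentiableWithinAt_pi.mp (hg1 0 h0) l).differentiableAt
        (isOpen_ball.mem_nhds h0)).continuousAt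
    have hcross : ∀ j l, ∀ z, x z j * g 0 l - x z l * g 0 j = 0 := by
      intro j l
      refine zero_of_punctured (((hx.diff j).mul_const _).sub ((hx.diff l).mul_const _)) ?_
      intro ζ hζ
      have h1 : ∀ᶠ k in atTop, x ζ j * g (wpt ζ k) l - x ζ l * g (wpt ζ k) j = 0 := by
        filter_upwards [wpt_ev hζ] with k hk
        obtain ⟨c, hc⟩ := hg3 _ (mem_disc.mpr hk)
        have h2 : x ζ = c • g (wpt ζ k) := by
          rw [← hc]
          simp only [hv, exp_wpt hζ]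
        rw [h2, Pi.smul_apply, Pi.smul_apply, smul_eq_mul, smul_eq_mul]
        ring
      have h2 : Tendsto (fun k => x ζ j * g (wpt ζ k) l - x ζ l * g (wpt ζ k) j) atTop
          (𝓝 (x ζ j * g 0 l - x ζ l * g 0 j)) :=
        (((hgc l).tendsto.comp (wpt_tendsto ζ)).const_mul _).sub
          (((hgc j).tendsto.comp (wpt_tendsto ζ)).const_mul _)
      exact tendsto_nhds_unique (h2.congr' h1) tendsto_const_nhds
    obtain ⟨l, hl⟩ := Function.ne_iff.mp (hg2 0 h0)
    have hl' : g 0 l ≠ 0 := hl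
    have hpar : ∀ z, x z = (x z l / g 0 l) • g 0 := by
      intro z
      funext j
      rw [Pi.smul_apply, smul_eq_mul]
      have := hcross j l z
      field_simp
      linear_combination this
    have h1 : x z1 l ≠ 0 := by
      intro h
      apply hx.ne z1
      rw [hpar z1, h, zero_div, zero_smul]
    apply hz12 (x z2 l / x z1 l)
    calc x z2 = (x z2 l / g 0 l) • g 0 := hpar z2
      _ = (x z2 l / x z1 l) • ((x z1 l / g 0 l) • g 0) := by
        rw [smul_smul]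
        congr 1
        field_simp
      _ = _ := by rw [← hpar z1]

end Pool.Agent.TH152.HY

namespace Pool.Agent.TH152.HY

open Pool.Agent.W602.Cov Pool.Agent.W602.Cov.Cover Pool.Agent.TH152.AC MvPolynomial
  Pool.Agent.W602.NC Pool.Agent.H159R3.NV

variable {n q r : ℕ} (X : Cover n q r)

/-- the multiplicities of a curve in a cover -/
theorem curve_mult {m : ℕ} (hR : Mult X m) {x : ℂ → Fin (n + 1) → ℂ} {y : ℂ → Fin r → ℂ}
    (h : X.EntireCurve x y) (z : ℂ) (v : Fin q → ℕ)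
    (hv : ∀ i, analyticOrderAt (fun z => X.ℓ i (x z)) z = v i) (hv0 : v ≠ 0) : ∃ i, m ≤ v i := by
  have hd : ∀ i, Differentiable ℂ fun z => X.ℓ i (x z) := fun i => form_diff h.diffx _
  refine hR v hv0 ⟨x z, (h.mem z).1, fun i hi => ?_⟩ fun k => ?_
  · by_contra h0
    have h1 := ((hd i).analyticAt z).analyticOrderAt_eq_zero.mpr h0
    rw [hv i] at h1
    exact hi (by exact_mod_cast h1)
  · have hyd := h.diffy k
    have e1 : (fun z => y z k) ^ X.m k = fun z => ∏ i, X.ℓ i (x z) ^ X.e k i := by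
      funext w
      exact (h.mem w).2 k
    have h1 : analyticOrderAt (fun z => ∏ i, X.ℓ i (x z) ^ X.e k i) z
        = ((∑ i, X.e k i * v i : ℕ) : ℕ∞) := by
      rw [ord_prod _ (fun i z => X.ℓ i (x z) ^ X.e k i) z
        (fun i _ => ((hd i).pow _).analyticAt z)]
      push_cast
      refine Finset.sum_congr rfl fun i _ => ?_
      have e2 : (fun z => X.ℓ i (x z) ^ X.e k i) = (fun z => X.ℓ i (x z)) ^ X.e k i := rfl
      rw [e2, analyticOrderAt_pow ((hd i).analyticAt z), hv i, nsmul_eq_mul]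
    rw [← e1, analyticOrderAt_pow (hyd.analyticAt z)] at h1
    cases ho : analyticOrderAt (fun z => y z k) z with
    | top =>
      rw [ho, nsmul_eq_mul, ENat.mul_top (by exact_mod_cast (X.hm k).ne')] at h1
      exact absurd h1.symm (ENat.natCast_ne_top _)
    | coe a =>
      rw [ho, nsmul_eq_mul] at h1
      exact ⟨a, by exact_mod_cast h1.symm⟩

/-- the alternative for entire curves in a cover -/
theorem cover_curve {m : ℕ} (hm : n * (n + 1) * (n + 2) < 2 * m) (hR : Mult X m)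
    (hirr : ¬ Reducible X.ℓ) {x : ℂ → Fin (n + 1) → ℂ} {y : ℂ → Fin r → ℂ}
    (h : X.EntireCurve x y) :
    (∃ i, ∀ z, X.ℓ i (x z) = 0) ∨ ∃ κ : Finset (Fin q), κ.Nonempty ∧ κ ≠ Finset.univ ∧
      ∀ z, x z ∈ Flat X.ℓ κ ⊔ Flat X.ℓ κᶜ := by
  by_cases hne : ∀ i, ∃ z, X.ℓ i (x z) ≠ 0
  · exact Or.inr (curve_entire hirr hm (X.curve h) hne fun z a ha ha0 =>
      curve_mult X hR h z a ha ha0)
  · push Not at hne
    exact Or.inl hne

theorem cover_brody {m : ℕ} (hm : n * (n + 1) * (n + 2) < 2 * m) (hR : Mult X m)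
    (hirr : ¬ Reducible X.ℓ) : X.PseudoBrody := by
  classical
  have hlam : ∀ κ : Finset (Fin q), ∃ φ : Form n, φ ≠ 0 ∧
      (κ.Nonempty → κ ≠ Finset.univ → Flat X.ℓ κ ⊔ Flat X.ℓ κᶜ ≤ LinearMap.ker φ) := by
    intro κ
    by_cases hκ : κ.Nonempty ∧ κ ≠ Finset.univ
    · obtain ⟨φ, h1, h2⟩ := Submodule.exists_le_ker_of_lt_top _
        (lt_top_iff_ne_top.mpr (flat_ne_top X.hℓ hirr hκ.1 hκ.2))
      exact ⟨φ, h1, fun _ _ => h2⟩
    · refine ⟨LinearMap.proj 0, ?_, fun h1 h2 => absurd ⟨h1, h2⟩ hκ⟩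
      intro h0
      have := congrArg (fun f : Form n => f (Pi.single 0 1)) h0
      simp at this
  choose lam hlam0 hlam using hlam
  let G : Poly n r := lin r (LinearMap.proj 0) * ((∏ i, lin r (X.ℓ i)) *
    ∏ κ : Finset (Fin q), lin r (lam κ))
  have hp0 : (LinearMap.proj 0 : Form n) ≠ 0 := by
    intro h0
    have := congrArg (fun f : Form n => f (Pi.single 0 1)) h0
    simp at this
  have hG0 : G ≠ 0 := mul_ne_zero (lin_ne hp0) (mul_ne_zero
    (Finset.prod_ne_zero_iff.mpr fun i _ => lin_ne (X.hℓ i))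
    (Finset.prod_ne_zero_iff.mpr fun κ _ => lin_ne (hlam0 κ)))
  have hGev : ∀ v : (Fin (n + 1) → ℂ) × (Fin r → ℂ), ev v G
      = v.1 0 * ((∏ i, X.ℓ i v.1) * ∏ κ : Finset (Fin q), lam κ v.1) := by
    intro v
    simp only [G, ev_mul, ev_prod, ev_lin]
    rfl
  refine ⟨G, ?_, ?_, ?_⟩
  · refine ⟨_, (X.lin_hom _).mul ((IsWeightedHomogeneous.prod _ _ _ fun i _ => X.lin_hom _).mul
      (IsWeightedHomogeneous.prod _ _ _ fun κ _ => X.lin_hom _))⟩
  · have h1 : ∃ u : Fin (n + 1) ⊕ Fin r → ℂ, MvPolynomial.eval u G ≠ 0 := by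
      by_contra hcon
      push Not at hcon
      exact hG0 (MvPolynomial.funext fun u => by rw [hcon u, map_zero])
    obtain ⟨u, hu⟩ := h1
    set x : Fin (n + 1) → ℂ := fun j => u (Sum.inl j) with hx
    have hu2 : ev (x, fun k => u (Sum.inr k)) G ≠ 0 := by
      unfold ev
      have : Sum.elim x (fun k => u (Sum.inr k)) = u := by
        funext j
        cases j <;> rfl
      rw [this]
      exact hu
    rw [hGev] at hu2
    have hroot : ∀ k, ∃ t : ℂ, t ^ X.m k = ∏ i, X.ℓ i x ^ X.e k i := fun k =>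
      IsAlgClosed.exists_pow_nat_eq _ (X.hm k)
    choose t ht using hroot
    refine ⟨(x, t), ⟨?_, ht⟩, by rw [hGev]; exact hu2⟩
    rintro h0
    apply hu2
    change x = 0 at h0
    rw [h0]
    simp
  · intro x y hxy z
    rw [hGev]
    rcases cover_curve X hm hR hirr hxy with ⟨i, hi⟩ | ⟨κ, h1, h2, h3⟩
    · have h5 : ∏ i, X.ℓ i (x z) = 0 := Finset.prod_eq_zero (Finset.mem_univ i) (hi z)
      simp only [h5, zero_mul, mul_zero]
    · have h4 : lam κ (x z) = 0 := hlam κ h1 h2 (h3 z)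
      have h5 : ∏ κ : Finset (Fin q), lam κ (x z) = 0 :=
        Finset.prod_eq_zero (Finset.mem_univ κ) h4
      simp only [h5, mul_zero]

end Pool.Agent.TH152.HY
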