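import Pool.Agent.W727.RC.EPL
import Pool.Agent.W603.BP.LWron

/-!
The places given by the points of a domain (compare `Pool.Agent.W727.RC.EPL.main`).
-/

set_option autoImplicit false

open FF Filter Topology Pool.Agent.W603.BP

namespace Pool.Agent.TH152.HY

variable {S : Set ℂ}

theorem rep_mul_ev (hS : IsOpen S) (f g : Aly S) {z : ℂ} (hz : z ∈ S) :
    rep S (f * g) =ᶠ[𝓝 z] rep S f * rep S g := by
  filter_upwards [hS.mem_nhds hz] with w hw
  rw [Pi.mul_apply, ← rep_eq (f * g) ⟨w, hw⟩, ← rep_eq f ⟨w, hw⟩, ← rep_eq g ⟨w, hw⟩]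
  rfl

theorem rep_add_ev (hS : IsOpen S) (f g : Aly S) {z : ℂ} (hz : z ∈ S) :
    rep S (f + g) =ᶠ[𝓝 z] rep S f + rep S g := by
  filter_upwards [hS.mem_nhds hz] with w hw
  rw [Pi.add_apply, ← rep_eq (f + g) ⟨w, hw⟩, ← rep_eq f ⟨w, hw⟩, ← rep_eq g ⟨w, hw⟩]
  rfl

theorem aly_ne_top (hc : IsPreconnected S) {f : Aly S} (hf : f ≠ 0) {z0 : ℂ}
    (hz0 : z0 ∈ S) : analyticOrderAt (rep S f) z0 ≠ ⊤ := by
  have h0 : ∃ z : S, rep S f z ≠ 0 := by
    by_contra hcon
    push Not at hcon
    refine hf (Subtype.ext (funext fun z => ?_))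
    rw [rep_eq f z, hcon z]
    rfl
  obtain ⟨z, hz⟩ := h0
  exact AnalyticOnNhd.analyticOrderAt_ne_top_of_isPreconnected (f := rep S f) (U := S)
    (rep_an f) hc (x := z) (y := z0) z.2 hz0 (by
      rw [((rep_an f z z.2).analyticOrderAt_eq_zero).mpr hz]
      simp)

/-- the orders at a point of a domain are given by a place -/
theorem point_place (hS : IsOpen S) (hc : IsPreconnected S) {z0 : ℂ} (hz0 : z0 ∈ S) :
    ∃ (L : Type) (_ : Field L) (_ : Algebra ℂ L) (P : Place ℂ L) (T : Aly S →ₐ[ℂ] L),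
      Function.Injective T ∧ ∀ f : Aly S, f ≠ 0 → analyticOrderAt (rep S f) z0 ≠ ⊤ ∧
        P.ord (T f) = ((analyticOrderAt (rep S f) z0).toNat : ℤ) := by
  have hdom : IsDomain (Aly S) := aly_domain hS hc ⟨z0, hz0⟩
  let v : Aly S → ℕ := fun f => (analyticOrderAt (rep S f) z0).toNat
  have hv : ∀ f : Aly S, f ≠ 0 → ((v f : ℕ) : ℕ∞) = analyticOrderAt (rep S f) z0 :=
    fun f hf => ENat.natCast_toNat (aly_ne_top hc hf hz0)
  have han : ∀ f : Aly S, AnalyticAt ℂ (rep S f) z0 := fun f => rep_an f z0 hz0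
  obtain ⟨P, hP⟩ := Pool.Agent.W727.RC.EPL.exists_place (k := ℂ) (R := Aly S)
    (L := FractionRing (Aly S)) v (by
      intro f g hf hg
      have h1 := analyticOrderAt_mul (han f) (han g)
      have h2 := hv _ (mul_ne_zero hf hg)
      rw [analyticOrderAt_congr (rep_mul_ev hS f g hz0), h1, ← hv f hf, ← hv g hg] at h2
      exact_mod_cast h2) (by
      intro f g hf hg hfg
      have h1 := le_analyticOrderAt_add (f := rep S f) (g := rep S g) (z₀ := z0)
      have h2 := hv _ hfg
      rw [analyticOrderAt_congr (rep_add_ev hS f g hz0)] at h2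
      rw [← h2, ← hv f hf, ← hv g hg] at h1
      rcases le_total (v f) (v g) with h4 | h4
      · rw [min_eq_left h4]
        rw [min_eq_left (by exact_mod_cast h4)] at h1
        exact_mod_cast h1
      · rw [min_eq_right h4]
        rw [min_eq_right (by exact_mod_cast h4)] at h1
        exact_mod_cast h1) (by
      intro c hc0
      show (analyticOrderAt (rep S (algebraMap ℂ (Aly S) c)) z0).toNat = 0
      have h1 : analyticOrderAt (rep S (algebraMap ℂ (Aly S) c)) z0 = 0 := by
        rw [(han _).analyticOrderAt_eq_zero, ← rep_eq (algebraMap ℂ (Aly S) c) ⟨z0, hz0⟩]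
        exact hc0
      rw [h1]
      rfl) (by
      have hid : AnalyticOnNhd ℂ (fun z : ℂ => z - z0) S := fun z _ => by fun_prop
      have h1 : analyticOrderAt (rep S (mk _ hid)) z0 = 1 := by
        have h2 : rep S (mk _ hid) =ᶠ[𝓝 z0] fun z => z - z0 := by
          filter_upwards [hS.mem_nhds hz0] with w hw
          exact rep_mk _ hid w hw
        rw [analyticOrderAt_congr h2]
        have := analyticOrderAt_id_sub_const_self (𝕜 := ℂ) (c := z0)
        simpa using this
      refine ⟨mk _ hid, ?_, ?_⟩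
      · intro h0
        have h2 : rep S (0 : Aly S) =ᶠ[𝓝 z0] fun _ => 0 := by
          filter_upwards [hS.mem_nhds hz0] with w hw
          rw [← rep_eq (0 : Aly S) ⟨w, hw⟩]
          rfl
        rw [h0, analyticOrderAt_congr h2] at h1
        have h3 : analyticOrderAt (fun _ : ℂ => (0 : ℂ)) z0 = ⊤ := by
          rw [analyticOrderAt_eq_top]
          simp
        rw [h3] at h1
        exact absurd h1 (by simp)
      · show (analyticOrderAt (rep S (mk _ hid)) z0).toNat = 1
        rw [h1]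
        rfl)
  refine ⟨FractionRing (Aly S), inferInstance, inferInstance, P,
    IsScalarTower.toAlgHom ℂ (Aly S) (FractionRing (Aly S)),
    IsFractionRing.injective (Aly S) (FractionRing (Aly S)), ?_⟩
  intro f hf
  exact ⟨aly_ne_top hc hf hz0, hP f hf⟩

end Pool.Agent.TH152.HY
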