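import Pool.Agent.TH152.HY.Fib
import Pool.Agent.TH152.HY.Pl
import Pool.Agent.W521.RC.GNB

/-!
The theorem for quasi-projective varieties.
-/

set_option autoImplicit false

open MvPolynomial Metric Filter Topology

namespace Pool.Agent.TH152.HY

open Pool.Agent.W602.Cov Pool.Agent.W602.Cov.Cover Pool.Agent.W602.Cov.R Pool.Agent.W603.BP
open Pool.Agent.W601.PH Pool.Agent.W602.Cov.G Pool.Agent.W602.GT

variable {N n q : ℕ}

theorem form_eq (φ : Form n) (v : Fin (n + 1) → ℂ) : φ v = ∑ j, φ (Pi.single j 1) * v j := by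
  rw [LinearMap.pi_apply_eq_sum_univ φ v]
  refine Finset.sum_congr rfl fun j _ => ?_
  rw [smul_eq_mul, mul_comm]
  congr 2
  funext k
  simp [Pi.single_apply, eq_comm]

/-- Evaluation at a point. -/
def evs {S : Set ℂ} (z : S) : Aly S →ₐ[ℂ] ℂ := (Pi.evalAlgHom ℂ (fun _ : S => ℂ) z).comp (Aly S).val

theorem evs_mk {S : Set ℂ} (z : S) (f : ℂ → ℂ) (hf : AnalyticOnNhd ℂ f S) :
    evs z (mk f hf) = f z := rfl

theorem mk_ne {S : Set ℂ} {f : ℂ → ℂ} (hf : AnalyticOnNhd ℂ f S) {z : ℂ} (hz : z ∈ S)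
    (h : f z ≠ 0) : mk f hf ≠ 0 := by
  intro h0
  apply h
  have h1 : evs ⟨z, hz⟩ (mk f hf) = evs ⟨z, hz⟩ 0 := by rw [h0]
  rwa [evs_mk, map_zero] at h1

/-- the multiplicities of holomorphic maps from the punctured disc -/
theorem disc_mult {X D : BiSet N n} {ℓ : Fin q → Form n} {m : ℕ} (hram : RamifiedOff X D ℓ m)
    {u : ℂ → Fin (N + 1) → ℂ} {v : ℂ → Fin (n + 1) → ℂ} (huv : QDisc X D u v) {z0 : ℂ}
    (hz0 : z0 ∈ PB 1) (w : Fin q → ℕ)
    (hw : ∀ i, analyticOrderAt (fun z => ℓ i (v z)) z0 = w i) (hw0 : w ≠ 0) : ∃ i, m ≤ w i := by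
  have hopen : IsOpen (PB 1) := PB_open 1
  have hu := fun j => an_of_diffOn huv.diffu j
  have hv := fun j => an_of_diffOn huv.diffv j
  have hmemz : ∀ z ∈ PB 1, QMem X D (u z) (v z) := fun z hz => huv.mem z (mem_disc.mpr hz)
  obtain ⟨L, _, _, P, T, hT, hord⟩ := point_place hopen (PB_preconn one_pos) hz0
  have hTne : ∀ f : Aly (PB 1), f ≠ 0 → T f ≠ 0 := by
    intro f hf h0
    apply hf
    apply hT
    rw [h0, map_zero]
  have hℓan : ∀ i, AnalyticOnNhd ℂ (fun z => ℓ i (v z)) (PB 1) := fun i z hz =>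
    form_an (ℓ i) fun j => hv j z hz
  let U : Fin (N + 1) → Aly (PB 1) := fun j => mk (fun z => u z j) (hu j)
  let W : Fin (n + 1) → Aly (PB 1) := fun j => mk (fun z => v z j) (hv j)
  let F : Fin q → Aly (PB 1) := fun i => mk (fun z => ℓ i (v z)) (hℓan i)
  have hext : ∀ f g : Aly (PB 1), (∀ z : PB 1, evs z f = evs z g) → f = g :=
    fun f g h => Subtype.ext (funext h)
  have hrep : ∀ (f : ℂ → ℂ) (hf : AnalyticOnNhd ℂ f (PB 1)),
      analyticOrderAt (rep (PB 1) (mk f hf)) z0 = analyticOrderAt f z0 := by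
    intro f hf
    refine analyticOrderAt_congr ?_
    filter_upwards [hopen.mem_nhds hz0] with z hz
    exact rep_mk f hf z hz
  have hF : ∀ i, formK (ℓ i) (fun j => T (W j)) = T (F i) := by
    intro i
    have h4 : F i = ∑ j, algebraMap ℂ (Aly (PB 1)) (ℓ i (Pi.single j 1)) * W j := by
      apply hext
      intro z
      rw [map_sum]
      simp only [map_mul, AlgHom.commutes]
      exact form_eq (ℓ i) (v z)
    rw [h4, map_sum]
    unfold formK
    refine Finset.sum_congr rfl fun j _ => ?_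
    rw [map_mul, AlgHom.commutes]
  have hFne : ∀ i, F i ≠ 0 := by
    intro i h0
    have h1 := hw i
    rw [← hrep _ (hℓan i)] at h1
    have h2 : rep (PB 1) (F i) =ᶠ[𝓝 z0] fun _ => 0 := by
      filter_upwards [hopen.mem_nhds hz0] with z hz
      rw [← rep_eq (F i) ⟨z, hz⟩, h0]
      rfl
    have h3 : analyticOrderAt (rep (PB 1) (F i)) z0 = ⊤ := by
      rw [analyticOrderAt_congr h2, analyticOrderAt_eq_top]
      simp
    rw [show mk _ (hℓan i) = F i from rfl, h3] at h1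
    exact absurd h1.symm (ENat.natCast_ne_top _)
  -- polynomials
  have hpoly : ∀ G : BiPoly N n, ∀ z : PB 1,
      evs z (aeval (Sum.elim U W) G) = eval (Sum.elim (u z) (v z)) G := by
    intro G z
    have h7 : evs z (aeval (Sum.elim U W) G) = aeval (fun s => evs z (Sum.elim U W s)) G := by
      rw [← AlgHom.comp_apply, comp_aeval]
    rw [h7]
    have h8 : (fun s => evs z (Sum.elim U W s)) = Sum.elim (u z) (v z) := by
      funext s
      rcases s with s | s <;> rfl
    rw [h8]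
    rfl
  have hTpoly : ∀ G : BiPoly N n, aeval (Sum.elim (fun j => T (U j)) (fun j => T (W j))) G
      = T (aeval (Sum.elim U W) G) := by
    intro G
    rw [← AlgHom.comp_apply, comp_aeval]
    congr 2
    funext s
    rcases s with s | s <;> rfl
  have hmem : X.Mem (fun j => T (U j)) (fun j => T (W j)) := by
    obtain ⟨⟨ha, hb, _⟩, _⟩ := hmemz z0 hz0
    refine ⟨?_, ?_, ?_⟩
    · intro h0
      apply ha
      funext j
      by_contra hj
      exact hTne (U j) (mk_ne (hu j) hz0 hj) (congrFun h0 j)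
    · intro h0
      apply hb
      funext j
      by_contra hj
      exact hTne (W j) (mk_ne (hv j) hz0 hj) (congrFun h0 j)
    · intro G hG
      have h5 : aeval (Sum.elim U W) G = (0 : Aly (PB 1)) := by
        apply hext
        intro z
        rw [map_zero, hpoly]
        exact (hmemz z z.2).1.2.2 G hG
      rw [hTpoly, h5, map_zero]
  have horder0 : ∀ (f : ℂ → ℂ) (hf : AnalyticOnNhd ℂ f (PB 1)), f z0 ≠ 0 → P.ord (T (mk f hf)) = 0 := by
    intro f hf hne
    rw [(hord _ (mk_ne hf hz0 hne)).2, hrep f hf, (hf z0 hz0).analyticOrderAt_eq_zero.mpr hne]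
    rfl
  have hnonneg : ∀ f : Aly (PB 1), f ≠ 0 → 0 ≤ P.ord (T f) := by
    intro f hf
    rw [(hord _ hf).2]
    exact Int.natCast_nonneg _
  have hn0 : ∀ {k : ℕ} (x : ℂ → Fin k → ℂ) (hx : ∀ j, AnalyticOnNhd ℂ (fun z => x z j) (PB 1)),
      x z0 ≠ 0 → Norm P (fun j => T (mk (fun z => x z j) (hx j))) 0 := by
    intro k x hx h0
    refine ⟨fun j hj => hnonneg _ fun h1 => hj (by
      show T (mk (fun z => x z j) (hx j)) = 0
      rw [h1, map_zero]), ?_⟩
    obtain ⟨j, hj⟩ := Function.ne_iff.mp h0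
    exact ⟨j, hTne _ (mk_ne (hx j) hz0 hj), horder0 _ (hx j) hj⟩
  have hNa : Norm P (fun j => T (U j)) 0 := hn0 u hu (hmemz z0 hz0).1.1
  have hNb : Norm P (fun j => T (W j)) 0 := hn0 v hv (hmemz z0 hz0).1.2.1
  refine hram L (fun j => T (U j)) (fun j => T (W j)) hmem
    (fun i => by rw [hF]; exact hTne _ (hFne i)) P ?_ 0 w hNb ?_ hw0
  · intro hcen
    apply (hmemz z0 hz0).2
    refine ⟨(hmemz z0 hz0).1.1, (hmemz z0 hz0).1.2.1, fun G hG => ?_⟩
    obtain ⟨E, E', hE⟩ := D.hom G hG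
    by_contra hne
    have hne' : evs ⟨z0, hz0⟩ (aeval (Sum.elim U W) G) ≠ 0 := by
      rw [hpoly]
      exact hne
    have hG0 : aeval (Sum.elim U W) G ≠ 0 := by
      intro h0
      rw [h0, map_zero] at hne'
      exact hne' rfl
    rcases hcen 0 0 hNa hNb G hG E E' hE with h1 | h1
    · rw [hTpoly] at h1
      exact hTne _ hG0 h1
    · rw [hTpoly, (hord _ hG0).2] at h1
      have h2 : analyticOrderAt (rep (PB 1) (aeval (Sum.elim U W) G)) z0 = 0 := by
        rw [(rep_an _ z0 hz0).analyticOrderAt_eq_zero, ← rep_eq _ ⟨z0, hz0⟩]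
        exact hne'
      rw [h2] at h1
      simp at h1
  · intro i
    rw [hF, (hord _ (hFne i)).2, zero_add]
    have h1 : analyticOrderAt (rep (PB 1) (F i)) z0 = w i := by
      rw [← hw i]
      exact hrep _ (hℓan i)
    rw [h1]
    simp

theorem aeval_li {L : Type} [Field L] [Algebra ℂ L] (φ : Form n) (b : Fin (n + 1) → L) :
    aeval b (li φ) = lf φ b := by
  unfold li lf
  rw [map_sum]
  refine Finset.sum_congr rfl fun j _ => ?_
  rw [map_mul, aeval_C, aeval_X]

/-- the conversion to the closed subsets of `Pool.Agent.W601.SM` -/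
def conv (X : BiSet N n) : Pool.Agent.W601.SM.BiSet N n where
  I := X.eqs
  hom := by
    intro G hG
    obtain ⟨E, E', hE⟩ := X.hom G hG
    refine ⟨E, E', fun s t u v => ?_⟩
    unfold Pool.Agent.W601.SM.ev2
    rw [eval_eq', eval_eq', Finset.mul_sum]
    refine Finset.sum_congr rfl fun α hα => ?_
    have h1 := hE (mem_support_iff.mp hα)
    rw [Finsupp.weight_apply, Finsupp.sum_fintype _ _ (by simp)] at h1
    have h2 := congrArg Prod.fst h1
    have h3 := congrArg Prod.snd h1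
    rw [Prod.fst_sum] at h2
    rw [Prod.snd_sum] at h3
    simp only [Fintype.sum_sum_type, Sum.elim_inl, Sum.elim_inr, Prod.smul_mk, smul_eq_mul,
      mul_one, mul_zero, Finset.sum_const_zero, add_zero, zero_add] at h2 h3
    simp only [Fintype.prod_sum_type, Sum.elim_inl, Sum.elim_inr, Pi.smul_apply, smul_eq_mul,
      mul_pow, Finset.prod_mul_distrib, Finset.prod_pow_eq_pow_sum, h2, h3]
    ring

theorem conv_mem {X : BiSet N n} {u : Fin (N + 1) → ℂ} {v : Fin (n + 1) → ℂ} :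
    (conv X).Mem u v ↔ X.Mem u v := Iff.rfl

/-- Picard implies Brody -/
theorem brody_of_picard {X D : BiSet N n} {G : BiPoly N n} (h : PicardOff X D G) :
    BrodyOff X D G := by
  intro u v hc z
  by_contra hz
  obtain ⟨w, hw, hwz⟩ := sin_point z
  obtain ⟨e1, e2⟩ := h (fun w => u (Complex.sin w⁻¹)) (fun w => v (Complex.sin w⁻¹))
    ⟨sin_diff hc.diffu, sin_diff hc.diffv, fun z _ => hc.mem _⟩
    ⟨w, hw, by simp only [hwz]; exact hz⟩
  obtain ⟨z1, z2, h12⟩ := hc.nonconst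
  rcases h12 with h12 | h12
  · exact sin_not hc.diffu (fun z => (hc.mem z).1.1) ⟨z2, z1, h12⟩ e1
  · exact sin_not hc.diffv (fun z => (hc.mem z).1.2.1) ⟨z2, z1, h12⟩ e2

/-- a form in the second group of variables at a point -/
theorem aeval_inr {L : Type} [Field L] [Algebra ℂ L] (P : MvPolynomial (Fin (n + 1)) ℂ)
    (a : Fin (N + 1) → L) (b : Fin (n + 1) → L) :
    aeval (Sum.elim a b) (rename Sum.inr P : BiPoly N n) = aeval b P := by
  rw [aeval_rename]
  rfl

/-- **The main theorem.** -/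
theorem main {m d : ℕ} (hn : 1 ≤ n) {ℓ : Fin q → Form n}
    (hr : ¬ Reducible ℓ) (hm : n * (n + 1) * (n + 2) < 2 * m) {X D : BiSet N n}
    (hram : RamifiedOff X D ℓ m) {K : Type} [Field K] [Algebra ℂ K] {a : Fin (N + 1) → K}
    {b : Fin (n + 1) → K} (hK : X.FunctionField K a b)
    (halg : Algebra.IsAlgebraic
      (IntermediateField.adjoin ℂ {f : K | ∃ i j, b j ≠ 0 ∧ f = b i / b j}) K)
    (htr : Algebra.trdeg ℂ K = d) (hd : 0 < d) (hE : ¬ Exc ℓ b) (hD : ¬ D.Mem a b) :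
    LogGeneralType ℂ K d (CentreIn D a b) ∧
    ∃ (G : BiPoly N n) (E E' : ℕ), BiHom G E E' ∧
      (∃ u v, QMem X D u v ∧ eval (Sum.elim u v) G ≠ 0) ∧
      PicardOff X D G ∧ BrodyOff X D G ∧ LangOff X D G := by
  classical
  choose Dg mm c hrel using fun i j => exists_rel hK halg i j
  have hlb : ∀ i, lf (ℓ i) b ≠ 0 := fun i h0 => hE (Or.inl ⟨i, h0⟩)
  have hlam : ∀ κ : Finset (Fin q), ∃ φ : Form n, lf φ b ≠ 0 ∧
      (κ.Nonempty → κ ≠ Finset.univ → Flat ℓ κ ⊔ Flat ℓ κᶜ ≤ LinearMap.ker φ) := by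
    intro κ
    by_cases hκ : κ.Nonempty ∧ κ ≠ Finset.univ
    · by_contra hcon
      push Not at hcon
      refine hE (Or.inr ⟨κ, hκ.1, hκ.2, fun φ hφ => ?_⟩)
      by_contra hne
      exact (hcon φ hne).2.2 hφ
    · obtain ⟨k0, hk0⟩ := Function.ne_iff.mp hK.mem.2.1
      refine ⟨LinearMap.proj k0, ?_, fun h1 h2 => absurd ⟨h1, h2⟩ hκ⟩
      rw [Pool.Agent.W521.RC.GNB.lf_proj]
      exact hk0
  choose lam hlam0 hlam using hlam
  let R : MvPolynomial (Fin (n + 1)) ℂ :=
    ∏ i : Fin (N + 1), ∏ j : Fin (N + 1), c i j (mm i j)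
  let Q : MvPolynomial (Fin (n + 1)) ℂ := R * ((∏ i, li (ℓ i)) *
    ∏ κ : Finset (Fin q), li (lam κ))
  obtain ⟨E, hQh⟩ : ∃ E, Q.IsHomogeneous E :=
    ⟨_, (IsHomogeneous.prod _ _ _ fun i _ => IsHomogeneous.prod _ _ _ fun j _ =>
      (hrel i j).1.hom _ le_rfl).mul ((IsHomogeneous.prod _ _ _ fun i _ => li_hom _).mul
      (IsHomogeneous.prod _ _ _ fun κ _ => li_hom _))⟩
  have hsplit : ∀ {L : Type} [Field L] [Algebra ℂ L] (y : Fin (n + 1) → L), aeval y Q ≠ 0 →
      (∀ i j, aeval y (c i j (mm i j)) ≠ 0) ∧ (∀ i, lf (ℓ i) y ≠ 0) ∧ ∀ κ, lf (lam κ) y ≠ 0 := by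
    intro L _ _ y hy
    simp only [Q, R, map_mul, map_prod, aeval_li] at hy
    refine ⟨fun i j h0 => hy ?_, fun i h0 => hy ?_, fun κ h0 => hy ?_⟩
    · rw [Finset.prod_eq_zero (Finset.mem_univ i) (Finset.prod_eq_zero (Finset.mem_univ j) h0),
        zero_mul]
    · rw [Finset.prod_eq_zero (Finset.mem_univ i) h0, zero_mul, mul_zero]
    · rw [Finset.prod_eq_zero (Finset.mem_univ κ) h0, mul_zero, mul_zero]
  have hbQ : aeval b Q ≠ 0 := by
    simp only [Q, R, map_mul, map_prod, aeval_li]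
    exact mul_ne_zero (Finset.prod_ne_zero_iff.mpr fun i _ =>
      Finset.prod_ne_zero_iff.mpr fun j _ => (hrel i j).2)
      (mul_ne_zero (Finset.prod_ne_zero_iff.mpr fun i _ => hlb i)
        (Finset.prod_ne_zero_iff.mpr fun κ _ => hlam0 κ))
  -- Lang
  have hLang : LangOff X D (rename Sum.inr Q) := by
    intro L _ _ a' b' d hmem _ hne hgen htr hd
    rw [aeval_inr] at hne
    obtain ⟨h1, h2, h3⟩ := hsplit b' hne
    refine sub_general' hd hn hr hm hmem.2.1 h2 (fun κ hκ1 hκ2 => ⟨lam κ, hlam κ hκ1 hκ2, h3 κ⟩)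
      htr (alg_sub (fun i j => (hrel i j).1) hmem h1 hgen) _
      fun P _ hPB a0 w hge hat hord hw0 => ?_
    refine hram L a' b' hmem (fun i => h2 i) P hPB a0 w ⟨fun j hj => ?_, ?_⟩ hord hw0
    · have h4 := hge (LinearMap.proj j)
      rw [Pool.Agent.W521.RC.GNB.lf_proj] at h4
      exact h4.resolve_left hj
    · by_contra hcon
      push Not at hcon
      obtain ⟨i, hi⟩ := hat
      have h5 := Pool.Agent.W521.RC.GNB.ord_sum P Finset.univ
        (fun j => algebraMap ℂ L (ℓ i (Pi.single j 1)) * b' j) (a0 + 1)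
        (fun j _ => Pool.Agent.W521.RC.GNB.ord_cmul P _ _ (a0 + 1) (fun hj => by
          have h4 := hge (LinearMap.proj j)
          rw [Pool.Agent.W521.RC.GNB.lf_proj] at h4
          have h6 := h4.resolve_left hj
          have h7 := hcon j hj
          omega))
      have h6 : ∑ j, algebraMap ℂ L (ℓ i (Pi.single j 1)) * b' j = lf (ℓ i) b' := rfl
      rw [h6] at h5
      have h7 := h5.resolve_left (h2 i)
      omega
  -- Picard
  have hPic : PicardOff X D (rename Sum.inr Q) := by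
    rintro u v huv ⟨z0, hz0, hne⟩
    have hv := fun j => an_of_diffOn huv.diffv j
    have hu := fun j => an_of_diffOn huv.diffu j
    have hmem : ∀ z ∈ PB 1, QMem X D (u z) (v z) := fun z hz => huv.mem z (mem_disc.mpr hz)
    have hne' : aeval (v z0) Q ≠ 0 := by
      rw [← aeval_inr (N := N) Q (u z0) (v z0)]
      exact hne
    obtain ⟨h1, h2, h3⟩ := hsplit (v z0) hne'
    have hlf : ∀ φ : Form n, lf φ (v z0) = φ (v z0) := fun φ => (form_eq φ (v z0)).symm
    have hE : Extends v := by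
      rcases curve_disc hn hr hm hv (fun z hz => (hmem z hz).1.2.1)
        (fun z hz w hw hw0 => disc_mult hram huv hz w hw hw0) with ⟨i, hi⟩ | ⟨κ, hκ1, hκ2, hκ⟩ |
        ⟨h, _, _, hrr⟩
      · exfalso
        apply h2 i
        rw [hlf]
        exact hi z0 (mem_disc.mp hz0)
      · exfalso
        apply h3 κ
        rw [hlf]
        exact hlam κ hκ1 hκ2 (hκ z0 (mem_disc.mp hz0))
      · exact extends_mrel hv (fun z hz => (hmem z hz).1.2.1) hrr
    exact ⟨extends_lift (X := conv X) hu (fun z hz => (hmem z hz).1) hE (mem_disc.mp hz0)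
      (fib_finite (fun i j => (hrel i j).1) h1), hE⟩
  refine ⟨?_, rename Sum.inr Q, 0, E, biHom_rename hQh, ?_, hPic, brody_of_picard hPic, hLang⟩
  · exact hLang K a b d hK.mem hD (by rw [aeval_inr]; exact hbQ) hK.gen htr hd
  · -- a point of `X - D`
    have h1 : ∃ F ∈ D.eqs, aeval (Sum.elim a b) F ≠ 0 := by
      by_contra hcon
      push Not at hcon
      exact hD ⟨hK.mem.1, hK.mem.2.1, hcon⟩
    obtain ⟨F, hF, hFab⟩ := h1
    obtain ⟨e, e', he⟩ := D.hom F hF
    have h2 : BiHom (F * rename Sum.inr Q : BiPoly N n) (e + 0) (e' + E) := by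
      have := IsWeightedHomogeneous.mul he (biHom_rename (N := N) hQh)
      exact this
    by_contra hcon
    push Not at hcon
    have h3 := (hK.van _ _ _ h2).2 (fun u v huv => by
      rw [map_mul]
      by_cases hFv : eval (Sum.elim u v) F = 0
      · rw [hFv, zero_mul]
      · rw [hcon u v ⟨huv, fun hd => hFv (hd.2.2 F hF)⟩, mul_zero])
    rw [map_mul, aeval_inr] at h3
    exact mul_ne_zero hFab hbQ h3

end Pool.Agent.TH152.HY

namespace Pool.Agent.TH152.HY

open Pool.Agent.W602.Cov Pool.Agent.W602.Cov.Cover Pool.Agent.W602.Cov.R Pool.Agent.W603.BP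
open Pool.Agent.W601.PH Pool.Agent.W602.Cov.G Pool.Agent.W602.GT

variable {N n q : ℕ}

/-- points which lie in no hyperplane are not exceptional -/
theorem not_exc {ℓ : Fin q → Form n} (hℓ : ∀ i, ℓ i ≠ 0) (hr : ¬ Reducible ℓ) {L : Type}
    [Field L] [Algebra ℂ L] {b : Fin (n + 1) → L} (hb : LinearIndependent ℂ b) : ¬ Exc ℓ b := by
  rintro (⟨i, hi⟩ | ⟨κ, h1, h2, h3⟩)
  · exact lf_ne_of_li hb (hℓ i) hi
  · obtain ⟨φ, h4, h5⟩ := Submodule.exists_le_ker_of_lt_top _
      (lt_top_iff_ne_top.mpr (flat_ne_top hℓ hr h1 h2))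
    exact lf_ne_of_li hb h4 (h3 φ h5)

end Pool.Agent.TH152.HY
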