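import Pool.Agent.TH152.HY.Core
import Pool.Agent.W602.Cov.Curves
import Pool.Agent.W601.PH.Curve

/-!
Curves near infinity, and holomorphic maps from the punctured disc, which are highly ramified over
an arrangement which is not reducible.
-/

set_option autoImplicit false

namespace Pool.Agent.TH152.HY

open Filter Metric Real Set Topology Pool.Agent.H159R3.NV Pool.Agent.W602.NC Pool.Agent.W602.TL
  Pool.Agent.W603.BP Pool.Agent.W601.PH Pool.Agent.W602.Cov Pool.Agent.TH152.AC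

theorem essential {n q : ℕ} (hn : 1 ≤ n) {ℓ : Fin q → Form n} (hirr : ¬ Reducible ℓ)
    {v : Fin (n + 1) → ℂ} (h : ∀ i, ℓ i v = 0) : v = 0 := by
  have h1 : Flat ℓ Finset.univ = ⊥ := by
    refine flat_univ hirr (a := Pi.single 0 1) (b := Pi.single 1 1) ?_ ?_
    · intro h0
      have := congrFun h0 0
      simp at this
    · intro t ht
      have h2 := congrFun ht 1
      have h3 : (1 : Fin (n + 1)) ≠ 0 := by
        intro h
        have := congrArg Fin.val h
        rw [Fin.val_one', Fin.val_zero, Nat.mod_eq_of_lt (by omega)] at this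
        omega
      simp [h3] at h2
  have h2 : v ∈ Flat ℓ Finset.univ := mem_flat.mpr fun i _ => h i
  rw [h1] at h2
  exact h2

/-- the alternative near infinity -/
theorem curve_ext {n p m : ℕ} {ℓ : Fin (p + 1) → Form n} (hirr : ¬ Reducible ℓ)
    (hm : n * (n + 1) * (n + 2) < 2 * m) {r0 : ℝ} (hr0 : 0 < r0)
    {x : ℂ → Fin (n + 1) → ℂ} (hx : ∀ z ∈ Ext r0, ∀ k, AnalyticAt ℂ (fun w => x w k) z)
    (hx0 : ∀ z ∈ Ext r0, x z ≠ 0) (hne : ∀ i, ∃ z ∈ Ext r0, ℓ i (x z) ≠ 0)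
    (hmult : ∀ z ∈ Ext r0, ∀ a : Fin (p + 1) → ℕ,
      (∀ i, analyticOrderAt (fun w => ℓ i (x w)) z = a i) → a ≠ 0 → ∃ i, m ≤ a i) :
    (∃ κ : Finset (Fin (p + 1)), κ.Nonempty ∧ κ ≠ Finset.univ ∧
      ∀ z ∈ Ext r0, x z ∈ Flat ℓ κ ⊔ Flat ℓ κᶜ) ∨
    ∀ j, ∃ R : ℂ → ℂ, MeromorphicAt (fun w => R w⁻¹) 0 ∧ ∃ R0 : ℝ, ∀ z, R0 < ‖z‖ →
      ℓ j (x z) = R z * ℓ 0 (x z) := by
  classical
  set Lv : Submodule ℂ (Fin (n + 1) → ℂ) := Submodule.span ℂ (x '' Ext r0) with hLv
  have hxL : ∀ z ∈ Ext r0, x z ∈ Lv := fun z hz => Submodule.subset_span ⟨z, hz, rfl⟩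
  obtain ⟨zn, hzn⟩ := Ext_nonempty r0
  obtain ⟨d, hd⟩ : ∃ d, Module.finrank ℂ Lv = d + 1 := by
    have h1 : 0 < Module.finrank ℂ Lv := by
      rw [Module.finrank_pos_iff]
      exact ⟨⟨⟨x zn, hxL zn hzn⟩, 0, fun h => hx0 zn hzn (congrArg Subtype.val h)⟩⟩
    exact ⟨Module.finrank ℂ Lv - 1, by omega⟩
  have hdn : d ≤ n := by
    have h1 := Submodule.finrank_le Lv
    rw [hd, Module.finrank_fintype_fun_eq_card, Fintype.card_fin] at h1
    omega
  let b : Module.Basis (Fin (d + 1)) ℂ Lv := Module.finBasisOfFinrankEq ℂ Lv hd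
  let A : (Fin (d + 1) → ℂ) →ₗ[ℂ] (Fin (n + 1) → ℂ) :=
    Lv.subtype ∘ₗ (b.equivFun.symm : (Fin (d + 1) → ℂ) →ₗ[ℂ] Lv)
  have hAinj : LinearMap.ker A = ⊥ := by
    rw [LinearMap.ker_eq_bot]
    exact Subtype.val_injective.comp b.equivFun.symm.injective
  obtain ⟨S, hS⟩ := A.exists_leftInverse_of_injective hAinj
  have hSA : ∀ y, S (A y) = y := fun y => LinearMap.congr_fun hS y
  have hAr : ∀ v ∈ Lv, ∃ y, A y = v := fun v hv => ⟨b.equivFun ⟨v, hv⟩, by simp [A]⟩
  have hAS : ∀ v ∈ Lv, A (S v) = v := by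
    intro v hv
    obtain ⟨y, rfl⟩ := hAr v hv
    rw [hSA]
  set y : ℂ → Fin (d + 1) → ℂ := fun z => S (x z) with hy
  set ℓ' : Fin (p + 1) → Form d := fun i => ℓ i ∘ₗ A with hℓ'
  have hℓy : ∀ i, ∀ z ∈ Ext r0, ℓ' i (y z) = ℓ i (x z) := by
    intro i z hz
    simp only [hℓ', hy, LinearMap.comp_apply]
    rw [hAS _ (hxL z hz)]
  have hyan : ∀ z ∈ Ext r0, ∀ k, AnalyticAt ℂ (fun w => y w k) z := by
    intro z hz k
    exact form_an (LinearMap.proj k ∘ₗ S) (hx z hz)
  have hynd : ∀ φ : Form d, (∀ z ∈ Ext r0, φ (y z) = 0) → φ = 0 := by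
    intro φ hφ
    have h1 : Lv ≤ LinearMap.ker (φ ∘ₗ S) := by
      rw [hLv, Submodule.span_le]
      rintro _ ⟨z, hz, rfl⟩
      exact hφ z hz
    ext1 k
    ext
    have h2 : A (Pi.single k 1) ∈ Lv := (b.equivFun.symm (Pi.single k 1)).2
    have h3 := h1 h2
    rw [LinearMap.mem_ker, LinearMap.comp_apply, hSA] at h3
    simpa using h3
  have hy0 : ∀ z ∈ Ext r0, y z ≠ 0 := by
    intro z hz h0
    apply hx0 z hz
    rw [← hAS _ (hxL z hz)]
    change A (y z) = 0
    rw [h0, map_zero]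
  have hℓ'0 : ∀ i, ℓ' i ≠ 0 := by
    intro i h0
    obtain ⟨z, hz, h⟩ := hne i
    rw [← hℓy i z hz, h0] at h
    exact h rfl
  rcases Nat.eq_zero_or_pos d with hd0 | hd1
  · -- constant curves
    right
    intro j
    subst hd0
    have h1 : ∀ i, ∀ z ∈ Ext r0, ℓ i (x z) = ℓ' i (Pi.single 0 1) * y z 0 := by
      intro i z hz
      rw [← hℓy i z hz, form_sum (ℓ' i) (y z)]
      simp
    obtain ⟨z0, hz0, h0⟩ := hne 0
    have h2 : ℓ' 0 (Pi.single 0 1) ≠ 0 := by
      rw [h1 0 z0 hz0] at h0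
      exact left_ne_zero_of_mul h0
    refine ⟨fun _ => ℓ' j (Pi.single 0 1) / ℓ' 0 (Pi.single 0 1), MeromorphicAt.const _ 0, r0,
      fun z hz => ?_⟩
    rw [h1 j z hz, h1 0 z hz]
    field_simp
  · by_cases hred : Reducible ℓ'
    · left
      obtain ⟨V1, V2, hV1, hV2, hc, hV⟩ := hred
      have hn : 1 ≤ n := by omega
      refine ⟨Finset.univ.filter fun i => ∀ v ∈ V1, ℓ' i v = 0, ?_, ?_, ?_⟩
      · rw [Finset.nonempty_iff_ne_empty]
        intro hemp
        apply hV2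
        rw [Submodule.eq_bot_iff]
        intro v hv
        have h1 : A v = 0 := by
          refine essential hn hirr fun i => ?_
          rcases hV i with h | h
          · exfalso
            have : i ∈ Finset.univ.filter fun i => ∀ v ∈ V1, ℓ' i v = 0 :=
              Finset.mem_filter.mpr ⟨Finset.mem_univ _, h⟩
            rw [hemp] at this
            exact absurd this (Finset.notMem_empty _)
          · exact h v hv
        rw [← hSA v, h1, map_zero]
      · intro huniv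
        apply hV1
        rw [Submodule.eq_bot_iff]
        intro v hv
        have h1 : A v = 0 := by
          refine essential hn hirr fun i => ?_
          have h2 : i ∈ Finset.univ.filter fun i => ∀ v ∈ V1, ℓ' i v = 0 := by
            rw [huniv]
            exact Finset.mem_univ _
          exact (Finset.mem_filter.mp h2).2 v hv
        rw [← hSA v, h1, map_zero]
      · intro z hz
        have h1 : y z ∈ V1 ⊔ V2 := by rw [hc.sup_eq_top]; trivial
        obtain ⟨v1, hv1, v2, hv2, h12⟩ := Submodule.mem_sup.mp h1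
        rw [← hAS _ (hxL z hz)]
        change A (y z) ∈ _
        rw [← h12, map_add]
        apply Submodule.add_mem_sup
        · rw [mem_flat]
          intro i hi
          exact (Finset.mem_filter.mp hi).2 v1 hv1
        · rw [mem_flat]
          intro i hi
          rw [Finset.mem_compl, Finset.mem_filter] at hi
          rcases hV i with h | h
          · exact absurd ⟨Finset.mem_univ _, h⟩ hi
          · exact h v2 hv2
    · right
      intro j
      have hm' : d * (d + 1) * (d + 2) < 2 * m := by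
        refine lt_of_le_of_lt ?_ hm
        exact Nat.mul_le_mul (Nat.mul_le_mul hdn (by omega)) (by omega)
      obtain ⟨R, hR, R0, hRe⟩ := nondeg hd1 hℓ'0 hred hm' hr0 hyan hy0 hynd (by
        intro z hz a ha
        refine hmult z hz a fun i => ?_
        rw [← ha i]
        refine analyticOrderAt_congr ?_
        filter_upwards [(Ext_open r0).mem_nhds hz] with w hw
        exact (hℓy i w hw).symm) j
      refine ⟨R, hR, max R0 r0, fun z hz => ?_⟩
      have h1 : z ∈ Ext r0 := lt_of_le_of_lt (le_max_right _ _) hz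
      rw [← hℓy j z h1, ← hℓy 0 z h1]
      exact hRe z (lt_of_le_of_lt (le_max_left _ _) hz)

/-- the coordinates are linear combinations of the linear forms -/
theorem exists_coeff' {n q : ℕ} {ℓ : Fin q → Form n}
    (hspan : ∀ w : Fin (n + 1) → ℂ, (∀ i, ℓ i w = 0) → w = 0) :
    ∃ b : Fin (n + 1) → Fin q → ℂ, ∀ (w : Fin (n + 1) → ℂ) (j : Fin (n + 1)),
      w j = ∑ i, b j i * ℓ i w := by
  classical
  let T : (Fin (n + 1) → ℂ) →ₗ[ℂ] (Fin q → ℂ) := LinearMap.pi fun i => ℓ i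
  have hker : LinearMap.ker T = ⊥ := by
    rw [LinearMap.ker_eq_bot']
    intro w hw
    exact hspan w fun i => congrFun hw i
  obtain ⟨S, hS⟩ := T.exists_leftInverse_of_injective hker
  refine ⟨fun j i => S (Pi.single i 1) j, fun w j => ?_⟩
  have h1 : w = S (T w) := (LinearMap.congr_fun hS w).symm
  have h2 : T w = ∑ i, (ℓ i w) • (Pi.single i (1 : ℂ) : Fin q → ℂ) := by
    funext i
    rw [Finset.sum_apply, Finset.sum_eq_single i]
    · simp [T]
    · intro j _ hj
      simp [Pi.single_eq_of_ne hj.symm]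
    · simp
  calc w j = S (T w) j := congrFun h1 j
    _ = _ := by
      rw [h2, map_sum, Finset.sum_apply]
      refine Finset.sum_congr rfl fun i _ => ?_
      rw [map_smul, Pi.smul_apply, smul_eq_mul, mul_comm]

/-- **Holomorphic maps from the punctured disc.** -/
theorem curve_disc {n q m : ℕ} (hn : 1 ≤ n) {ℓ : Fin q → Form n}
    (hirr : ¬ Reducible ℓ) (hm : n * (n + 1) * (n + 2) < 2 * m)
    {v : ℂ → Fin (n + 1) → ℂ} (hv : ∀ j, AnalyticOnNhd ℂ (fun z => v z j) (PB 1))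
    (hnz : ∀ z ∈ PB 1, v z ≠ 0)
    (hM : ∀ z ∈ PB 1, ∀ a : Fin q → ℕ, (∀ i, analyticOrderAt (fun w => ℓ i (v w)) z = a i) →
      a ≠ 0 → ∃ i, m ≤ a i) :
    (∃ i, ∀ z ∈ PB 1, ℓ i (v z) = 0) ∨
    (∃ κ : Finset (Fin q), κ.Nonempty ∧ κ ≠ Finset.univ ∧
      ∀ z ∈ PB 1, v z ∈ Flat ℓ κ ⊔ Flat ℓ κᶜ) ∨
    ∃ h : ℂ → ℂ, Pun h ∧ Nz h ∧ ∀ j, MRel (fun z => v z j) h := by
  classical
  rw [or_iff_not_imp_left]
  intro hcon
  push Not at hcon
  have hess := fun (w : Fin (n + 1) → ℂ) (h : ∀ i, ℓ i w = 0) => essential hn hirr h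
  obtain ⟨p, rfl⟩ : ∃ p, q = p + 1 := by
    rcases q with _ | p
    · exfalso
      have h1 := hess (Pi.single 0 1) fun i => i.elim0
      have := congrFun h1 0
      simp at this
    · exact ⟨p, rfl⟩
  set F : ℂ → Fin (n + 1) → ℂ := fun z => v z⁻¹ with hF
  have hinv : ∀ z ∈ Ext 1, z⁻¹ ∈ PB 1 := fun z hz =>
    inv_mem_PB one_pos (by rw [inv_one]; exact hz)
  have hinv' : ∀ w ∈ PB 1, w⁻¹ ∈ Ext 1 := fun w hw => by
    have := inv_mem_Ext hw
    rwa [inv_one] at this
  have hz0 : ∀ z ∈ Ext 1, z ≠ 0 := fun z hz => ext_ne_zero zero_le_one hz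
  have hFan : ∀ z ∈ Ext 1, ∀ j, AnalyticAt ℂ (fun w => F w j) z := fun z hz j =>
    (hv j z⁻¹ (hinv z hz)).comp_of_eq (analyticAt_inv (hz0 z hz)) rfl
  have hlan : ∀ i, ∀ z ∈ PB 1, AnalyticAt ℂ (fun w => ℓ i (v w)) z := fun i z hz =>
    form_an (ℓ i) fun j => hv j z hz
  have hcore := curve_ext (p := p) (m := m) hirr hm (r0 := 1) one_pos hFan
    (fun z hz => hnz _ (hinv z hz)) (by
      intro i
      obtain ⟨z, hz, hzne⟩ := hcon i
      exact ⟨z⁻¹, hinv' z hz, by simpa only [hF, inv_inv] using hzne⟩) (by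
      intro z hz a ha
      refine hM z⁻¹ (hinv z hz) a fun i => ?_
      rw [← ha i]
      have e1 : (fun w => ℓ i (F w)) = (fun w => ℓ i (v w)) ∘ fun w : ℂ => w⁻¹ := rfl
      have hd : deriv (fun w : ℂ => w⁻¹) z ≠ 0 := by
        rw [deriv_inv]
        exact neg_ne_zero.mpr (inv_ne_zero (pow_ne_zero _ (hz0 z hz)))
      rw [e1, analyticOrderAt_comp_of_deriv_ne_zero (analyticAt_inv (hz0 z hz)) hd])
  rcases hcore with ⟨κ, h1, h2, h3⟩ | hcore
  · left
    refine ⟨κ, h1, h2, fun z hz => ?_⟩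
    have h4 := h3 z⁻¹ (hinv' z hz)
    simpa only [hF, inv_inv] using h4
  · right
    obtain ⟨b, hb⟩ := exists_coeff' hess
    have hh : Pun (fun w => ℓ 0 (v w)) := on_pun one_pos (hlan 0)
    refine ⟨fun w => ℓ 0 (v w), hh, ?_, ?_⟩
    · intro h0
      obtain ⟨z, hz, hzne⟩ := hcon 0
      exact hzne (eq_zero_on one_pos (hlan 0) h0 z hz)
    · have hrel : ∀ i, MRel (fun w => ℓ i (v w)) (fun w => ℓ 0 (v w)) := by
        intro i
        obtain ⟨R, hR, R0, hRe⟩ := hcore i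
        refine ⟨fun w => R w⁻¹, hR, ?_⟩
        rw [ev_iff]
        set R1 : ℝ := max R0 1 with hR1
        have hR1pos : 0 < R1 := lt_of_lt_of_le one_pos (le_max_right _ _)
        refine ⟨R1⁻¹, inv_pos.mpr hR1pos, ?_⟩
        intro w hw
        have hw' : R1 < ‖w⁻¹‖ := by
          have := inv_mem_Ext hw
          rwa [inv_inv] at this
        have h1 := hRe w⁻¹ (lt_of_le_of_lt (le_max_left _ _) hw')
        simpa only [hF, inv_inv] using h1
      intro j
      have e : (fun z => v z j) = fun z => ∑ i, b j i * ℓ i (v z) :=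
        funext fun z => hb (v z) j
      rw [e]
      exact MRel.sum _ fun i _ => MRel.const_mul _ (hrel i)

end Pool.Agent.TH152.HY
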