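import Pool.Agent.TH152.HY.SubGT
import Pool.Agent.TH152.HY.Curve

/-!
Log general type: reduction to nondegenerate maps.
-/

set_option autoImplicit false

open FF Pool.Agent.W603.LV Pool.Agent.W602.GT Pool.Agent.W602.Cov Pool.Agent.W602.Cov.G
open Pool.Agent.W168.CG.PGR Pool.Agent.TH152.AC IntermediateField

namespace Pool.Agent.TH152.HY

variable {d n q : ℕ} {K : Type} [Field K] [Algebra ℂ K]

theorem alg_mono {S T : Set K} (h : adjoin ℂ S ≤ adjoin ℂ T)
    (hS : Algebra.IsAlgebraic (adjoin ℂ S) K) : Algebra.IsAlgebraic (adjoin ℂ T) K := by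
  let _ : Algebra (adjoin ℂ S) (adjoin ℂ T) := (inclusion h).toRingHom.toAlgebra
  have : IsScalarTower (adjoin ℂ S) (adjoin ℂ T) K := IsScalarTower.of_algebraMap_eq fun x => rfl
  exact Algebra.IsAlgebraic.extendScalars (R := adjoin ℂ S) (inclusion h).toRingHom.injective

/-- a transcendence basis of quotients of coordinates -/
theorem exists_sigma {y : Fin (n + 1) → K} {k0 : Fin (n + 1)} (hk : y k0 ≠ 0)
    (halg : Algebra.IsAlgebraic (adjoin ℂ (Set.range fun k => y k / y k0)) K)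
    (htr : Algebra.trdeg ℂ K = d) :
    ∃ σ : Fin (d + 1) → Fin (n + 1), y (σ 0) ≠ 0 ∧
      IsTranscendenceBasis ℂ (fun j : Fin d => y (σ j.succ) / y (σ 0)) := by
  rw [isAlgebraic_adjoin_iff_top] at halg
  obtain ⟨t, hts, ht⟩ := exists_isTranscendenceBasis_subset (R := ℂ)
    (Set.range fun k => y k / y k0)
  have h1 := ht.cardinalMk_eq_trdeg
  rw [htr] at h1
  obtain ⟨φ⟩ : Nonempty (Fin d ≃ t) := by
    rw [← Cardinal.eq, Cardinal.mk_fin]
    exact h1.symm
  have h2 : ∀ j : Fin d, ∃ k, y k / y k0 = φ j := fun j => hts (φ j).2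
  choose s hs using h2
  refine ⟨Fin.cons k0 s, hk, ?_⟩
  have e : (fun j : Fin d => y ((Fin.cons k0 s : Fin (d + 1) → Fin (n + 1)) j.succ) /
      y ((Fin.cons k0 s : Fin (d + 1) → Fin (n + 1)) 0)) = fun j => ((φ j : t) : K) := by
    funext j
    rw [Fin.cons_succ, Fin.cons_zero]
    exact hs j
  rw [e]
  exact ht.comp_equiv φ

/-- coordinates which are independent over the complex numbers -/
theorem exists_coords {b : Fin (n + 1) → K} (hb : b ≠ 0) :
    ∃ (n' : ℕ) (A : (Fin (n' + 1) → ℂ) →ₗ[ℂ] (Fin (n + 1) → ℂ))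
      (S : (Fin (n + 1) → ℂ) →ₗ[ℂ] (Fin (n' + 1) → ℂ)) (y : Fin (n' + 1) → K),
      n' ≤ n ∧ (∀ z, S (A z) = z) ∧ LinearIndependent ℂ y ∧ ∀ φ : Form n, lf φ b = lf (φ ∘ₗ A) y := by
  classical
  set L : Submodule ℂ K := Submodule.span ℂ (Set.range b) with hL
  have hbL : ∀ j, b j ∈ L := fun j => Submodule.subset_span ⟨j, rfl⟩
  have hfin : Module.Finite ℂ L := Module.Finite.span_of_finite ℂ (Set.finite_range b)
  obtain ⟨j0, hj0⟩ := Function.ne_iff.mp hb
  obtain ⟨n', hn'⟩ : ∃ n', Module.finrank ℂ L = n' + 1 := by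
    have h1 : 0 < Module.finrank ℂ L := by
      rw [Module.finrank_pos_iff]
      exact ⟨⟨⟨b j0, hbL j0⟩, 0, fun h => hj0 (congrArg Subtype.val h)⟩⟩
    exact ⟨Module.finrank ℂ L - 1, by omega⟩
  have hle : n' ≤ n := by
    have h1 := finrank_range_le_card (R := ℂ) b
    rw [Fintype.card_fin] at h1
    change Module.finrank ℂ L ≤ _ at h1
    omega
  let y : Module.Basis (Fin (n' + 1)) ℂ L := Module.finBasisOfFinrankEq ℂ L hn'
  let c : Matrix (Fin (n + 1)) (Fin (n' + 1)) ℂ := Matrix.of fun j k => y.repr ⟨b j, hbL j⟩ k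
  have hli : LinearIndependent ℂ (fun k => (y k : K)) :=
    y.linearIndependent.map' L.subtype (Submodule.ker_subtype L)
  have hc : ∀ j, b j = ∑ k, c j k • (y k : K) := by
    intro j
    have h1 : ((∑ k, y.repr ⟨b j, hbL j⟩ k • y k : L) : K) = b j :=
      congrArg Subtype.val (y.sum_repr ⟨b j, hbL j⟩)
    have h2 : ((∑ k, y.repr ⟨b j, hbL j⟩ k • y k : L) : K) =
        ∑ k, y.repr ⟨b j, hbL j⟩ k • (y k : K) := by
      rw [Submodule.coe_sum]
      rfl
    exact h1.symm.trans h2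
  have hs : ∀ k, ∃ s : Fin (n + 1) → ℂ, ∑ j, s j • b j = (y k : K) := fun k =>
    (Submodule.mem_span_range_iff_exists_fun ℂ).1 (y k).2
  choose s hs using hs
  have hsc : (Matrix.of s) * c = 1 := by
    ext k l
    have h1 : ∑ l, ((Matrix.of s * c) k l - (1 : Matrix (Fin (n' + 1)) (Fin (n' + 1)) ℂ) k l) •
        (y l : K) = 0 := by
      have h2 : ∑ l, (Matrix.of s * c) k l • (y l : K) = (y k : K) := by
        rw [← hs k]
        simp only [Matrix.mul_apply, Finset.sum_smul, hc, Finset.smul_sum, smul_smul]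
        rw [Finset.sum_comm]
        rfl
      have h3 : ∑ l, (1 : Matrix (Fin (n' + 1)) (Fin (n' + 1)) ℂ) k l • (y l : K) = (y k : K) := by
        simp [Matrix.one_apply]
      simp only [sub_smul, Finset.sum_sub_distrib, h2, h3, sub_self]
    exact sub_eq_zero.mp (Fintype.linearIndependent_iff.mp hli _ h1 l)
  refine ⟨n', Matrix.mulVecLin c, Matrix.mulVecLin (Matrix.of s), fun k => (y k : K), hle, ?_, hli,
    ?_⟩
  · intro z
    rw [Matrix.mulVecLin_apply, Matrix.mulVecLin_apply, Matrix.mulVec_mulVec, hsc,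
      Matrix.one_mulVec]
  · intro φ
    rw [lf_eq_smul, lf_eq_smul]
    simp only [hc, Finset.smul_sum, smul_smul]
    rw [Finset.sum_comm]
    refine Finset.sum_congr rfl fun k _ => ?_
    rw [← Finset.sum_smul]
    congr 1
    rw [LinearMap.comp_apply, Matrix.mulVecLin_apply]
    rw [LinearMap.pi_apply_eq_sum_univ φ]
    refine Finset.sum_congr rfl fun j _ => ?_
    rw [smul_eq_mul, mul_comm]
    congr 1
    · simp
    · congr 1
      funext k
      simp [Pi.single_apply, eq_comm]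

/-- **Log general type in any dimension.** -/
theorem sub_general' {m : ℕ} (hd : 1 ≤ d) (hn : 1 ≤ n) {ℓ : Fin q → Form n}
    (hr : ¬ Reducible ℓ) (hm : n * (n + 1) * (n + 2) < 2 * m) {b : Fin (n + 1) → K} (hb : b ≠ 0)
    (hlb : ∀ i, lf (ℓ i) b ≠ 0)
    (hκ : ∀ κ : Finset (Fin q), κ.Nonempty → κ ≠ Finset.univ →
      ∃ φ : Form n, Flat ℓ κ ⊔ Flat ℓ κᶜ ≤ LinearMap.ker φ ∧ lf φ b ≠ 0)
    (htr : Algebra.trdeg ℂ K = d)
    (halg : Algebra.IsAlgebraic (adjoin ℂ {f : K | ∃ i j, b j ≠ 0 ∧ f = b i / b j}) K)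
    (Bd : Place ℂ K → Prop)
    (hP : ∀ P : Place ℂ K, Divisorial d P → ¬ Bd P → ∀ (a : ℤ) (v : Fin q → ℕ),
      (∀ φ : Form n, lf φ b = 0 ∨ a ≤ P.ord (lf φ b)) →
      (∃ i, P.ord (lf (ℓ i) b) = a) →
      (∀ i, P.ord (lf (ℓ i) b) = a + v i) → v ≠ 0 → ∃ i, m ≤ v i) :
    LogGeneralType ℂ K d Bd := by
  classical
  obtain ⟨n', A, S, y, hn'n, hSA, hli, hlf⟩ := exists_coords hb
  set ℓ' : Fin q → Form n' := fun i => ℓ i ∘ₗ A with hℓ'
  have hℓb : ∀ i, lf (ℓ' i) y = lf (ℓ i) b := fun i => (hlf (ℓ i)).symm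
  have hℓ'0 : ∀ i, ℓ' i ≠ 0 := by
    intro i h0
    apply hlb i
    rw [← hℓb i, h0]
    simp [lf]
  have hAinj : ∀ z, A z = 0 → z = 0 := fun z hz => by rw [← hSA z, hz, map_zero]
  -- the new arrangement is not reducible
  have hred : ¬ Reducible ℓ' := by
    rintro ⟨V1, V2, hV1, hV2, hc, hV⟩
    obtain ⟨φ, hφ, hφb⟩ := hκ (Finset.univ.filter fun i => ∀ v ∈ V1, ℓ' i v = 0) (by
      rw [Finset.nonempty_iff_ne_empty]
      intro hemp
      apply hV2
      rw [Submodule.eq_bot_iff]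
      intro v hv
      refine hAinj v (essential hn hr fun i => ?_)
      rcases hV i with h | h
      · exfalso
        have : i ∈ Finset.univ.filter fun i => ∀ v ∈ V1, ℓ' i v = 0 :=
          Finset.mem_filter.mpr ⟨Finset.mem_univ _, h⟩
        rw [hemp] at this
        exact absurd this (Finset.notMem_empty _)
      · exact h v hv) (by
      intro huniv
      apply hV1
      rw [Submodule.eq_bot_iff]
      intro v hv
      refine hAinj v (essential hn hr fun i => ?_)
      have h2 : i ∈ Finset.univ.filter fun i => ∀ v ∈ V1, ℓ' i v = 0 := by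
        rw [huniv]
        exact Finset.mem_univ _
      exact (Finset.mem_filter.mp h2).2 v hv)
    apply hφb
    have h0 : φ ∘ₗ A = 0 := by
      apply LinearMap.ext
      intro z
      have h1 : z ∈ V1 ⊔ V2 := by rw [hc.sup_eq_top]; trivial
      obtain ⟨v1, hv1, v2, hv2, h12⟩ := Submodule.mem_sup.mp h1
      rw [← h12]
      change φ (A (v1 + v2)) = 0
      rw [map_add]
      apply hφ
      apply Submodule.add_mem_sup
      · rw [mem_flat]
        intro i hi
        exact (Finset.mem_filter.mp hi).2 v1 hv1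
      · rw [mem_flat]
        intro i hi
        rw [Finset.mem_compl, Finset.mem_filter] at hi
        rcases hV i with h | h
        · exact absurd ⟨Finset.mem_univ _, h⟩ hi
        · exact h v2 hv2
    rw [hlf, h0]
    simp [lf]
  -- a transcendence basis
  have hy0 : y 0 ≠ 0 := hli.ne_zero 0
  have hbs : ∀ j, b j = ∑ k, (LinearMap.proj j ∘ₗ A) (Pi.single k 1) • y k := by
    intro j
    have h1 := hlf (LinearMap.proj j)
    rw [lf_proj] at h1
    rw [h1, lf_eq_smul]
  have hsub : ∀ i, b i / y 0 ∈ adjoin ℂ (Set.range fun k => y k / y 0) := by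
    intro i
    rw [hbs i, Finset.sum_div]
    refine sum_mem fun k _ => ?_
    rw [smul_div_assoc, Algebra.smul_def]
    have h1 : y k / y 0 ∈ Set.range fun k => y k / y 0 := ⟨k, rfl⟩
    exact mul_mem (_root_.algebraMap_mem _ _) (subset_adjoin ℂ _ h1)
  have halg' : Algebra.IsAlgebraic (adjoin ℂ (Set.range fun k => y k / y 0)) K := by
    refine alg_mono ?_ halg
    rw [adjoin_le_iff]
    rintro _ ⟨i, j, hj, rfl⟩
    have e : b i / b j = (b i / y 0) / (b j / y 0) := by
      field_simp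
    rw [e]
    exact div_mem (hsub i) (hsub j)
  obtain ⟨σ, hσ, hbas⟩ := exists_sigma hy0 halg' htr
  have hn' : 1 ≤ n' := by
    by_contra h0
    obtain rfl : n' = 0 := by omega
    obtain ⟨j0, -⟩ : ∃ j0 : Fin d, j0 = j0 := ⟨⟨0, hd⟩, rfl⟩
    have h1 := hbas.1.transcendental j0
    apply h1
    have h2 : y (σ j0.succ) / y (σ 0) = 1 := by
      rw [Fin.eq_zero (σ j0.succ), Fin.eq_zero (σ 0)]
      exact div_self hy0
    change IsAlgebraic ℂ (y (σ j0.succ) / y (σ 0))
    rw [h2]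
    exact isAlgebraic_one
  have hspan := Pool.Agent.W392.CG.span_top hn' ℓ' hred
  have hm' : n' * (n' + 1) * (n' + 2) < 2 * m := by
    refine lt_of_le_of_lt ?_ hm
    exact Nat.mul_le_mul (Nat.mul_le_mul hn'n (by omega)) (by omega)
  refine sub_general hn' hℓ'0 hred hm' hli σ hσ hbas Bd fun P hPd hPB a v hv hv0 hsp => ?_
  obtain ⟨i, hi⟩ : ∃ i, v i = 0 := by
    by_contra hcon
    push Not at hcon
    apply hsp
    rw [← hspan]
    congr 1
    ext φ
    constructor
    · rintro ⟨i, -, rfl⟩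
      exact ⟨i, rfl⟩
    · rintro ⟨i, rfl⟩
      exact ⟨i, hcon i, rfl⟩
  refine hP P hPd hPB a v (fun φ => ?_) ⟨i, ?_⟩ (fun i => by rw [← hℓb i]; exact hv i) hv0
  · rw [hlf φ]
    refine ge_span P a (Set.range ℓ') y ?_ _ (by rw [hspan]; trivial)
    rintro _ ⟨i, rfl⟩
    right
    rw [hv i]
    have : (0 : ℤ) ≤ v i := by positivity
    linarith
  · rw [← hℓb i, hv i, hi]
    simp

end Pool.Agent.TH152.HY
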