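import Pool.Agent.TH152.AC.Dual

/-!
The inequality for the distances of a point to the hyperplanes.
-/

set_option autoImplicit false

open Pool.Agent.W602.Cov Module Pool.Agent.TH152.AC

namespace Pool.Agent.TH152.HY

variable {n q : ℕ} {ℓ : Fin q → Form n}

theorem bases_in {S : Set (Fin q)} (hspan : Submodule.span ℂ (ℓ '' S) = ⊤) :
    ∃ B : Bases ℓ, ∀ a, B.1 a ∈ S := by
  have hfr : finrank ℂ (Submodule.span ℂ (ℓ '' S)) = n + 1 := by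
    rw [hspan, finrank_top, finrank_form]
  obtain ⟨f, hf1, hf2, hf3⟩ := Submodule.exists_fun_fin_finrank_span_eq ℂ (ℓ '' S)
  choose g hg1 hg2 using hf1
  refine ⟨⟨fun a => g (Fin.cast hfr.symm a), ?_⟩, fun a => hg1 _⟩
  have h1 : (fun a => ℓ (g (Fin.cast hfr.symm a))) = f ∘ (Fin.cast hfr.symm) := by
    funext a; simp [hg2]
  rw [h1]
  exact hf3.comp _ (Fin.cast_injective _)

/-- a constant for the comparison with the elements of a basis -/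
noncomputable def KK (ℓ : Fin q → Form n) : ℝ :=
  1 + ∑ B : Bases ℓ, ∑ i, ∑ a, ‖(bas B).repr (ℓ i) a‖

theorem one_le_KK (ℓ : Fin q → Form n) : 1 ≤ KK ℓ := by
  unfold KK
  have : 0 ≤ ∑ B : Bases ℓ, ∑ i, ∑ a, ‖(bas B).repr (ℓ i) a‖ :=
    Finset.sum_nonneg fun B _ => Finset.sum_nonneg fun i _ => Finset.sum_nonneg fun a _ =>
      norm_nonneg _
  linarith

theorem some_large (B : Bases ℓ) {x : Fin (n + 1) → ℂ} {σ : ℝ} (hσ : 0 < σ)
    (h2 : ∃ i, ‖ℓ i x‖ = σ) : ∃ a, σ < KK ℓ * ‖ℓ (B.1 a) x‖ := by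
  classical
  by_contra hcon
  push Not at hcon
  obtain ⟨i, hi⟩ := h2
  have hK := one_le_KK ℓ
  have hKpos : 0 < KK ℓ := by linarith
  have h3 : ℓ i x = ∑ a, (bas B).repr (ℓ i) a * ℓ (B.1 a) x := by
    have h4 := congrArg (fun φ : Form n => φ x) ((bas B).sum_repr (ℓ i)).symm
    simp only [LinearMap.coe_sum, Finset.sum_apply, LinearMap.smul_apply, smul_eq_mul,
      bas_apply] at h4
    exact h4
  have h5 : KK ℓ * ‖ℓ i x‖ ≤ (∑ a, ‖(bas B).repr (ℓ i) a‖) * σ := by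
    rw [h3]
    calc KK ℓ * ‖∑ a, (bas B).repr (ℓ i) a * ℓ (B.1 a) x‖
        ≤ KK ℓ * ∑ a, ‖(bas B).repr (ℓ i) a‖ * ‖ℓ (B.1 a) x‖ := by
          refine mul_le_mul_of_nonneg_left ?_ hKpos.le
          refine (norm_sum_le _ _).trans (le_of_eq ?_)
          exact Finset.sum_congr rfl fun a _ => norm_mul _ _
      _ = ∑ a, ‖(bas B).repr (ℓ i) a‖ * (KK ℓ * ‖ℓ (B.1 a) x‖) := by
          rw [Finset.mul_sum]
          exact Finset.sum_congr rfl fun a _ => by ring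
      _ ≤ ∑ a, ‖(bas B).repr (ℓ i) a‖ * σ :=
          Finset.sum_le_sum fun a _ => mul_le_mul_of_nonneg_left (hcon a) (norm_nonneg _)
      _ = _ := by rw [Finset.sum_mul]
  rw [hi] at h5
  have h6 : ∑ a, ‖(bas B).repr (ℓ i) a‖ ≤ ∑ B : Bases ℓ, ∑ i, ∑ a, ‖(bas B).repr (ℓ i) a‖ := by
    refine le_trans ?_ (Finset.single_le_sum (f := fun B : Bases ℓ =>
      ∑ i, ∑ a, ‖(bas B).repr (ℓ i) a‖) (fun B _ => Finset.sum_nonneg fun i _ =>
        Finset.sum_nonneg fun a _ => norm_nonneg _) (Finset.mem_univ B))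
    exact Finset.single_le_sum (f := fun i => ∑ a, ‖(bas B).repr (ℓ i) a‖) (fun i _ =>
      Finset.sum_nonneg fun a _ => norm_nonneg _) (Finset.mem_univ i)
  have h7 : (∑ a, ‖(bas B).repr (ℓ i) a‖) * σ < KK ℓ * σ := by
    refine mul_lt_mul_of_pos_right ?_ hσ
    unfold KK
    linarith
  linarith

/-- **The inequality for the distances.** -/
theorem real_orders (w : Bases ℓ → ℕ) (hw : ∀ F : Finset (Fin q), Proper ℓ F →
      (n + 2) * (∑ B, w B * cnt B.1 F) + ∑ B, w B ≤ (n + 2) * ((∑ B, w B) * rk ℓ F))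
    (hne : Nonempty (Bases ℓ)) :
    ∃ C : ℝ, 0 ≤ C ∧ ∀ (x : Fin (n + 1) → ℂ) (σ : ℝ), (∀ i, ℓ i x ≠ 0) → (∀ i, ‖ℓ i x‖ ≤ σ) →
      (∃ i, ‖ℓ i x‖ = σ) → ∃ B' : Bases ℓ, ∀ i,
        (n + 2) * (∑ B, (w B : ℝ) * ∑ a, Real.log (σ / ‖ℓ (B.1 a) x‖)) +
          (∑ B, (w B : ℝ)) * Real.log (σ / ‖ℓ i x‖) ≤
        (n + 2) * ((∑ B, (w B : ℝ)) * ∑ a, Real.log (σ / ‖ℓ (B'.1 a) x‖)) + C := by
  classical
  set N : ℝ := ∑ B, (w B : ℝ) with hN
  have hN0 : 0 ≤ N := Finset.sum_nonneg fun B _ => Nat.cast_nonneg _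
  set C0 : ℝ := Real.log (KK ℓ) with hC0
  have hC00 : 0 ≤ C0 := Real.log_nonneg (one_le_KK ℓ)
  refine ⟨(C0 + 1) * ((n + 2) * ((n + 1) * N) + N), by positivity, ?_⟩
  intro x σ hx0 hle hat
  have hσ : 0 < σ := by
    obtain ⟨i, hi⟩ := hat
    rw [← hi]
    exact norm_pos_iff.mpr (hx0 i)
  have hpos : ∀ i, 0 < ‖ℓ i x‖ := fun i => norm_pos_iff.mpr (hx0 i)
  set lam : Fin q → ℝ := fun i => Real.log (σ / ‖ℓ i x‖) with hlam
  have hlam0 : ∀ i, 0 ≤ lam i := fun i => Real.log_nonneg (by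
    rw [le_div_iff₀ (hpos i), one_mul]
    exact hle i)
  set v : Fin q → ℕ := fun i => ⌊lam i - C0⌋₊ with hv
  have hv1 : ∀ i, lam i ≤ v i + (C0 + 1) := fun i => by
    have := Nat.lt_floor_add_one (lam i - C0)
    have h2 : ((v i : ℕ) : ℝ) = (⌊lam i - C0⌋₊ : ℝ) := rfl
    rw [h2]
    linarith
  have hv2 : ∀ i, (v i : ℝ) ≤ lam i := fun i => by
    by_cases h : 0 ≤ lam i - C0
    · have := Nat.floor_le h
      have h2 : ((v i : ℕ) : ℝ) = (⌊lam i - C0⌋₊ : ℝ) := rfl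
      rw [h2]
      linarith
    · have : v i = 0 := Nat.floor_of_nonpos (by linarith)
      rw [this, Nat.cast_zero]
      exact hlam0 i
  have hsupp : Submodule.span ℂ (ℓ '' {i | v i ≠ 0}) ≠ ⊤ := by
    intro htop
    obtain ⟨B, hB⟩ := bases_in htop
    obtain ⟨a, ha⟩ := some_large B hσ hat
    have h1 : v (B.1 a) ≠ 0 := hB a
    apply h1
    have h2 : lam (B.1 a) ≤ C0 := by
      simp only [hlam, hC0]
      apply Real.log_le_log (div_pos hσ (hpos _))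
      rw [div_le_iff₀ (hpos _)]
      exact ha.le
    exact Nat.floor_of_nonpos (by linarith)
  obtain ⟨B', hB'⟩ := orders w hw hne v hsupp
  refine ⟨B', fun i => ?_⟩
  have h1 := hB' i
  have h2 : (n + 2 : ℝ) * (∑ B, (w B : ℝ) * ∑ a, (v (B.1 a) : ℝ)) + N * v i ≤
      (n + 2) * (N * ∑ a, (v (B'.1 a) : ℝ)) := by
    rw [hN]
    exact_mod_cast h1
  have h3 : ∀ B : Bases ℓ, ∑ a, lam (B.1 a) ≤ ∑ a, (v (B.1 a) : ℝ) + (n + 1) * (C0 + 1) := by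
    intro B
    calc ∑ a, lam (B.1 a) ≤ ∑ a, ((v (B.1 a) : ℝ) + (C0 + 1)) :=
          Finset.sum_le_sum fun a _ => hv1 _
      _ = _ := by
        rw [Finset.sum_add_distrib, Finset.sum_const, Finset.card_univ, Fintype.card_fin,
          nsmul_eq_mul]
        push_cast
        ring
  have h4 : ∑ B, (w B : ℝ) * ∑ a, lam (B.1 a)
      ≤ ∑ B, (w B : ℝ) * ∑ a, (v (B.1 a) : ℝ) + (n + 1) * (C0 + 1) * N := by
    calc ∑ B, (w B : ℝ) * ∑ a, lam (B.1 a)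
        ≤ ∑ B, (w B : ℝ) * (∑ a, (v (B.1 a) : ℝ) + (n + 1) * (C0 + 1)) :=
          Finset.sum_le_sum fun B _ => mul_le_mul_of_nonneg_left (h3 B) (Nat.cast_nonneg _)
      _ = ∑ B, ((w B : ℝ) * ∑ a, (v (B.1 a) : ℝ) + (w B : ℝ) * ((n + 1) * (C0 + 1))) :=
          Finset.sum_congr rfl fun B _ => mul_add _ _ _
      _ = _ := by
        rw [Finset.sum_add_distrib, ← Finset.sum_mul, ← hN]
        ring
  have h5 : ∑ a, (v (B'.1 a) : ℝ) ≤ ∑ a, lam (B'.1 a) := Finset.sum_le_sum fun a _ => hv2 _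
  have h6 : N * lam i ≤ N * v i + N * (C0 + 1) := by
    rw [← mul_add]
    exact mul_le_mul_of_nonneg_left (hv1 i) hN0
  have h7 : (n + 2 : ℝ) * (N * ∑ a, (v (B'.1 a) : ℝ)) ≤ (n + 2) * (N * ∑ a, lam (B'.1 a)) :=
    mul_le_mul_of_nonneg_left (mul_le_mul_of_nonneg_left h5 hN0) (by positivity)
  have h8 : (n + 2 : ℝ) * ∑ B, (w B : ℝ) * ∑ a, lam (B.1 a)
      ≤ (n + 2) * (∑ B, (w B : ℝ) * ∑ a, (v (B.1 a) : ℝ) + (n + 1) * (C0 + 1) * N) :=
    mul_le_mul_of_nonneg_left h4 (by positivity)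
  change (n + 2 : ℝ) * (∑ B, (w B : ℝ) * ∑ a, lam (B.1 a)) + N * lam i
    ≤ (n + 2) * (N * ∑ a, lam (B'.1 a)) + (C0 + 1) * ((n + 2) * ((n + 1) * N) + N)
  nlinarith [h2, h6, h7, h8]

end Pool.Agent.TH152.HY
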