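import Pool.Agent.TH152.HY.Wrn
import Pool.Agent.TH152.HY.Ineq

/-!
Nondegenerate curves near infinity which are highly ramified over an arrangement which is not
reducible are meromorphic at infinity.
-/

set_option autoImplicit false

namespace Pool.Agent.TH152.HY

open Filter Metric Real Set Topology Pool.Agent.H159R3.NV Pool.Agent.W602.NC Pool.Agent.W602.TL
  Pool.Agent.W603.BP Pool.Agent.W601.PH Pool.Agent.W602.Cov Pool.Agent.TH152.AC

/-- the exponents -/
noncomputable def cc {d p : ℕ} {ℓ : Fin (p + 1) → Form d} (w : Bases ℓ → ℕ) (m e : ℕ) (i : Fin (p + 1)) : ℕ :=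
  m * ((d + 2) * ∑ B, w B * ∑ a, (if B.1 a = i then 1 else 0)) + if i = 0 then e else 0

theorem sum_cc {d p : ℕ} {ℓ : Fin (p + 1) → Form d} (w : Bases ℓ → ℕ) (m e : ℕ) {R : Type*}
    [CommSemiring R] (v : Fin (p + 1) → R) :
    ∑ i, (cc w m e i : R) * v i
      = m * ((d + 2) * ∑ B, (w B : R) * ∑ a, v (B.1 a)) + e * v 0 := by
  have h1 : ∀ i, (cc w m e i : R) * v i = m * ((d + 2) * ∑ B, (w B : R) *
      ∑ a, (if B.1 a = i then v i else 0)) + (if i = 0 then e * v i else 0) := by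
    intro i
    unfold cc
    push_cast
    rw [add_mul]
    congr 1
    · rw [mul_assoc, mul_assoc, Finset.sum_mul]
      congr 2
      refine Finset.sum_congr rfl fun B _ => ?_
      rw [mul_assoc, Finset.sum_mul]
      congr 1
      refine Finset.sum_congr rfl fun a _ => ?_
      split_ifs <;> simp
    · split_ifs <;> simp
  rw [Finset.sum_congr rfl fun i _ => h1 i, Finset.sum_add_distrib, ← Finset.mul_sum,
    ← Finset.mul_sum, Finset.sum_comm, Finset.sum_ite_eq' Finset.univ (0 : Fin (p + 1))]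
  simp only [Finset.mem_univ, if_true]
  congr 3
  refine Finset.sum_congr rfl fun B _ => ?_
  rw [← Finset.mul_sum, Finset.sum_comm]
  congr 1
  refine Finset.sum_congr rfl fun a _ => ?_
  rw [Finset.sum_ite_eq Finset.univ (B.1 a)]
  simp

theorem tri (d : ℕ) : 2 * ∑ k : Fin (d + 1), (k : ℕ) = d * (d + 1) := by
  rw [Fin.sum_univ_eq_sum_range (fun k => k) (d + 1), mul_comm 2, Finset.sum_range_id_mul_two]
  simp [mul_comm]

theorem arith {m D S N a0 a1 A' ω t e : ℕ} (h1 : D * S + N * a1 ≤ D * (N * A'))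
    (h2 : A' ≤ ω + t) (h3 : m ≤ a1) (h4 : a0 ≤ a1) (he : m = e + D * t) :
    m * (D * S) + N * e * a0 ≤ m * (D * N) * ω := by
  have s1 : m * (D * S) + m * (N * a1) ≤ m * (D * (N * A')) := by
    have := Nat.mul_le_mul_left m h1
    rwa [mul_add] at this
  have s2 : m * (D * (N * A')) ≤ m * (D * N) * ω + m * (N * (D * t)) := by
    calc m * (D * (N * A')) ≤ m * (D * (N * (ω + t))) :=
          Nat.mul_le_mul_left _ (Nat.mul_le_mul_left _ (Nat.mul_le_mul_left _ h2))
      _ = _ := by ring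
  have s3 : N * e * a0 ≤ N * e * a1 := Nat.mul_le_mul_left _ h4
  have s4 : N * e * a1 + m * (N * (D * t)) ≤ m * (N * a1) := by
    calc N * e * a1 + m * (N * (D * t)) ≤ N * e * a1 + a1 * (N * (D * t)) := by gcongr
      _ = (e + D * t) * (N * a1) := by ring
      _ = m * (N * a1) := by rw [he]
  omega

theorem nondeg {d p m : ℕ} (hd : 1 ≤ d) {ℓ : Fin (p + 1) → Form d} (hℓ : ∀ i, ℓ i ≠ 0)
    (hr : ¬ Reducible ℓ) (hm : d * (d + 1) * (d + 2) < 2 * m) {r0 : ℝ} (hr0 : 0 < r0)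
    {x : ℂ → Fin (d + 1) → ℂ} (hx : ∀ z ∈ Ext r0, ∀ k, AnalyticAt ℂ (fun w => x w k) z)
    (hx0 : ∀ z ∈ Ext r0, x z ≠ 0)
    (hnd : ∀ φ : Form d, (∀ z ∈ Ext r0, φ (x z) = 0) → φ = 0)
    (hmult : ∀ z ∈ Ext r0, ∀ a : Fin (p + 1) → ℕ,
      (∀ i, analyticOrderAt (fun w => ℓ i (x w)) z = a i) → a ≠ 0 → ∃ i, m ≤ a i)
    (j : Fin (p + 1)) :
    ∃ R : ℂ → ℂ, MeromorphicAt (fun w => R w⁻¹) 0 ∧ ∃ R0 : ℝ, ∀ z, R0 < ‖z‖ →
      ℓ j (x z) = R z * ℓ 0 (x z) := by
  classical
  obtain ⟨w, hN, hw⟩ := weights hd hℓ hr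
  have hneB : Nonempty (Bases ℓ) := exists_bases (Pool.Agent.W392.CG.span_top hd ℓ hr)
  obtain ⟨C, hC0, hC⟩ := real_orders w hw hneB
  set N := ∑ B, w B with hNdef
  set t : ℕ := ∑ k : Fin (d + 1), (k : ℕ) with ht
  have ht2 : 2 * t = d * (d + 1) := tri d
  have hmt : (d + 2) * t < m := by
    have : 2 * ((d + 2) * t) < 2 * m := by
      calc 2 * ((d + 2) * t) = (2 * t) * (d + 2) := by ring
        _ = d * (d + 1) * (d + 2) := by rw [ht2]
        _ < 2 * m := hm
    omega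
  obtain ⟨e, he, he0⟩ : ∃ e, m = e + (d + 2) * t ∧ 0 < e := ⟨m - (d + 2) * t, by omega, by omega⟩
  have hm0 : 0 < m := by omega
  set U : Fin (p + 1) → ℂ → ℂ := fun i z => ℓ i (x z) with hU
  have hUan : ∀ i, AnalyticOnNhd ℂ (U i) (Ext r0) := fun i z hz => form_an (ℓ i) (hx z hz)
  have hne : ∀ i, ∃ z ∈ Ext r0, U i z ≠ 0 := by
    intro i
    by_contra hcon
    push Not at hcon
    exact hℓ i (hnd (ℓ i) hcon)
  have hWan : AnalyticOnNhd ℂ (Wf x) (Ext r0) := fun z hz => dt_an (hx z hz)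
  obtain ⟨z1, hz1, hz1W⟩ := Wf_ne hr0 hx hnd
  set q : ℕ := m * ((d + 2) * N) with hq
  have hq0 : q ≠ 0 := by positivity
  -- the determinants
  let dd : Bases ℓ → ℂ := fun B =>
    (Matrix.of fun b k : Fin (d + 1) => ℓ (B.1 b) (Pi.single k 1)).det
  have hdd : ∀ B, dd B ≠ 0 := fun B => det_ne (fun b => ℓ (B.1 b)) B.2
  have hlin : ∀ (B : Bases ℓ), ∀ z ∈ Ext r0, dt (fun b w => ℓ (B.1 b) (x w)) z
      = dd B * Wf x z := fun B z hz => wr_lin (fun b => ℓ (B.1 b)) (hx z hz)
  set F : ℝ := ((Nat.factorial (d + 1) : ℝ)) ^ (d + 2) with hF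
  have hF0 : 0 ≤ F := by positivity
  set CX : ℝ := 1 + (∑ B, ‖dd B‖⁻¹) * F with hCX
  have hsum0 : 0 ≤ ∑ B, ‖dd B‖⁻¹ := Finset.sum_nonneg fun B _ => by positivity
  have hCX1 : 1 ≤ CX := by
    have : 0 ≤ (∑ B, ‖dd B‖⁻¹) * F := mul_nonneg hsum0 hF0
    linarith
  have hCXpos : 0 < CX := by linarith
  have hC1 : 1 ≤ Real.exp (m * C) * CX ^ q :=
    one_le_mul_of_one_le_of_one_le (Real.one_le_exp (by positivity)) (one_le_pow₀ hCX1)
  refine abstract_ext hr0 (cc w m (N * e)) (κ := N * e) (Nn := (d + 1) * (d + 1) * q)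
    (Nat.mul_pos hN he0) hC1 hUan hne (P := fun z => Wf x z ^ q)
    (fun z hz => (hWan z hz).fun_pow q) ⟨z1, hz1, pow_ne_zero _ hz1W⟩ ?_ ?_ j
  · -- orders
    intro z hz a ha
    have e1 : (fun z => Wf x z ^ q) = Wf x ^ q := rfl
    rw [e1, analyticOrderAt_pow (hWan z hz)]
    by_cases ha0 : a = 0
    · subst ha0
      simp
    · obtain ⟨i2, hi2⟩ := hmult z hz a ha ha0
      obtain ⟨i1, -, hi1⟩ := Finset.exists_max_image (Finset.univ : Finset (Fin (p + 1))) a
        ⟨0, Finset.mem_univ _⟩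
      have hm1 : m ≤ a i1 := hi2.trans (hi1 i2 (Finset.mem_univ _))
      have hv : Submodule.span ℂ (ℓ '' {i | a i ≠ 0}) ≠ ⊤ := by
        intro htop
        apply hx0 z hz
        have h1 : ∀ φ : Form d, φ (x z) = 0 := by
          intro φ
          have h2 : φ ∈ Submodule.span ℂ (ℓ '' {i | a i ≠ 0}) := by rw [htop]; trivial
          induction h2 using Submodule.span_induction with
          | mem y hy =>
            obtain ⟨i, hi, rfl⟩ := hy
            by_contra h3
            have h4 := (hUan i z hz).analyticOrderAt_eq_zero.mpr h3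
            have h5 := ha i
            rw [h4] at h5
            exact hi (by exact_mod_cast h5.symm)
          | zero => rfl
          | add a b _ _ h1 h2 => rw [LinearMap.add_apply, h1, h2, add_zero]
          | smul c a _ h1 => rw [LinearMap.smul_apply, h1, smul_zero]
        funext k
        exact h1 (LinearMap.proj k)
      obtain ⟨B', hB'⟩ := orders w hw hneB a hv
      have h1 := hB' i1
      have h2 : ((∑ b, a (B'.1 b) : ℕ) : ℕ∞) ≤ analyticOrderAt (Wf x) z + (t : ℕ∞) := by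
        have h3 := dt_order (f := fun b w => ℓ (B'.1 b) (x w)) (fun b => hUan (B'.1 b) z hz)
          (fun b => a (B'.1 b)) (fun b => (ha (B'.1 b)).ge)
        have h4 : analyticOrderAt (dt fun b w => ℓ (B'.1 b) (x w)) z
            = analyticOrderAt (Wf x) z := by
          have h5 : (dt fun b w => ℓ (B'.1 b) (x w)) =ᶠ[𝓝 z] (fun _ => dd B') * Wf x := by
            filter_upwards [(Ext_open r0).mem_nhds hz] with y hy
            exact hlin B' y hy
          rw [analyticOrderAt_congr h5, analyticOrderAt_mul analyticAt_const (hWan z hz)]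
          have h6 : analyticOrderAt (fun _ : ℂ => dd B') z = 0 := by
            rw [analyticOrderAt_eq_zero]
            right
            exact hdd B'
          rw [h6, zero_add]
        rw [h4] at h3
        exact h3
      cases hω : analyticOrderAt (Wf x) z with
      | top =>
        have : q • (⊤ : ℕ∞) = ⊤ := by
          rw [nsmul_eq_mul]
          exact ENat.mul_top (by exact_mod_cast hq0)
        rw [this]
        exact le_top
      | coe ω =>
        rw [hω] at h2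
        have h3 : ∑ b, a (B'.1 b) ≤ ω + t := by exact_mod_cast h2
        have h4 := arith (m := m) (e := e) h1 h3 hm1 (hi1 0 (Finset.mem_univ _)) he
        have h5 := sum_cc w m (N * e) (R := ℕ) a
        simp only [Nat.cast_id] at h5
        rw [h5, nsmul_eq_mul]
        have h6 : m * ((d + 2) * ∑ B, w B * ∑ a_1, a (B.1 a_1)) + N * e * a 0 ≤ q * ω := h4
        exact_mod_cast h6
  · -- the pointwise bound
    intro z ε B hε hε1 hB hball hcalm
    have hzm : z ∈ closedBall z ε := mem_closedBall_self hε.le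
    have hzE : z ∈ Ext r0 := hball hzm
    have hBε : 1 ≤ B / ε := by
      rw [le_div_iff₀ hε]
      linarith
    have hBε0 : 0 < B / ε := by linarith
    have hUz : ∀ i, 0 < ‖U i z‖ := fun i => norm_pos_iff.mpr (hcalm.1 i z hzm)
    have hprodpos : 0 < ∏ i, ‖U i z‖ ^ cc w m (N * e) i :=
      Finset.prod_pos fun i _ => pow_pos (hUz i) _
    by_cases hW0 : Wf x z = 0
    · rw [hW0, zero_pow hq0, norm_zero, zero_mul]
      positivity
    set σ : ℝ := sup U z with hσdef
    have hσ : 0 < σ := (hUz 0).trans_le (le_sup U z 0)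
    obtain ⟨B', hB'⟩ := hC (x z) σ (fun i => hcalm.1 i z hzm) (fun i => le_sup U z i) (by
      obtain ⟨i, hi⟩ := sup_attained U z
      exact ⟨i, hi.symm⟩)
    have hX : 0 < ‖Wf x z‖ := norm_pos_iff.mpr hW0
    have h1 := dt_upper (fun b w => ℓ (B'.1 b) (x w)) hB hε hε1
      (fun b w hw => hUan (B'.1 b) w (hball hw)) (fun b w hw => hcalm.1 (B'.1 b) w hw)
      (fun i j w hw => hcalm.2 (B'.1 i) (B'.1 j) w hw)
    rw [hlin B' z hzE, norm_mul] at h1
    have hd' : 0 < ‖dd B'‖ := norm_pos_iff.mpr (hdd B')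
    have h2 : ‖Wf x z‖ ≤ CX * (B / ε) ^ ((d + 1) * (d + 1)) * ∏ b, ‖U (B'.1 b) z‖ := by
      have h3 : ‖Wf x z‖ ≤ ‖dd B'‖⁻¹ * (F * (B / ε) ^ ((d + 1) * (d + 1)) *
          ∏ b, ‖U (B'.1 b) z‖) := by
        rw [inv_mul_eq_div, le_div_iff₀ hd', mul_comm]
        exact h1
      refine h3.trans ?_
      have h4 : ‖dd B'‖⁻¹ ≤ ∑ B, ‖dd B‖⁻¹ :=
        Finset.single_le_sum (f := fun B => ‖dd B‖⁻¹) (fun B _ => by positivity)
          (Finset.mem_univ B')
      have h5 : ‖dd B'‖⁻¹ * F ≤ CX := by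
        have := mul_le_mul_of_nonneg_right h4 hF0
        linarith
      have h6 : 0 ≤ (B / ε) ^ ((d + 1) * (d + 1)) * ∏ b, ‖U (B'.1 b) z‖ := by positivity
      calc _ = (‖dd B'‖⁻¹ * F) * ((B / ε) ^ ((d + 1) * (d + 1)) * ∏ b, ‖U (B'.1 b) z‖) := by ring
        _ ≤ CX * ((B / ε) ^ ((d + 1) * (d + 1)) * ∏ b, ‖U (B'.1 b) z‖) :=
          mul_le_mul_of_nonneg_right h5 h6
        _ = _ := by ring
    -- logarithms
    set lam : Fin (p + 1) → ℝ := fun i => Real.log (σ / ‖U i z‖) with hlam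
    have hlam0 : ∀ i, 0 ≤ lam i := fun i => Real.log_nonneg (by
      rw [le_div_iff₀ (hUz i), one_mul]
      exact le_sup U z i)
    have hlogU : ∀ i, Real.log ‖U i z‖ = Real.log σ - lam i := fun i => by
      simp only [hlam]
      rw [Real.log_div hσ.ne' (hUz i).ne']
      ring
    set LE : ℝ := Real.log (B / ε) with hLE
    have hLE0 : 0 ≤ LE := Real.log_nonneg hBε
    have h3 : Real.log ‖Wf x z‖ ≤ Real.log CX + ((d + 1) * (d + 1) : ℕ) * LE +
        ((d + 1 : ℕ) * Real.log σ - ∑ b, lam (B'.1 b)) := by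
      have h4 := Real.log_le_log hX h2
      have h5 : (B / ε) ^ ((d + 1) * (d + 1)) ≠ 0 := pow_ne_zero _ hBε0.ne'
      have h6 : ∏ b, ‖U (B'.1 b) z‖ ≠ 0 := Finset.prod_ne_zero_iff.mpr fun b _ => (hUz _).ne'
      rw [Real.log_mul (mul_ne_zero hCXpos.ne' h5) h6, Real.log_mul hCXpos.ne' h5, Real.log_pow,
        Real.log_prod (fun b _ => (hUz (B'.1 b)).ne')] at h4
      refine h4.trans (le_of_eq ?_)
      congr 1
      rw [Finset.sum_congr rfl fun b _ => hlogU (B'.1 b), Finset.sum_sub_distrib, Finset.sum_const,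
        Finset.card_univ, Fintype.card_fin, nsmul_eq_mul]
    have h4 := hB' 0
    have h4' : (d + 2 : ℝ) * (∑ B, (w B : ℝ) * ∑ a, lam (B.1 a)) + (N : ℝ) * lam 0 ≤
        (d + 2) * ((N : ℝ) * ∑ a, lam (B'.1 a)) + C := by
      have e1 : (N : ℝ) = ∑ B, (w B : ℝ) := by rw [hNdef]; push_cast; rfl
      rw [e1]
      exact h4
    -- the exponents
    have hsum : ∑ i, (cc w m (N * e) i : ℝ) * Real.log ‖U i z‖
        = (q : ℝ) * ((d + 1 : ℕ) * Real.log σ) -
          m * ((d + 2) * ∑ B, (w B : ℝ) * ∑ a, lam (B.1 a)) +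
          (N * e : ℕ) * (Real.log σ - lam 0) := by
      rw [sum_cc w m (N * e) (R := ℝ) fun i => Real.log ‖U i z‖]
      have e1 : ∑ B, (w B : ℝ) * ∑ a, Real.log ‖U (B.1 a) z‖
          = (N : ℝ) * ((d + 1 : ℕ) * Real.log σ) - ∑ B, (w B : ℝ) * ∑ a, lam (B.1 a) := by
        have e2 : ∀ B : Bases ℓ, (w B : ℝ) * ∑ a, Real.log ‖U (B.1 a) z‖
            = (w B : ℝ) * ((d + 1 : ℕ) * Real.log σ) - (w B : ℝ) * ∑ a, lam (B.1 a) := by
          intro B
          rw [Finset.sum_congr rfl fun b _ => hlogU (B.1 b), Finset.sum_sub_distrib,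
            Finset.sum_const, Finset.card_univ, Fintype.card_fin, nsmul_eq_mul, mul_sub]
        rw [Finset.sum_congr rfl fun B _ => e2 B, Finset.sum_sub_distrib, ← Finset.sum_mul, hNdef]
        push_cast
        rfl
      rw [e1, hlogU 0, hq]
      push_cast
      ring
    have hmain : (q : ℝ) * Real.log ‖Wf x z‖ + (N * e : ℕ) * Real.log σ ≤
        (m * C + q * Real.log CX) + ((d + 1) * (d + 1) * q : ℕ) * LE +
          ∑ i, (cc w m (N * e) i : ℝ) * Real.log ‖U i z‖ := by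
      rw [hsum]
      have hq' : (q : ℝ) = m * ((d + 2) * N) := by rw [hq]; push_cast; ring
      have h5 := mul_le_mul_of_nonneg_left h3 (Nat.cast_nonneg q : (0 : ℝ) ≤ q)
      have h6 := mul_le_mul_of_nonneg_left h4' (Nat.cast_nonneg m : (0 : ℝ) ≤ m)
      have h7 : ((N * e : ℕ) : ℝ) * lam 0 ≤ m * (N * lam 0) := by
        have h8 : ((N * e : ℕ) : ℝ) ≤ m * N := by
          have : N * e ≤ m * N := by
            rw [mul_comm m N]
            exact Nat.mul_le_mul_left _ (by omega)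
          exact_mod_cast this
        calc ((N * e : ℕ) : ℝ) * lam 0 ≤ (m * N) * lam 0 :=
              mul_le_mul_of_nonneg_right h8 (hlam0 0)
          _ = _ := by ring
      have h9 : (q : ℝ) * ∑ b, lam (B'.1 b) = m * ((d + 2) * ((N : ℝ) * ∑ a, lam (B'.1 a))) := by
        rw [hq']
        ring
      have h10 : (((d + 1) * (d + 1) * q : ℕ) : ℝ) * LE
          = (q : ℝ) * (((d + 1) * (d + 1) : ℕ) * LE) := by
        push_cast
        ring
      rw [h10]
      have h11 : (m : ℝ) * ((d + 2) * (∑ B, (w B : ℝ) * ∑ a, lam (B.1 a)) + (N : ℝ) * lam 0)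
          = m * ((d + 2) * ∑ B, (w B : ℝ) * ∑ a, lam (B.1 a)) + m * (N * lam 0) := by ring
      rw [h11] at h6
      nlinarith [h5, h6, h7, h9]
    -- exponentiate
    have hpos1 : 0 < ‖Wf x z ^ q‖ * σ ^ (N * e) :=
      mul_pos (norm_pos_iff.mpr (pow_ne_zero _ hW0)) (pow_pos hσ _)
    have hpos2 : 0 < Real.exp (m * C) * CX ^ q * (B / ε) ^ ((d + 1) * (d + 1) * q) *
        ∏ i, ‖U i z‖ ^ cc w m (N * e) i := by positivity
    rw [← Real.log_le_log_iff hpos1 hpos2]
    rw [norm_pow, Real.log_mul (pow_pos hX _).ne' (pow_pos hσ _).ne', Real.log_pow, Real.log_pow,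
      Real.log_mul (by positivity) hprodpos.ne', Real.log_mul (by positivity)
      (pow_pos hBε0 _).ne', Real.log_mul (Real.exp_pos _).ne' (pow_pos hCXpos _).ne',
      Real.log_exp, Real.log_pow, Real.log_pow,
      Real.log_prod (fun i _ => (pow_pos (hUz i) _).ne')]
    simp only [Real.log_pow]
    exact hmain

end Pool.Agent.TH152.HY
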