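import Pool.Agent.W601.PH.Ext

/-!
Functions near infinity with a strong auxiliary function have meromorphic quotients at infinity.
-/

set_option autoImplicit false

namespace Pool.Agent.TH152.HY

open Filter Metric Real Set Topology Pool.Agent.H159R3.NV Pool.Agent.W602.NC Pool.Agent.W602.TL
  Pool.Agent.W603.BP Pool.Agent.W601.PH

variable {p : ℕ}

/-- the functions `U i` do not vanish near `z` and their quotients oscillate little -/
def Calm (U : Fin (p + 1) → ℂ → ℂ) (z : ℂ) (ε B : ℝ) : Prop :=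
  (∀ i, ∀ w ∈ closedBall z ε, U i w ≠ 0) ∧
    ∀ i j, ∀ w ∈ closedBall z ε, ‖U j w / U i w‖ ≤ B * ‖U j z / U i z‖

/-- The core statement: functions near infinity, with an auxiliary function `P` which vanishes to
high order at the zeros of the functions and which is small, have meromorphic quotients at
infinity. -/
theorem abstract_ext {r0 : ℝ} (hr0 : 0 < r0) (c : Fin (p + 1) → ℕ) {κ Nn : ℕ} (hκ0 : 0 < κ)
    {C1 : ℝ} (hC1 : 1 ≤ C1) {U : Fin (p + 1) → ℂ → ℂ}
    (hUan : ∀ i, AnalyticOnNhd ℂ (U i) (Ext r0)) (hne : ∀ i, ∃ z ∈ Ext r0, U i z ≠ 0)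
    {P : ℂ → ℂ} (hPan : AnalyticOnNhd ℂ P (Ext r0)) (hPne : ∃ z ∈ Ext r0, P z ≠ 0)
    (hord : ∀ z ∈ Ext r0, ∀ a : Fin (p + 1) → ℕ, (∀ i, analyticOrderAt (U i) z = a i) →
      ((∑ i, c i * a i : ℕ) : ℕ∞) ≤ analyticOrderAt P z)
    (hpt : ∀ z ε B, 0 < ε → ε ≤ 1 → 1 ≤ B → closedBall z ε ⊆ Ext r0 → Calm U z ε B →
      ‖P z‖ * sup U z ^ κ ≤ C1 * (B / ε) ^ Nn * ∏ i, ‖U i z‖ ^ c i) (j : Fin (p + 1)) :
    ∃ R : ℂ → ℂ, MeromorphicAt (fun w => R w⁻¹) 0 ∧ ∃ R0 : ℝ, ∀ z, R0 < ‖z‖ →
      U j z = R z * U 0 z := by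
  classical
  -- the annulus
  let gg : Option (Fin (p + 1)) → ℂ → ℂ := fun o => o.elim P fun i => U i
  have hgg1 : ∀ o ∈ (Finset.univ : Finset (Option (Fin (p + 1)))),
      AnalyticOnNhd ℂ (gg o) (Ext r0) := by
    rintro (_ | i) _
    · exact hPan
    · exact hUan i
  have hgg2 : ∀ o ∈ (Finset.univ : Finset (Option (Fin (p + 1)))), ∃ z ∈ Ext r0, gg o z ≠ 0 := by
    rintro (_ | i) _
    · exact hPne
    · exact hne i
  obtain ⟨hG1, hG2⟩ := prod_ne hr0 Finset.univ gg hgg1 hgg2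
  set r' : ℝ := max r0 1 with hr'
  have hr'0 : 0 < r' := lt_of_lt_of_le hr0 (le_max_left _ _)
  have hG3 := ne_on_smaller hr0 (le_max_left r0 1) hG1 hG2
  obtain ⟨r1, r2, h01, h12, hfree⟩ := annulus hr'0 (hG1.mono (Ext_mono (le_max_left r0 1))) hG3
  obtain ⟨a, h1a, ha2⟩ := exists_between h12
  have hr1 : 1 < r1 := lt_of_le_of_lt (le_max_right _ _) h01
  have hr01 : r0 < r1 := lt_of_le_of_lt (le_max_left _ _) h01
  have ha1 : 1 ≤ a := by linarith
  have ha0 : 0 < a := by linarith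
  have hra : r0 ≤ a := by linarith
  have hEa : Ext a ⊆ Ext r0 := Ext_mono hra
  have hbv := fun o => birkhoff (F := gg o) (by linarith : (0 : ℝ) ≤ r1) h1a ha2
    ((hgg1 o (Finset.mem_univ _)).differentiableOn.mono (Ext_mono hr01.le)) (fun z h1 h2 =>
      Finset.prod_ne_zero_iff.mp (hfree z h1 h2) o (Finset.mem_univ o))
  choose k q G hq hG hG0 hvG using hbv
  let H : Option (Fin (p + 1)) → ℂ → ℂ := fun o z => z ^ k o * Complex.exp (q o z⁻¹)
  have hH : ∀ o, Tame a (H o) := fun o => tame_of ha1 (k o) (hq o)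
  have hvH : ∀ o, ∀ z ∈ Ext a, gg o z = H o z * G o z := fun o z hz => hvG o z hz
  obtain ⟨C0, hC0, κ0, hbd, hosc⟩ := tame_uni H hH
  -- the entire functions
  let g : Fin (p + 1) → ℂ → ℂ := fun i => G (some i)
  have hg : ∀ i, Differentiable ℂ (g i) := fun i => hG _
  have hg0 : ∀ i, g i 0 ≠ 0 := fun i => hG0 _ 0 (by simpa using ha0.le)
  have hUg : ∀ i, ∀ z ∈ Ext a, U i z = H (some i) z * g i z := fun i z hz => hvH (some i) z hz
  have hPg : ∀ z ∈ Ext a, P z = H none z * G none z := fun z hz => hvH none z hz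
  set B : ℝ := C0 * C0 * Real.exp 1 with hB
  have hB1 : 1 ≤ B := one_le_mul_of_one_le_of_one_le
    (one_le_mul_of_one_le_of_one_le hC0 hC0) (Real.one_le_exp (by norm_num))
  set T : ℕ := 1 + κ + ∑ i, c i with hT
  have hmain := circle2 (p := p) (d := Nn) (κ := κ) (K := κ0 * T) c hκ0
    (C := C0 ^ T * C1 * B ^ Nn) (a := a + 2)
    (one_le_mul_of_one_le_of_one_le (one_le_mul_of_one_le_of_one_le (one_le_pow₀ hC0)
      hC1) (one_le_pow₀ hB1)) (by linarith) hg hg0
    (P := G none) (hG none)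
    (hG0 none 0 (by simpa using ha0.le)) ?_ ?_
  rotate_left
  · -- orders
    intro z
    by_cases hz : z ∈ Ext a
    · have hzr := hEa hz
      have hev := (Ext_open a).mem_nhds hz
      have hfin : ∀ i, ∃ n : ℕ, analyticOrderAt (U i) z = n := by
        intro i
        have h1 : analyticOrderAt (U i) z ≠ ⊤ := by
          intro h0
          obtain ⟨z2, hz2, h2⟩ := hne i
          exact h2 ((hUan i).eqOn_zero_of_preconnected_of_eventuallyEq_zero (Ext_preconn hr0) hzr
            (analyticOrderAt_eq_top.mp h0) hz2)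
        obtain ⟨n, hn⟩ := ENat.ne_top_iff_exists.mp h1
        exact ⟨n, hn.symm⟩
      choose ai hai using hfin
      have hunit : ∀ o, analyticOrderAt (gg o) z = analyticOrderAt (G o) z := by
        intro o
        have e1 : gg o =ᶠ[𝓝 z] H o * G o := by
          filter_upwards [hev] with w hw
          exact hvH o w hw
        rw [analyticOrderAt_congr e1, analyticOrderAt_mul ((hH o).an z hz) ((hG o).analyticAt z),
          ((hH o).an z hz).analyticOrderAt_eq_zero.mpr ((hH o).ne z hz), zero_add]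
      have hgi : ∀ i, analyticOrderAt (g i) z = ai i := fun i => by
        rw [← hai i]
        exact (hunit (some i)).symm
      have h1 : analyticOrderAt (fun z => ∏ i, g i z ^ c i) z = ((∑ i, c i * ai i : ℕ) : ℕ∞) := by
        rw [analyticOrder_prod Finset.univ (fun i z => g i z ^ c i)
          (fun i _ => ((hg i).analyticAt z).fun_pow (c i))]
        push_cast
        refine Finset.sum_congr rfl fun i _ => ?_
        have e : (fun z => g i z ^ c i) = g i ^ c i := rfl
        rw [e, analyticOrderAt_pow ((hg i).analyticAt z), nsmul_eq_mul, hgi i]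
      rw [h1, ← hunit none]
      exact hord z hzr ai hai
    · have hza : ‖z‖ ≤ a := not_lt.mp hz
      have h1 : analyticOrderAt (fun z => ∏ i, g i z ^ c i) z = 0 := by
        apply AnalyticAt.analyticOrderAt_eq_zero _ |>.mpr
        · exact Finset.prod_ne_zero_iff.mpr fun i _ => pow_ne_zero _ (hG0 _ z hza)
        · exact Finset.analyticAt_fun_prod _ fun i _ => ((hg i).analyticAt z).fun_pow (c i)
      rw [h1]
      exact bot_le
  · -- the pointwise bound
    intro z ε haz hε hε1 hgood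
    have hz1' : 1 ≤ ‖z‖ := by linarith
    have hball : ∀ y ∈ closedBall z ε, a + 1 ≤ ‖y‖ ∧ ‖y - z‖ ≤ 1 := by
      intro y hy
      rw [mem_closedBall, dist_eq_norm] at hy
      refine ⟨?_, hy.trans hε1⟩
      have : ‖z‖ ≤ ‖y‖ + 1 := by
        calc ‖z‖ = ‖y - (y - z)‖ := by congr 1; ring
          _ ≤ ‖y‖ + ‖y - z‖ := norm_sub_le _ _
          _ ≤ _ := by linarith
      linarith
    have hballE : ∀ y ∈ closedBall z ε, y ∈ Ext a := by
      intro y hy
      have := (hball y hy).1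
      change a < ‖y‖
      linarith
    have hzm : z ∈ closedBall z ε := mem_closedBall_self hε.le
    have hzE : z ∈ Ext a := hballE z hzm
    have hUne : ∀ i, ∀ w ∈ closedBall z ε, U i w ≠ 0 := fun i w hw => by
      rw [hUg i w (hballE w hw)]
      exact mul_ne_zero ((hH _).ne w (hballE w hw)) (hgood.1 i w hw)
    have hUb : ∀ i j, ∀ w ∈ closedBall z ε,
        ‖U j w / U i w‖ ≤ B * ‖U j z / U i z‖ := by
      intro i j w hw
      obtain ⟨h1, h2⟩ := hball w hw
      have o1 := (hosc (some j) z w haz h2).1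
      have o2 := (hosc (some i) z w haz h2).2
      have hb' := hgood.2 i j w hw
      have n1 : 0 < ‖H (some i) w‖ := norm_pos_iff.mpr ((hH _).ne w (hballE w hw))
      have n2 : 0 < ‖H (some i) z‖ := norm_pos_iff.mpr ((hH _).ne z hzE)
      have q1 : ‖U j w / U i w‖ = ‖H (some j) w / H (some i) w‖ * ‖g j w / g i w‖ := by
        rw [hUg i w (hballE w hw), hUg j w (hballE w hw), ← norm_mul]
        exact congrArg norm (mul_div_mul_comm _ _ _ _)
      have q2 : ‖U j z / U i z‖ = ‖H (some j) z / H (some i) z‖ * ‖g j z / g i z‖ := by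
        rw [hUg i z hzE, hUg j z hzE, ← norm_mul]
        exact congrArg norm (mul_div_mul_comm _ _ _ _)
      rw [q1, q2]
      have h3 : ‖H (some j) w / H (some i) w‖ ≤ C0 * C0 * ‖H (some j) z / H (some i) z‖ := by
        rw [norm_div, norm_div, ← mul_div_assoc, div_le_div_iff₀ n1 n2]
        calc ‖H (some j) w‖ * ‖H (some i) z‖ ≤ (C0 * ‖H (some j) z‖) * (C0 * ‖H (some i) w‖) :=
              mul_le_mul o1 o2 (norm_nonneg _) (by positivity)
          _ = _ := by ring
      calc ‖H (some j) w / H (some i) w‖ * ‖g j w / g i w‖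
          ≤ (C0 * C0 * ‖H (some j) z / H (some i) z‖) * (Real.exp 1 * ‖g j z / g i z‖) :=
            mul_le_mul h3 hb' (norm_nonneg _) (by positivity)
        _ = B * (‖H (some j) z / H (some i) z‖ * ‖g j z / g i z‖) := by rw [hB]; ring
    have hp2 := hpt z ε B hε hε1 hB1 (fun w hw => hEa (hballE w hw)) ⟨hUne, hUb⟩
    have hsp : 0 < sup U z := sup_pos (hUne 0 z hzm)
    set Z : ℝ := C0 * ‖z‖ ^ κ0 with hZ
    have hZ0 : 0 ≤ Z := by positivity
    have hlow : ∀ o, ‖G o z‖ ≤ Z * ‖gg o z‖ := by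
      intro o
      have h1 := (hbd o z (by linarith) hz1').2
      rw [hvH o z hzE, norm_mul]
      calc ‖G o z‖ = 1 * ‖G o z‖ := (one_mul _).symm
        _ ≤ (C0 * ‖z‖ ^ κ0 * ‖H o z‖) * ‖G o z‖ := mul_le_mul_of_nonneg_right h1 (norm_nonneg _)
        _ = _ := by rw [hZ]; ring
    have hup : ∀ i, ‖U i z‖ ≤ Z * ‖g i z‖ := by
      intro i
      have h1 := (hbd (some i) z (by linarith) hz1').1
      rw [hUg i z hzE, norm_mul]
      exact mul_le_mul_of_nonneg_right h1 (norm_nonneg _)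
    have hsup : sup g z ≤ Z * sup U z := by
      obtain ⟨i, hi⟩ := sup_attained g z
      rw [hi]
      exact (hlow (some i)).trans (mul_le_mul_of_nonneg_left (le_sup U z i) hZ0)
    have hsg : 0 ≤ sup g z := (norm_nonneg (g 0 z)).trans (le_sup g z 0)
    have h7 : ∏ i, ‖U i z‖ ^ c i ≤ Z ^ (∑ i, c i) * ∏ i, ‖g i z‖ ^ c i := by
      rw [← Finset.prod_pow_eq_pow_sum, ← Finset.prod_mul_distrib]
      refine Finset.prod_le_prod (fun i _ => by positivity) fun i _ => ?_
      rw [← mul_pow]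
      exact pow_le_pow_left₀ (norm_nonneg _) (hup i) _
    have hXpos : 0 ≤ C1 * (B / ε) ^ Nn := by positivity
    calc ‖G none z‖ * sup g z ^ κ
        ≤ (Z * ‖P z‖) * (Z * sup U z) ^ κ :=
          mul_le_mul (hlow none)
            (pow_le_pow_left₀ hsg hsup _) (by positivity) (by positivity)
      _ = Z ^ (1 + κ) * (‖P z‖ * sup U z ^ κ) := by
          rw [mul_pow, pow_add]; ring
      _ ≤ Z ^ (1 + κ) * (C1 * (B / ε) ^ Nn * ∏ i, ‖U i z‖ ^ c i) :=
          mul_le_mul_of_nonneg_left hp2 (by positivity)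
      _ ≤ Z ^ (1 + κ) * (C1 * (B / ε) ^ Nn *
            (Z ^ (∑ i, c i) * ∏ i, ‖g i z‖ ^ c i)) :=
          mul_le_mul_of_nonneg_left (mul_le_mul_of_nonneg_left h7 hXpos) (by positivity)
      _ = C0 ^ T * C1 * B ^ Nn * ‖z‖ ^ (κ0 * T) * (1 / ε) ^ Nn
            * ∏ i, ‖g i z‖ ^ c i := by
          have e1 : (B / ε) ^ Nn = B ^ Nn * (1 / ε) ^ Nn := by
            rw [← mul_pow]
            congr 1
            ring
          have e2 : Z ^ (1 + κ) * Z ^ (∑ i, c i) = C0 ^ T * ‖z‖ ^ (κ0 * T) := by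
            rw [← pow_add, hZ, mul_pow, ← pow_mul]
          rw [e1]
          calc _ = (Z ^ (1 + κ) * Z ^ (∑ i, c i)) * (C1 * (B ^ Nn
                * (1 / ε) ^ Nn) * ∏ i, ‖g i z‖ ^ c i) := by ring
            _ = _ := by rw [e2]; ring
  · obtain ⟨Λ, K1, K2, hBase, hK2, hgr⟩ := log_growth2 hg hg0 (by linarith : (1 : ℝ) ≤ a + 2) hmain
    obtain ⟨R, hR, R0, hRe⟩ := quot_rational hBase hK2 (by linarith : (1 : ℝ) ≤ a + 2) hgr j
    refine ⟨fun z => (H (some j) z / H (some 0) z) * R z, ?_, max R0 a, ?_⟩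
    · apply MeromorphicAt.fun_mul _ hR
      exact (unit_mero ha0 (k _) (hq _)).fun_div (unit_mero ha0 (k _) (hq _))
    · intro z hz
      have hz1 : R0 < ‖z‖ := lt_of_le_of_lt (le_max_left _ _) hz
      have hzE : z ∈ Ext a := lt_of_le_of_lt (le_max_right _ _) hz
      rw [hUg j z hzE, hUg 0 z hzE, hRe z hz1]
      have := (hH (some 0)).ne z hzE
      field_simp

end Pool.Agent.TH152.HY
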