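import Pool.Agent.TH152.HY.QDefs
import Pool.Agent.TH152.HY.Deg
import Pool.Agent.W602.Cov.RFin
import Pool.Agent.W334.RC.FIB

/-!
The fibres of a generically finite morphism: equations for the ratios of the coordinates.
-/

set_option autoImplicit false

open MvPolynomial

namespace Pool.Agent.TH152.HY

open Pool.Agent.W602.Cov Pool.Agent.W602.Cov.Cover Pool.Agent.W602.Cov.R Pool.Agent.W334.RC

variable {N n : ℕ}

/-- Nullstellensatz: a polynomial which vanishes at the complex points of `X` vanishes at all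
points. -/
theorem null {X : BiSet N n} {G : BiPoly N n} (hG : ∀ u v, X.Mem u v → eval (Sum.elim u v) G = 0)
    {L : Type} [Field L] [Algebra ℂ L] {a : Fin (N + 1) → L} {b : Fin (n + 1) → L}
    (h : X.Mem a b) : aeval (Sum.elim a b) G = 0 := by
  obtain ⟨ha, hb, he⟩ := h
  obtain ⟨i, hi⟩ := Function.ne_iff.mp ha
  obtain ⟨j, hj⟩ := Function.ne_iff.mp hb
  set J : Ideal (BiPoly N n) := Ideal.span X.eqs with hJ
  have h1 : G * (MvPolynomial.X (Sum.inl i) * MvPolynomial.X (Sum.inr j)) ∈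
      vanishingIdeal ℂ (zeroLocus ℂ J) := by
    rw [mem_vanishingIdeal_iff]
    intro x hx
    by_cases hx1 : (fun k => x (Sum.inl k)) = 0
    · rw [map_mul, map_mul, aeval_X, congrFun hx1 i]
      simp
    by_cases hx2 : (fun k => x (Sum.inr k)) = 0
    · rw [map_mul, map_mul, aeval_X, aeval_X, congrFun hx2 j]
      simp
    have e : Sum.elim (fun k => x (Sum.inl k)) (fun k => x (Sum.inr k)) = x := by
      funext s
      cases s <;> rfl
    have h2 := hG (fun k => x (Sum.inl k)) (fun k => x (Sum.inr k)) ⟨hx1, hx2, fun F hF => by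
      rw [e]
      exact hx F (Ideal.subset_span hF)⟩
    rw [e] at h2
    have h3 : aeval x G = 0 := h2
    rw [map_mul, h3, zero_mul]
  rw [vanishingIdeal_zeroLocus_eq_radical] at h1
  obtain ⟨k, hk⟩ := h1
  have h2 : ∀ F ∈ J, aeval (Sum.elim a b) F = 0 := by
    intro F hF
    have h3 : J ≤ RingHom.ker (aeval (R := ℂ) (Sum.elim a b)) := by
      rw [hJ, Ideal.span_le]
      exact fun F hF => he F hF
    exact h3 hF
  have h4 := h2 _ hk
  rw [map_pow] at h4
  have h5 : aeval (Sum.elim a b)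
      (G * (MvPolynomial.X (Sum.inl i) * MvPolynomial.X (Sum.inr j))) = 0 := by
    by_contra hne
    exact pow_ne_zero k hne h4
  rw [map_mul, map_mul, aeval_X, aeval_X, Sum.elim_inl, Sum.elim_inr] at h5
  exact (mul_eq_zero.mp h5).resolve_right (mul_ne_zero hi hj)

/-- The equation of a ratio of two coordinates. -/
structure Rel (X : BiSet N n) (i j : Fin (N + 1)) (D m : ℕ)
    (c : ℕ → MvPolynomial (Fin (n + 1)) ℂ) : Prop where
  hom : ∀ s, s ≤ m → (c s).IsHomogeneous D
  rel : ∀ (L : Type) [Field L] [Algebra ℂ L] (a : Fin (N + 1) → L) (b : Fin (n + 1) → L),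
    X.Mem a b → a j * ∑ s ∈ Finset.range (m + 1), aeval b (c s) * (a i ^ s * a j ^ (m - s)) = 0

/-- homogenisation with the variable `k0` -/
noncomputable def Hy (k0 : Fin (n + 1)) (P : MvPolynomial (Fin (n + 1)) ℂ) (D : ℕ) :
    MvPolynomial (Fin (n + 1)) ℂ :=
  ∑ μ ∈ P.support, C (P.coeff μ) * (MvPolynomial.X k0 ^ (D - ∑ j, μ j) *
    ∏ j : Fin (n + 1), MvPolynomial.X j ^ μ j)

theorem Hy_hom (k0 : Fin (n + 1)) (P : MvPolynomial (Fin (n + 1)) ℂ) {D : ℕ}
    (hD : P.totalDegree ≤ D) : (Hy k0 P D).IsHomogeneous D := by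
  unfold Hy
  refine IsHomogeneous.sum _ _ _ (fun μ hμ => ?_)
  have h := deg_le hD hμ
  have e : D = 0 + ((D - ∑ j, μ j) * 1 + ∑ j : Fin (n + 1), 1 * μ j) := by
    simp only [mul_one, one_mul]
    omega
  nth_rewrite 2 [e]
  refine (isHomogeneous_C _ _).mul (IsHomogeneous.mul ?_ ?_)
  · rw [mul_comm]
    exact (isHomogeneous_X _ _).pow _
  · exact IsHomogeneous.prod _ _ _ (fun j _ => (isHomogeneous_X _ _).pow _)

theorem Hy_field {k0 : Fin (n + 1)} {L : Type} [Field L] [Algebra ℂ L] (b : Fin (n + 1) → L)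
    (hb : b k0 ≠ 0) (P : MvPolynomial (Fin (n + 1)) ℂ) {D : ℕ} (hD : P.totalDegree ≤ D) :
    aeval b (Hy k0 P D) = b k0 ^ D * aeval (fun j => b j / b k0) P := by
  unfold Hy
  rw [map_sum, aeval_def (S₁ := L) (p := P), eval₂_eq', Finset.mul_sum]
  refine Finset.sum_congr rfl (fun μ hμ => ?_)
  have h := deg_le hD hμ
  have h2 : (∏ j, (b j / b k0) ^ μ j) * b k0 ^ (∑ j, μ j) = ∏ j, b j ^ μ j := by
    rw [← Finset.prod_pow_eq_pow_sum, ← Finset.prod_mul_distrib]
    refine Finset.prod_congr rfl (fun j _ => ?_)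
    rw [← mul_pow, div_mul_cancel₀ _ hb]
  rw [map_mul, map_mul, map_pow, map_prod, aeval_C, aeval_X]
  simp only [map_pow, aeval_X]
  rw [← h2]
  have h3 : b k0 ^ D = b k0 ^ (D - ∑ j, μ j) * b k0 ^ (∑ j, μ j) := by
    rw [← pow_add]
    congr 1
    omega
  rw [h3]
  ring

theorem exists_rel {X : BiSet N n} {K : Type} [Field K] [Algebra ℂ K]
    {a : Fin (N + 1) → K} {b : Fin (n + 1) → K} (hF : X.FunctionField K a b)
    (hG : Algebra.IsAlgebraic
      (IntermediateField.adjoin ℂ {f : K | ∃ i j, b j ≠ 0 ∧ f = b i / b j}) K)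
    (i j : Fin (N + 1)) :
    ∃ (D m : ℕ) (c : ℕ → MvPolynomial (Fin (n + 1)) ℂ), Rel X i j D m c ∧
      aeval b (c m) ≠ 0 := by
  classical
  by_cases haj : a j = 0
  · have hB : BiHom (MvPolynomial.X (Sum.inl j) : BiPoly N n) 1 0 :=
      isWeightedHomogeneous_X ℂ _ (Sum.inl j)
    have hv := (hF.van _ 1 0 hB).1 (by simp [haj])
    refine ⟨0, 0, fun _ => 1, ⟨fun s _ => isHomogeneous_one _ _, ?_⟩, by simp⟩
    intro L _ _ a' b' hm
    have h1 := null hv hm
    rw [aeval_X, Sum.elim_inl] at h1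
    rw [h1, zero_mul]
  obtain ⟨k0, hk0⟩ := Function.ne_iff.mp hF.mem.2.1
  have hb0 : b k0 ≠ 0 := hk0
  have halg : Algebra.IsAlgebraic (Algebra.adjoin ℂ (Set.range fun j => b j / b k0)) K := by
    rw [← IntermediateField.isAlgebraic_adjoin_iff_top]
    refine alg_mono ?_ hG
    rw [IntermediateField.adjoin_le_iff]
    rintro _ ⟨i, j, hj, rfl⟩
    have e : b i / b j = (b i / b k0) / (b j / b k0) := by
      field_simp
    rw [e]
    exact div_mem (IntermediateField.subset_adjoin ℂ _ ⟨i, rfl⟩)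
      (IntermediateField.subset_adjoin ℂ _ ⟨j, rfl⟩)
  obtain ⟨p, hp0, hp⟩ := halg.isAlgebraic (a i / a j)
  have hco : ∀ s : ℕ, ∃ P : MvPolynomial (Fin (n + 1)) ℂ,
      aeval (fun j => b j / b k0) P = ((p.coeff s : Algebra.adjoin ℂ _) : K) := by
    intro s
    have h0 := (p.coeff s).2
    exact (SetLike.ext_iff.1 (Algebra.adjoin_range_eq_range_aeval ℂ
      (fun j => b j / b k0)) _).1 h0
  choose P hP using hco
  set m := p.natDegree with hm
  set D := ∑ s ∈ Finset.range (m + 1), (P s).totalDegree with hD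
  have hDs : ∀ s ∈ Finset.range (m + 1), (P s).totalDegree ≤ D := fun s hs =>
    Finset.single_le_sum (f := fun s => (P s).totalDegree) (fun _ _ => Nat.zero_le _) hs
  have hmm : m ∈ Finset.range (m + 1) := by simp
  let c : ℕ → MvPolynomial (Fin (n + 1)) ℂ := fun s => Hy k0 (P s) D
  have hcv : ∀ s ∈ Finset.range (m + 1), aeval b (c s) = b k0 ^ D *
      ((p.coeff s : Algebra.adjoin ℂ _) : K) := fun s hs => by
    rw [← hP s]
    exact Hy_field b hb0 (P s) (hDs s hs)
  have hch : ∀ s, s ≤ m → (c s).IsHomogeneous D := fun s hs =>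
    Hy_hom k0 (P s) (hDs s (Finset.mem_range.mpr (by omega)))
  refine ⟨D, m, c, ⟨hch, ?_⟩, ?_⟩
  swap
  · rw [hcv m hmm]
    refine mul_ne_zero (pow_ne_zero _ hb0) ?_
    intro h2
    have h3 : p.coeff m = 0 := by exact_mod_cast h2
    exact hp0 (Polynomial.leadingCoeff_eq_zero.1 h3)
  set G : BiPoly N n := ∑ s ∈ Finset.range (m + 1), rename Sum.inr (c s) *
      (MvPolynomial.X (Sum.inl i) ^ s * MvPolynomial.X (Sum.inl j) ^ (m - s)) with hGdef
  have hGB : BiHom G m D := by
    refine IsWeightedHomogeneous.sum _ _ _ (fun s hs => ?_)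
    have hs' : s ≤ m := by have := Finset.mem_range.1 hs; omega
    have e : (m, D) = ((0 : ℕ), D) + (s • ((1 : ℕ), (0 : ℕ)) + (m - s) • ((1 : ℕ), (0 : ℕ))) := by
      rw [← add_smul]
      simp
      omega
    rw [e]
    refine IsWeightedHomogeneous.mul (biHom_rename (hch s hs')) (IsWeightedHomogeneous.mul ?_ ?_)
    · exact (isWeightedHomogeneous_X ℂ _ (Sum.inl i)).pow _
    · exact (isWeightedHomogeneous_X ℂ _ (Sum.inl j)).pow _
  have hval : ∀ {L : Type} [Field L] [Algebra ℂ L] (x : Fin (N + 1) → L) (y : Fin (n + 1) → L),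
      aeval (Sum.elim x y) G = ∑ s ∈ Finset.range (m + 1), aeval y (c s) *
        (x i ^ s * x j ^ (m - s)) := by
    intro L _ _ x y
    rw [hGdef, map_sum]
    refine Finset.sum_congr rfl (fun s _ => ?_)
    rw [map_mul, map_mul, map_pow, map_pow, aeval_rename]
    simp only [aeval_X, Sum.elim_inl]
    rfl
  have hG0 : aeval (Sum.elim a b) G = 0 := by
    rw [hval]
    have h1 : Polynomial.aeval (a i / a j) p = ∑ s ∈ Finset.range (m + 1),
        ((p.coeff s : Algebra.adjoin ℂ _) : K) * (a i / a j) ^ s := by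
      rw [Polynomial.aeval_eq_sum_range]
      rfl
    rw [h1] at hp
    have h2 : ∑ s ∈ Finset.range (m + 1), aeval b (c s) * (a i ^ s * a j ^ (m - s)) =
        b k0 ^ D * a j ^ m * ∑ s ∈ Finset.range (m + 1),
          ((p.coeff s : Algebra.adjoin ℂ _) : K) * (a i / a j) ^ s := by
      rw [Finset.mul_sum]
      refine Finset.sum_congr rfl (fun s hs => ?_)
      have hs' : s ≤ m := by have := Finset.mem_range.1 hs; omega
      rw [hcv s hs]
      have h3 : a j ^ m = a j ^ (m - s) * a j ^ s := by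
        rw [← pow_add]; congr 1; omega
      rw [h3, div_pow]
      have h4 : a j ^ s ≠ 0 := pow_ne_zero _ haj
      field_simp
    rw [h2, hp, mul_zero]
  have hX := (hF.van G m D hGB).1 hG0
  intro L _ _ a' b' hab
  have h1 := null hX hab
  rw [hval] at h1
  rw [h1, mul_zero]

/-- the ratios are roots -/
theorem Rel.root {X : BiSet N n} {i j : Fin (N + 1)} {D m : ℕ}
    {c : ℕ → MvPolynomial (Fin (n + 1)) ℂ} (h : Rel X i j D m c) {L : Type} [Field L] [Algebra ℂ L]
    {a : Fin (N + 1) → L} {b : Fin (n + 1) → L} (hab : X.Mem a b) (haj : a j ≠ 0) :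
    ∑ s ∈ Finset.range (m + 1), aeval b (c s) * (a i / a j) ^ s = 0 := by
  have h1 := (mul_eq_zero.mp (h.rel L a b hab)).resolve_left haj
  have h2 : ∑ s ∈ Finset.range (m + 1), aeval b (c s) * (a i ^ s * a j ^ (m - s)) =
      a j ^ m * ∑ s ∈ Finset.range (m + 1), aeval b (c s) * (a i / a j) ^ s := by
    rw [Finset.mul_sum]
    refine Finset.sum_congr rfl (fun s hs => ?_)
    have hs' : s ≤ m := by have := Finset.mem_range.1 hs; omega
    have h3 : a j ^ m = a j ^ (m - s) * a j ^ s := by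
      rw [← pow_add]; congr 1; omega
    rw [h3, div_pow]
    have h4 : a j ^ s ≠ 0 := pow_ne_zero _ haj
    field_simp
  rw [h2] at h1
  exact (mul_eq_zero.mp h1).resolve_left (pow_ne_zero _ haj)

/-- finite fibres -/
theorem fib_finite {X : BiSet N n} {D m : Fin (N + 1) → Fin (N + 1) → ℕ}
    {c : Fin (N + 1) → Fin (N + 1) → ℕ → MvPolynomial (Fin (n + 1)) ℂ}
    (h : ∀ i j, Rel X i j (D i j) (m i j) (c i j)) {v : Fin (n + 1) → ℂ}
    (hv : ∀ i j, eval v (c i j (m i j)) ≠ 0) :
    ∃ T : Finset (Fin (N + 1) → ℂ), ∀ u, X.Mem u v → ∃ t ∈ T, ∃ r : ℂ, u = r • t := by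
  classical
  let p : Fin (N + 1) → Fin (N + 1) → Polynomial ℂ := fun i j =>
    ∑ s ∈ Finset.range (m i j + 1), Polynomial.C (eval v (c i j s)) * Polynomial.X ^ s
  have hp : ∀ i j, p i j ≠ 0 := by
    intro i j h0
    apply hv i j
    have h1 : (p i j).coeff (m i j) = eval v (c i j (m i j)) := by
      simp only [p, Polynomial.finsetSum_coeff, Polynomial.coeff_C_mul, Polynomial.coeff_X_pow]
      rw [Finset.sum_eq_single (m i j)]
      · simp
      · intro s _ hs
        rw [if_neg (fun h => hs h.symm), mul_zero]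
      · intro h
        exact absurd (by simp) h
    rw [← h1, h0, Polynomial.coeff_zero]
  refine ⟨Finset.univ.biUnion fun j => Fintype.piFinset fun i => (p i j).roots.toFinset,
    fun u hu => ?_⟩
  obtain ⟨j, hj⟩ := Function.ne_iff.mp hu.1
  refine ⟨fun i => u i / u j, ?_, u j, ?_⟩
  · rw [Finset.mem_biUnion]
    refine ⟨j, Finset.mem_univ _, ?_⟩
    rw [Fintype.mem_piFinset]
    intro i
    rw [Multiset.mem_toFinset, Polynomial.mem_roots (hp i j), Polynomial.IsRoot.def]
    have h1 := (h i j).root hu hj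
    rw [← h1]
    simp only [p, Polynomial.eval_finsetSum, Polynomial.eval_mul, Polynomial.eval_C,
      Polynomial.eval_pow, Polynomial.eval_X]
    rfl
  · funext i
    rw [Pi.smul_apply, smul_eq_mul]
    have hj' : u j ≠ 0 := hj
    field_simp

theorem aeval_scale {L : Type} [Field L] [Algebra ℂ L] {b : Fin (n + 1) → L} (r : L)
    {P : MvPolynomial (Fin (n + 1)) ℂ} {D : ℕ} (hP : P.IsHomogeneous D) :
    aeval (fun j => r * b j) P = r ^ D * aeval b P := by
  rw [aeval_def, aeval_def, eval₂_eq', eval₂_eq', Finset.mul_sum]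
  refine Finset.sum_congr rfl fun α hα => ?_
  have h4 : ∑ j, α j = D := by
    have := hP (mem_support_iff.mp hα)
    rw [Finsupp.weight_apply, Finsupp.sum_fintype] at this
    · simpa using this
    · simp
  simp only [mul_pow, Finset.prod_mul_distrib, Finset.prod_pow_eq_pow_sum, h4]
  ring

theorem aeval_mem {L : Type} [Field L] [Algebra ℂ L] (F : IntermediateField ℂ L)
    {y : Fin (n + 1) → L} (hy : ∀ j, y j ∈ F) (P : MvPolynomial (Fin (n + 1)) ℂ) :
    aeval y P ∈ F := by
  have h1 : aeval y P = algebraMap F L (aeval (fun j => (⟨y j, hy j⟩ : F)) P) := by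
    rw [← aeval_algebraMap_apply]
    rfl
  rw [h1]
  exact (aeval (fun j => (⟨y j, hy j⟩ : F)) P).2

/-- the function field of a subvariety which is generically finite over its image -/
theorem alg_sub {X : BiSet N n} {D m : Fin (N + 1) → Fin (N + 1) → ℕ}
    {c : Fin (N + 1) → Fin (N + 1) → ℕ → MvPolynomial (Fin (n + 1)) ℂ}
    (h : ∀ i j, Rel X i j (D i j) (m i j) (c i j)) {L : Type} [Field L] [Algebra ℂ L]
    {a : Fin (N + 1) → L} {b : Fin (n + 1) → L} (hab : X.Mem a b)
    (hb : ∀ i j, aeval b (c i j (m i j)) ≠ 0)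
    (hgen : IntermediateField.adjoin ℂ
      ({f : L | ∃ i j, a j ≠ 0 ∧ f = a i / a j} ∪ {f : L | ∃ i j, b j ≠ 0 ∧ f = b i / b j}) = ⊤) :
    Algebra.IsAlgebraic (IntermediateField.adjoin ℂ {f : L | ∃ i j, b j ≠ 0 ∧ f = b i / b j}) L := by
  classical
  set F := IntermediateField.adjoin ℂ {f : L | ∃ i j, b j ≠ 0 ∧ f = b i / b j} with hF
  obtain ⟨k, hk⟩ := Function.ne_iff.mp hab.2.1
  have hbF : ∀ i, (b k)⁻¹ * b i ∈ F := fun i =>
    IntermediateField.subset_adjoin ℂ _ ⟨i, k, hk, by rw [div_eq_inv_mul]⟩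
  have hall : ∀ i j, a j ≠ 0 → IsAlgebraic F (a i / a j) := by
    intro i j haj
    let e : ℕ → F := fun s => ⟨aeval (fun l => (b k)⁻¹ * b l) (c i j s), aeval_mem F hbF _⟩
    refine ⟨∑ s ∈ Finset.range (m i j + 1), Polynomial.C (e s) * Polynomial.X ^ s, ?_, ?_⟩
    · intro h0
      have h1 := congrArg (fun p => Polynomial.coeff p (m i j)) h0
      simp only [Polynomial.finsetSum_coeff, Polynomial.coeff_C_mul, Polynomial.coeff_X_pow,
        Polynomial.coeff_zero] at h1
      rw [Finset.sum_eq_single (m i j)] at h1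
      · rw [if_pos rfl, mul_one] at h1
        have h2 : aeval (fun l => (b k)⁻¹ * b l) (c i j (m i j)) = 0 := congrArg Subtype.val h1
        rw [aeval_scale _ ((h i j).hom _ le_rfl)] at h2
        exact mul_ne_zero (pow_ne_zero _ (inv_ne_zero hk)) (hb i j) h2
      · intro s _ hs
        rw [if_neg (fun h => hs h.symm), mul_zero]
      · intro h
        exact absurd (by simp) h
    · rw [map_sum]
      have h1 : ∀ s ∈ Finset.range (m i j + 1), Polynomial.aeval (a i / a j)
          (Polynomial.C (e s) * Polynomial.X ^ s) =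
          ((b k)⁻¹) ^ (D i j) * (aeval b (c i j s) * (a i / a j) ^ s) := by
        intro s hs
        have hs' : s ≤ m i j := by have := Finset.mem_range.1 hs; omega
        rw [map_mul, Polynomial.aeval_C, map_pow, Polynomial.aeval_X, ← mul_assoc,
          ← aeval_scale _ ((h i j).hom s hs')]
        rfl
      rw [Finset.sum_congr rfl h1, ← Finset.mul_sum, (h i j).root hab haj, mul_zero]
  constructor
  intro f
  have hle : IntermediateField.adjoin ℂ
      ({f : L | ∃ i j, a j ≠ 0 ∧ f = a i / a j} ∪ {f : L | ∃ i j, b j ≠ 0 ∧ f = b i / b j}) ≤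
      (algebraicClosure F L).restrictScalars ℂ := by
    rw [IntermediateField.adjoin_le_iff]
    rintro f (⟨i, j, hj, rfl⟩ | hf)
    · exact mem_algebraicClosure_iff.mpr (hall i j hj)
    · refine mem_algebraicClosure_iff.mpr ?_
      have hfF : f ∈ F := IntermediateField.subset_adjoin ℂ _ hf
      exact isAlgebraic_algebraMap (⟨f, hfF⟩ : F)
  rw [hgen] at hle
  exact mem_algebraicClosure_iff.mp (hle (IntermediateField.mem_top (x := f)))

end Pool.Agent.TH152.HY
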