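import Pool.Agent.TH152.HY.Words

/-!
Existence of a minimal tuple of words.
-/

set_option autoImplicit false

open FF Pool.Agent.W603.LV Pool.Agent.W602.GT Pool.Agent.W602.Cov Pool.Agent.W602.Cov.G
open Pool.Agent.TH152.AC

namespace Pool.Agent.TH152.HY

variable {d n q : ℕ} {K : Type} [Field K] [Algebra ℂ K]

/-- the derivatives are combinations of the values of the letters -/
theorem der_of_op {D : Fin d → Derivation ℂ K K} {g : Fin q → K} (hg : ∀ i, g i ≠ 0)
    {I0 : Fin (d + 1) → Fin q} (hI : bw D (fun j => g (I0 j)) ≠ 0) (l : Fin d) :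
    ∃ c : Fin (d + 1) → K, ∀ f : K, D l f = ∑ k, c k * op D g (I0, k) f := by
  refine ⟨fun k => D l (g (I0 k)) / bw D (fun j => g (I0 j)) * oth g (I0, k), fun f => ?_⟩
  have h1 := Matrix.mulVec_cramer (Mat D fun j => g (I0 j)) (col D f)
  have h2 := congrFun h1 l.succ
  rw [Matrix.mulVec, Pi.smul_apply, smul_eq_mul, ← bw_mat] at h2
  have h3 : col D f l.succ = D l f := rfl
  rw [h3] at h2
  have h4 : D l f = (bw D fun j => g (I0 j))⁻¹ *
      (fun k => (Mat D fun j => g (I0 j)) l.succ k) ⬝ᵥ (Mat D fun j => g (I0 j)).cramer (col D f) := by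
    rw [h2, ← mul_assoc, inv_mul_cancel₀ hI, one_mul]
  rw [h4, dotProduct, Finset.mul_sum]
  refine Finset.sum_congr rfl fun k _ => ?_
  rw [Matrix.cramer_apply, ← mat_update, ← bw_mat, op_apply]
  have h5 : oth g (I0, k) ≠ 0 := Finset.prod_ne_zero_iff.2 fun j _ => hg _
  have h6 : Mat D (fun j => g (I0 j)) l.succ k = D l (g (I0 k)) := rfl
  rw [h6]
  field_simp

/-- **Subspaces which are stable under the vector fields.** -/
theorem stable_top {D : Fin d → Derivation ℂ K K}
    (hconst : ∀ f : K, (∀ l, D l f = 0) → ∃ c : ℂ, f = algebraMap ℂ K c)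
    {x : Fin (n + 1) → K} (hli : LinearIndependent ℂ x) (W : Submodule K (Fin (n + 1) → K))
    (hx : x ∈ W) (hW : ∀ l, ∀ y ∈ W, (fun j => D l (y j)) ∈ W) : W = ⊤ := by
  classical
  by_contra hcon
  obtain ⟨f, hf0, hf⟩ := Submodule.exists_le_ker_of_lt_top W (lt_top_iff_ne_top.mpr hcon)
  have hfs : ∀ y, f y = ∑ j, f (Pi.single j 1) * y j := by
    intro y
    rw [LinearMap.pi_apply_eq_sum_univ f y]
    refine Finset.sum_congr rfl fun j _ => ?_
    rw [smul_eq_mul, mul_comm]
    congr 2
    funext k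
    simp [Pi.single_apply, eq_comm]
  have hex : ∃ N : ℕ, ∃ φ : Fin (n + 1) → K, φ ≠ 0 ∧ (∀ y ∈ W, ∑ j, φ j * y j = 0) ∧
      (Finset.univ.filter fun j => φ j ≠ 0).card = N := by
    refine ⟨_, fun j => f (Pi.single j 1), ?_, fun y hy => ?_, rfl⟩
    · intro h0
      apply hf0
      apply LinearMap.ext
      intro y
      rw [hfs y, LinearMap.zero_apply]
      exact Finset.sum_eq_zero fun j _ => by rw [congrFun h0 j, Pi.zero_apply, zero_mul]
    · rw [← hfs y]
      exact hf hy
  obtain ⟨φ, hφ0, hφ, hφN⟩ := Nat.find_spec hex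
  obtain ⟨j0, hj0⟩ := Function.ne_iff.mp hφ0
  have hj0' : φ j0 ≠ 0 := hj0
  set ψ : Fin (n + 1) → K := fun j => φ j / φ j0 with hψ
  have hψ1 : ψ j0 = 1 := div_self hj0'
  have hψW : ∀ y ∈ W, ∑ j, ψ j * y j = 0 := by
    intro y hy
    have h1 : ∑ j, ψ j * y j = (φ j0)⁻¹ * ∑ j, φ j * y j := by
      rw [Finset.mul_sum]
      refine Finset.sum_congr rfl fun j _ => ?_
      simp only [hψ]
      field_simp
    rw [h1, hφ y hy, mul_zero]
  have hD0 : ∀ l j, D l (ψ j) = 0 := by
    intro l
    by_contra hne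
    push Not at hne
    obtain ⟨j1, hj1⟩ := hne
    have h1 : (Finset.univ.filter fun j => D l (ψ j) ≠ 0).card < Nat.find hex := by
      rw [← hφN]
      apply Finset.card_lt_card
      refine ⟨fun j hj => ?_, fun hle => ?_⟩
      · rw [Finset.mem_filter] at hj ⊢
        refine ⟨Finset.mem_univ _, fun h0 => hj.2 ?_⟩
        simp only [hψ]
        rw [h0, zero_div, map_zero]
      · have h2 := hle (Finset.mem_filter.mpr ⟨Finset.mem_univ j0, hj0'⟩)
        rw [Finset.mem_filter] at h2
        apply h2.2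
        rw [hψ1, (D l).map_one_eq_zero]
    apply Nat.find_min hex h1
    refine ⟨fun j => D l (ψ j), fun h0 => hj1 (congrFun h0 j1), fun y hy => ?_, rfl⟩
    have h2 := congrArg (D l) (hψW y hy)
    rw [map_sum, map_zero] at h2
    simp only [Derivation.leibniz, smul_eq_mul] at h2
    rw [Finset.sum_add_distrib, hψW _ (hW l y hy), zero_add] at h2
    rw [← h2]
    exact Finset.sum_congr rfl fun j _ => mul_comm _ _
  choose c hc using fun j => hconst (ψ j) fun l => hD0 l j
  have h1 : ∑ j, c j • x j = 0 := by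
    rw [← hψW x hx]
    refine Finset.sum_congr rfl fun j _ => ?_
    rw [hc j, Algebra.smul_def]
  have h2 := Fintype.linearIndependent_iff.mp hli c h1 j0
  have h3 := hc j0
  rw [h2, map_zero, hψ1] at h3
  exact one_ne_zero h3

/-- a tuple of words of small lengths -/
theorem greedy {D : Fin d → Derivation ℂ K K}
    (hconst : ∀ f : K, (∀ l, D l f = 0) → ∃ c : ℂ, f = algebraMap ℂ K c)
    {g : Fin q → K} (hg : ∀ i, g i ≠ 0) {I0 : Fin (d + 1) → Fin q}
    (hI : bw D (fun j => g (I0 j)) ≠ 0) {x : Fin (n + 1) → K} (hli : LinearIndependent ℂ x)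
    (k : ℕ) (hk : k ≤ n + 1) :
    ∃ S : Fin k → List (Letter d q), LinearIndependent K (fun a => wv D g x (S a)) ∧
      ∀ a, (S a).length ≤ a := by
  classical
  induction k with
  | zero => exact ⟨Fin.elim0, linearIndependent_empty_type, fun a => a.elim0⟩
  | succ k ih =>
    obtain ⟨S, hS, hlen⟩ := ih (by omega)
    set W := Submodule.span K (Set.range fun a => wv D g x (S a)) with hW
    have hex : ∃ w : List (Letter d q), w.length ≤ k ∧ wv D g x w ∉ W := by
      by_contra hcon
      push Not at hcon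
      have h1 : V D g x (k + 1) ≤ W := by
        unfold V
        rw [Submodule.span_le]
        rintro _ ⟨w, hw, rfl⟩
        have hw' : w.length < k + 1 := hw
        exact hcon w (by omega)
      have h2 : W ≤ V D g x k := by
        rw [hW, Submodule.span_le]
        rintro _ ⟨a, rfl⟩
        exact wv_mem D g x (lt_of_le_of_lt (hlen a) a.2)
      have h3 : V D g x k = ⊤ := by
        refine stable_top hconst hli _ ?_ ?_
        · have h4 := wv_mem D g x (w := []) (k := k + 1) (Nat.succ_pos k)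
          rw [wv_nil] at h4
          exact h2 (h1 h4)
        · intro l y hy
          obtain ⟨c, hc⟩ := der_of_op hg hI l
          have e : (fun j => D l (y j)) = ∑ k, c k • opv D g (I0, k) y := by
            funext j
            rw [Finset.sum_apply, hc (y j)]
            rfl
          rw [e]
          exact Submodule.sum_mem _ fun k _ => Submodule.smul_mem _ _
            (h2 (h1 (opv_mem D g x _ hy)))
      have h5 : W = ⊤ := by
        rw [eq_top_iff, ← h3]
        exact (V_mono D g x (Nat.le_succ k)).trans h1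
      have h6 : Module.finrank K W = k := by
        rw [hW, finrank_span_eq_card hS, Fintype.card_fin]
      rw [h5, finrank_top, Module.finrank_fin_fun] at h6
      omega
    obtain ⟨w, hw, hwW⟩ := hex
    refine ⟨Fin.snoc S w, ?_, ?_⟩
    · have e : (fun a => wv D g x ((Fin.snoc S w : Fin (k + 1) → List (Letter d q)) a)) =
          Fin.snoc (fun a => wv D g x (S a)) (wv D g x w) := by
        funext a
        refine Fin.lastCases ?_ (fun a => ?_) a
        · simp
        · simp
      rw [e, linearIndependent_finSnoc]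
      exact ⟨hS, hwW⟩
    · intro a
      refine Fin.lastCases ?_ (fun a => ?_) a
      · simpa using hw
      · simpa using hlen a

theorem sum_val (n : ℕ) : 2 * ∑ a : Fin (n + 1), (a : ℕ) = n * (n + 1) := by
  rw [Fin.sum_univ_eq_sum_range (fun k => k) (n + 1), mul_comm 2, Finset.sum_range_id_mul_two]
  simp [mul_comm]

/-- **A minimal tuple of words.** -/
theorem exists_minWords {D : Fin d → Derivation ℂ K K}
    (hconst : ∀ f : K, (∀ l, D l f = 0) → ∃ c : ℂ, f = algebraMap ℂ K c)
    {g : Fin q → K} (hg : ∀ i, g i ≠ 0) {I0 : Fin (d + 1) → Fin q}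
    (hI : bw D (fun j => g (I0 j)) ≠ 0) {x : Fin (n + 1) → K} (hli : LinearIndependent ℂ x) :
    ∃ S : Fin (n + 1) → List (Letter d q), MinWords D g x S := by
  classical
  obtain ⟨S1, hS1, hlen⟩ := greedy hconst hg hI hli (n + 1) le_rfl
  have hdet : (Matrix.of fun a => wv D g x (S1 a)).det ≠ 0 := by
    have h1 : LinearIndependent K (Matrix.of fun a => wv D g x (S1 a)).row := hS1
    rw [Matrix.linearIndependent_rows_iff_isUnit, Matrix.isUnit_iff_isUnit_det] at h1
    exact h1.ne_zero
  have hex : ∃ N : ℕ, ∃ S : Fin (n + 1) → List (Letter d q),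
      (Matrix.of fun a => wv D g x (S a)).det ≠ 0 ∧ ∑ a, (S a).length = N := ⟨_, S1, hdet, rfl⟩
  obtain ⟨S, hS, hN⟩ := Nat.find_spec hex
  refine ⟨S, hS, fun S' hS' => ?_, ?_⟩
  · by_contra hne
    rw [hN] at hS'
    exact Nat.find_min hex hS' ⟨S', hne, rfl⟩
  · have h1 : Nat.find hex ≤ ∑ a, (S1 a).length := Nat.find_min' hex ⟨S1, hdet, rfl⟩
    have h2 : ∑ a, (S1 a).length ≤ ∑ a : Fin (n + 1), (a : ℕ) :=
      Finset.sum_le_sum fun a _ => hlen a
    rw [hN, ← sum_val n]
    omega

theorem der_sum {ι : Type} (s : Finset ι) (c : ι → K) (D : ι → Derivation ℂ K K) (f : K) :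
    (∑ j ∈ s, c j • D j) f = ∑ j ∈ s, c j * D j f := by
  classical
  induction s using Finset.induction_on with
  | empty => simp
  | insert a s ha ih =>
    rw [Finset.sum_insert ha, Finset.sum_insert ha, Derivation.add_apply, ih,
      Derivation.smul_apply, smul_eq_mul]

/-- the constants of a basis of vector fields -/
theorem consts_basis {t : Fin d → K} (ht : IsTranscendenceBasis ℂ t)
    {D : Fin d → Derivation ℂ K K} (hD : (Matrix.of fun i j => D i (t j)).det ≠ 0) :
    (∀ E : Fin d → Derivation ℂ K K, ∃ A : Matrix (Fin d) (Fin d) K,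
      E = fun i => ∑ j, A i j • D j) ∧
    ∀ f : K, (∀ l, D l f = 0) → ∃ c : ℂ, f = algebraMap ℂ K c := by
  classical
  set M : Matrix (Fin d) (Fin d) K := Matrix.of fun i j => D i (t j) with hM
  have hMu : IsUnit M.det := isUnit_iff_ne_zero.mpr hD
  have h1 : ∀ E : Fin d → Derivation ℂ K K, ∃ A : Matrix (Fin d) (Fin d) K,
      E = fun i => ∑ j, A i j • D j := by
    intro E
    refine ⟨(Matrix.of fun i j => E i (t j)) * M⁻¹, ?_⟩
    funext i
    refine der_ext t ht fun j => ?_
    have h2 : ((Matrix.of fun i j => E i (t j)) * M⁻¹ * M) i j = E i (t j) := by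
      rw [Matrix.mul_assoc, Matrix.nonsing_inv_mul M hMu, Matrix.mul_one]
      rfl
    rw [← h2, Matrix.mul_apply]
    rw [der_sum]
    exact Finset.sum_congr rfl fun l _ => rfl
  refine ⟨h1, fun f hf => ?_⟩
  apply const_of_algebraic
  by_contra htr
  have h2 : AlgebraicIndepOn ℂ id ({f} : Set K) := by
    have h20 : AlgebraicIndependent ℂ (fun i : ({f} : Set K) => (i : K)) := by
      rw [algebraicIndependent_singleton_iff ⟨f, rfl⟩]
      exact htr
    exact h20
  obtain ⟨s, hs, hst⟩ := exists_isTranscendenceBasis_superset h2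
  obtain ⟨E, hE⟩ := exists_der (fun y : s => (y : K)) hst (fun _ => 1)
  have h3 := hE ⟨f, hs rfl⟩
  have hd : 0 < d := by
    rcases Nat.eq_zero_or_pos d with rfl | h
    · exfalso
      have h4 : Algebra.IsAlgebraic ℂ K := ht.isEmpty_iff_isAlgebraic.mp inferInstance
      exact htr (h4.isAlgebraic f)
    · exact h
  obtain ⟨A, hA⟩ := h1 fun _ => E
  have h4 := congrArg (fun e : Derivation ℂ K K => e f) (congrFun hA ⟨0, hd⟩)
  change E f = _ at h4
  have h5 : (∑ j, A ⟨0, hd⟩ j • D j) f = ∑ j, A ⟨0, hd⟩ j * D j f := der_sum _ _ _ _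
  rw [h3] at h4
  change (1 : K) = (∑ j, A ⟨0, hd⟩ j • D j) f at h4
  rw [h5] at h4
  simp only [hf, mul_zero, Finset.sum_const_zero] at h4
  exact one_ne_zero h4

end Pool.Agent.TH152.HY
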