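import Pool.Agent.W602.Cov.RStm
import Pool.Agent.W601.PH.Quasi

/-!
Quasi-projective varieties with a morphism to projective space which is ramified over a hyperplane
arrangement. The variety is `X - D` with `X` and `D` closed in a product of two projective spaces,
and the morphism is the second projection.
-/

set_option autoImplicit false

open Metric MvPolynomial

namespace Pool.Agent.TH152.HY

open Pool.Agent.W602.Cov Pool.Agent.W602.Cov.Cover Pool.Agent.W602.Cov.R Pool.Agent.W602.GT

variable {N n q : ℕ}

/-- the complex points of `X - D`, in homogeneous coordinates -/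
def QMem (X D : BiSet N n) (u : Fin (N + 1) → ℂ) (v : Fin (n + 1) → ℂ) : Prop :=
  X.Mem u v ∧ ¬ D.Mem u v

/-- (nonconstant) entire curves in `X - D`, in homogeneous coordinates -/
structure QEntire (X D : BiSet N n) (u : ℂ → Fin (N + 1) → ℂ) (v : ℂ → Fin (n + 1) → ℂ) :
    Prop where
  diffu : Differentiable ℂ u
  diffv : Differentiable ℂ v
  mem : ∀ z, QMem X D (u z) (v z)
  nonconst : ∃ z z', (∀ t : ℂ, u z' ≠ t • u z) ∨ (∀ t : ℂ, v z' ≠ t • v z)

/-- holomorphic maps from the punctured unit disc to `X - D`, in homogeneous coordinates -/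
structure QDisc (X D : BiSet N n) (u : ℂ → Fin (N + 1) → ℂ) (v : ℂ → Fin (n + 1) → ℂ) :
    Prop where
  diffu : DifferentiableOn ℂ u (ball 0 1 \ {0})
  diffv : DifferentiableOn ℂ v (ball 0 1 \ {0})
  mem : ∀ z ∈ ball (0 : ℂ) 1 \ {0}, QMem X D (u z) (v z)

/-- `c` is the minimum of the orders of the coordinates `b` at the place `P`. -/
def Norm {L : Type} [Field L] [Algebra ℂ L] {k : ℕ} (P : FF.Place ℂ L) (b : Fin k → L)
    (c : ℤ) : Prop :=
  (∀ j, b j ≠ 0 → c ≤ P.ord (b j)) ∧ ∃ j, b j ≠ 0 ∧ P.ord (b j) = c

/-- The centre of the place `P` of `L` on `P^N × P^n`, with respect to the point with coordinates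
`a`, `b` over `L`, lies in the closed subset `D`: all equations `G` of `D` vanish at the centre. -/
def CentreIn (D : BiSet N n) {L : Type} [Field L] [Algebra ℂ L] (a : Fin (N + 1) → L)
    (b : Fin (n + 1) → L) (P : FF.Place ℂ L) : Prop :=
  ∀ c c' : ℤ, Norm P a c → Norm P b c' → ∀ G ∈ D.eqs, ∀ E E' : ℕ, BiHom G E E' →
    aeval (Sum.elim a b) G = 0 ∨ E * c + E' * c' < P.ord (aeval (Sum.elim a b) G)

/-- The morphism from `X - D` to `P^n` is ramified to order at least `m` over the arrangement: for
every point of `X` over a field `L` with a discrete valuation `P` with centre in `X - D`, not over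
the arrangement, the contact orders `w i` with the hyperplanes `ℓ i = 0` are all zero or one of them
is at least `m`. -/
def RamifiedOff (X D : BiSet N n) (ℓ : Fin q → Form n) (m : ℕ) : Prop :=
  ∀ (L : Type) [Field L] [Algebra ℂ L] (a : Fin (N + 1) → L) (b : Fin (n + 1) → L), X.Mem a b →
    (∀ i, formK (ℓ i) b ≠ 0) → ∀ P : FF.Place ℂ L, ¬ CentreIn D a b P →
    ∀ (c : ℤ) (w : Fin q → ℕ), Norm P b c → (∀ i, P.ord (formK (ℓ i) b) = c + w i) → w ≠ 0 →
    ∃ i, m ≤ w i

/-- The point of `P^n` with coordinates `b` over `L` lies in the exceptional set of the arrangement: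
on one of the hyperplanes `ℓ i = 0`, or, for some proper nonempty set `κ` of indices, on the linear
subspace spanned by the common zeros of the `ℓ i`, `i ∈ κ`, and the common zeros of the `ℓ i`,
`i ∉ κ`. (If the arrangement is not reducible then these subspaces are proper subspaces.) -/
def Exc (ℓ : Fin q → Form n) {L : Type} [Field L] [Algebra ℂ L] (b : Fin (n + 1) → L) : Prop :=
  (∃ i, formK (ℓ i) b = 0) ∨ ∃ κ : Finset (Fin q), κ.Nonempty ∧ κ ≠ Finset.univ ∧
    ∀ φ : Form n, Flat ℓ κ ⊔ Flat ℓ κᶜ ≤ LinearMap.ker φ → formK φ b = 0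

/-- Picard: holomorphic maps from the punctured disc to `X - D` whose image is not contained in
`G = 0` extend to the disc (as maps to the compactification). -/
def PicardOff (X D : BiSet N n) (G : BiPoly N n) : Prop :=
  ∀ u v, QDisc X D u v → (∃ z ∈ ball (0 : ℂ) 1 \ {0}, eval (Sum.elim (u z) (v z)) G ≠ 0) →
    Pool.Agent.W603.BP.Extends u ∧ Pool.Agent.W603.BP.Extends v

/-- Brody: all entire curves in `X - D` lie in `G = 0`. -/
def BrodyOff (X D : BiSet N n) (G : BiPoly N n) : Prop :=
  ∀ u v, QEntire X D u v → ∀ z, eval (Sum.elim (u z) (v z)) G = 0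

/-- Lang: all closed subvarieties of `X - D` of positive dimension `d` which are not contained in
`G = 0` are of log general type. The subvariety is given by its function field `L` and the
coordinates `a`, `b` of its generic point; `LogGeneralType` is log general type of the variety with
function field `L` such that the places without centre on it are those with centre in `D`. -/
def LangOff (X D : BiSet N n) (G : BiPoly N n) : Prop :=
  ∀ (L : Type) [Field L] [Algebra ℂ L] (a : Fin (N + 1) → L) (b : Fin (n + 1) → L) (d : ℕ),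
    X.Mem a b → ¬ D.Mem a b → aeval (Sum.elim a b) G ≠ 0 →
    IntermediateField.adjoin ℂ
      ({f : L | ∃ i j, a j ≠ 0 ∧ f = a i / a j} ∪ {f : L | ∃ i j, b j ≠ 0 ∧ f = b i / b j}) = ⊤ →
    Algebra.trdeg ℂ L = d → 0 < d → LogGeneralType ℂ L d (CentreIn D a b)

end Pool.Agent.TH152.HY
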