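import Pool.Agent.TH152.HY.Find
import Pool.Agent.TH152.AC.Fin

/-!
Log general type for varieties of any dimension with a map to projective space which is highly
ramified over an arrangement which is not reducible.
-/

set_option autoImplicit false

open FF Pool.Agent.W603.LV Pool.Agent.W602.GT Pool.Agent.W602.Cov Pool.Agent.W602.Cov.G
open Pool.Agent.W168.CG.PGR Pool.Agent.TH152.AC

namespace Pool.Agent.TH152.HY

variable {d n q : ℕ} {K : Type} [Field K] [Algebra ℂ K]

section orders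

variable {P : Place ℂ K} {D : Fin d → Derivation ℂ K K} {g : Fin q → K}

omit [Algebra ℂ K] in
theorem oth_ne (hg : ∀ i, g i ≠ 0) (I : Letter d q) : oth g I ≠ 0 :=
  Finset.prod_ne_zero_iff.2 fun _ _ => hg _

theorem ord_oth (hg : ∀ i, g i ≠ 0) (I : Letter d q) :
    P.ord (oth g I) = ∑ j ∈ Finset.univ.erase I.2, P.ord (g (I.1 j)) := by
  unfold oth
  rw [ord_prod' P _ _ fun _ _ => hg _]

/-- a letter loses at most `e` -/
theorem ge_op (hg : ∀ i, g i ≠ 0) {e : ℕ}
    (h1 : ∀ f : Fin (d + 1) → K, (∀ j, f j ≠ 0) → Ge P ((∑ j, P.ord (f j)) - e) (bw D f))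
    (I : Letter d q) {c : ℤ} {f : K} (hf : Ge P c f) : Ge P (c - e) (op D g I f) := by
  classical
  by_cases hf0 : f = 0
  · rw [hf0, map_zero]
    exact Ge.zero
  · have h2 := h1 (Function.update (fun j => g (I.1 j)) I.2 f) (fun j => by
      by_cases hj : j = I.2
      · subst hj
        rw [Function.update_self]
        exact hf0
      · rw [Function.update_of_ne hj]
        exact hg _)
    have h3 : ∑ j, P.ord (Function.update (fun j => g (I.1 j)) I.2 f j)
        = P.ord f + ∑ j ∈ Finset.univ.erase I.2, P.ord (g (I.1 j)) := by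
      rw [← Finset.add_sum_erase _ _ (Finset.mem_univ I.2), Function.update_self]
      congr 1
      refine Finset.sum_congr rfl fun j hj => ?_
      rw [Function.update_of_ne (Finset.ne_of_mem_erase hj)]
    rw [h3] at h2
    have h4 := ge_div (oth_ne hg I) h2
    rw [ord_oth hg] at h4
    rw [op_apply]
    refine h4.mono ?_
    have := hf.resolve_left hf0
    linarith

/-- words -/
theorem ge_wd (hg : ∀ i, g i ≠ 0) {e : ℕ}
    (h1 : ∀ f : Fin (d + 1) → K, (∀ j, f j ≠ 0) → Ge P ((∑ j, P.ord (f j)) - e) (bw D f))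
    (w : List (Letter d q)) {c : ℤ} {f : K} (hf : Ge P c f) :
    Ge P (c - e * w.length) (wd D g w f) := by
  induction w with
  | nil => simpa [wd] using hf
  | cons I w ih =>
    have h2 := ge_op hg h1 I ih
    rw [List.length_cons]
    refine h2.mono ?_
    push_cast
    linarith

/-- a letter at a place where all `g i` have the same order -/
theorem ge_op_unit (hg : ∀ i, g i ≠ 0) {a : ℤ} (ha : ∀ i, P.ord (g i) = a)
    (h2 : ∀ f : Fin (d + 1) → K, (∀ j, P.Reg (f j)) → P.Reg (bw D f))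
    (I : Letter d q) {f : K} (hf : Ge P a f) : Ge P a (op D g I f) := by
  classical
  obtain ⟨π, hπ0, hπ⟩ := P.surj
  have hlam : π ^ (-a) ≠ 0 := zpow_ne_zero _ hπ0
  have hordlam : P.ord (π ^ (-a)) = -a := by rw [P.ord_zpow, hπ, mul_one]
  have h3 : ∀ y : K, Ge P a y → Ge P 0 (π ^ (-a) * y) := by
    intro y hy
    have := (ge_ord P (π ^ (-a))).mul hy
    rw [hordlam] at this
    simpa using this
  have h4 : Ge P 0 (bw D fun j => π ^ (-a) *
      Function.update (fun j => g (I.1 j)) I.2 f j) := by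
    refine h2 _ fun j => h3 _ ?_
    by_cases hj : j = I.2
    · subst hj
      rw [Function.update_self]
      exact hf
    · rw [Function.update_of_ne hj]
      exact Or.inr (ha _).ge
  rw [(bwa d K).1 D] at h4
  have h5 := Ge.of_mul (pow_ne_zero _ hlam) h4
  rw [P.ord_pow, hordlam] at h5
  have h6 := ge_div (oth_ne hg I) h5
  rw [ord_oth hg, Finset.sum_congr rfl fun j _ => ha (I.1 j), Finset.sum_const,
    Finset.card_erase_of_mem (Finset.mem_univ _), Finset.card_univ, Fintype.card_fin,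
    Nat.add_sub_cancel, nsmul_eq_mul] at h6
  rw [op_apply]
  refine h6.mono ?_
  push_cast
  linarith

theorem ge_wd_unit (hg : ∀ i, g i ≠ 0) {a : ℤ} (ha : ∀ i, P.ord (g i) = a)
    (h2 : ∀ f : Fin (d + 1) → K, (∀ j, P.Reg (f j)) → P.Reg (bw D f))
    (w : List (Letter d q)) {f : K} (hf : Ge P a f) : Ge P a (wd D g w f) := by
  induction w with
  | nil => exact hf
  | cons I w ih => exact ge_op_unit hg ha h2 I ih

end orders

/-- the determinant of the words in the coordinates -/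
noncomputable def psi (D : Fin d → Derivation ℂ K K) (g : Fin q → K) (x : Fin (n + 1) → K)
    (S : Fin (n + 1) → List (Letter d q)) : K := (Matrix.of fun a => wv D g x (S a)).det

theorem lf_eq_smul (φ : Form n) (x : Fin (n + 1) → K) : lf φ x = ∑ j, φ (Pi.single j 1) • x j := by
  unfold lf
  exact Finset.sum_congr rfl fun j _ => (Algebra.smul_def _ _).symm

/-- the determinant in the coordinates given by a basis -/
theorem psi_basis {ℓ : Fin q → Form n} (D : Fin d → Derivation ℂ K K) (g : Fin q → K)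
    (x : Fin (n + 1) → K) (S : Fin (n + 1) → List (Letter d q)) (B : Bases ℓ) :
    ∃ c : ℂ, c ≠ 0 ∧ (Matrix.of fun a b : Fin (n + 1) => wd D g (S a) (lf (ℓ (B.1 b)) x)).det
      = algebraMap ℂ K c * psi D g x S := by
  obtain ⟨c, hc⟩ : ∃ c : Matrix (Fin (n + 1)) (Fin (n + 1)) ℂ,
    c = Matrix.of fun a j : Fin (n + 1) => ℓ (B.1 a) (Pi.single j 1) := ⟨_, rfl⟩
  refine ⟨c.det, ?_, ?_⟩
  · rw [hc]
    exact det_ne_zero (m := fun a => ℓ (B.1 a)) B.2
  · have h1 : (Matrix.of fun a b : Fin (n + 1) => wd D g (S a) (lf (ℓ (B.1 b)) x)) =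
        (Matrix.of fun a => wv D g x (S a)) * (c.map (algebraMap ℂ K)).transpose := by
      ext a b
      rw [Matrix.mul_apply, Matrix.of_apply, lf_eq_smul, map_sum]
      refine Finset.sum_congr rfl fun j _ => ?_
      rw [map_smul, Algebra.smul_def, mul_comm, hc]
      rfl
    rw [h1, Matrix.det_mul, Matrix.det_transpose, mul_comm]
    congr 1
    exact (RingHom.map_det (algebraMap ℂ K) c).symm

/-- the order of the determinant -/
theorem ge_psi {ℓ : Fin q → Form n} {P : Place ℂ K} {D : Fin d → Derivation ℂ K K}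
    {x : Fin (n + 1) → K} (hx : ∀ i, lf (ℓ i) x ≠ 0) {e : ℕ}
    (h1 : ∀ f : Fin (d + 1) → K, (∀ j, f j ≠ 0) → Ge P ((∑ j, P.ord (f j)) - e) (bw D f))
    (S : Fin (n + 1) → List (Letter d q)) (B : Bases ℓ) :
    Ge P ((∑ b, P.ord (lf (ℓ (B.1 b)) x)) - e * ∑ a, (S a).length)
      (psi D (fun i => lf (ℓ i) x) x S) := by
  obtain ⟨c, hc0, hc⟩ := psi_basis (ℓ := ℓ) D (fun i => lf (ℓ i) x) x S B
  have h2 : Ge P ((∑ b, P.ord (lf (ℓ (B.1 b)) x)) - e * ∑ a, (S a).length)
      (Matrix.of fun a b : Fin (n + 1) =>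
        wd D (fun i => lf (ℓ i) x) (S a) (lf (ℓ (B.1 b)) x)).det := by
    refine ge_det P _ _ (fun a b => P.ord (lf (ℓ (B.1 b)) x) - e * (S a).length) (fun a b => ?_)
      fun σ => ?_
    · exact ge_wd hx h1 (S a) (ge_ord P _)
    · rw [Finset.sum_sub_distrib, ← Finset.mul_sum]
      rw [Equiv.sum_comp σ (fun a => ((S a).length : ℤ))]
      push_cast
      exact le_rfl
  rw [hc] at h2
  have h3 := (Ge.const (P := P) c⁻¹).mul h2
  rw [← mul_assoc, ← map_mul, inv_mul_cancel₀ hc0, map_one, one_mul, zero_add] at h3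
  exact h3

/-- the determinant at a place where all forms have the same order -/
theorem ge_psi_unit {ℓ : Fin q → Form n} {P : Place ℂ K} {D : Fin d → Derivation ℂ K K}
    {x : Fin (n + 1) → K} (hx : ∀ i, lf (ℓ i) x ≠ 0) {a : ℤ} (ha : ∀ i, P.ord (lf (ℓ i) x) = a)
    (h2 : ∀ f : Fin (d + 1) → K, (∀ j, P.Reg (f j)) → P.Reg (bw D f))
    (S : Fin (n + 1) → List (Letter d q)) (B : Bases ℓ) :
    Ge P ((n + 1) * a) (psi D (fun i => lf (ℓ i) x) x S) := by
  obtain ⟨c, hc0, hc⟩ := psi_basis (ℓ := ℓ) D (fun i => lf (ℓ i) x) x S B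
  have h3 : Ge P ((n + 1) * a) (Matrix.of fun a b : Fin (n + 1) =>
        wd D (fun i => lf (ℓ i) x) (S a) (lf (ℓ (B.1 b)) x)).det := by
    refine ge_det P _ _ (fun _ _ => a) (fun a b => ?_) fun σ => by simp
    exact ge_wd_unit hx ha h2 (S a) (Or.inr (ha _).ge)
  rw [hc] at h3
  have h4 := (Ge.const (P := P) c⁻¹).mul h3
  rw [← mul_assoc, ← map_mul, inv_mul_cancel₀ hc0, map_one, one_mul, zero_add] at h4
  exact h4

/-- the orders of the forms -/
theorem norm_orders {ℓ : Fin q → Form n} (hspan : Submodule.span ℂ (Set.range ℓ) = ⊤)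
    {x : Fin (n + 1) → K} (hx : ∀ i, lf (ℓ i) x ≠ 0) (P : Place ℂ K) (i0 : Fin q) :
    ∃ (a : ℤ) (v : Fin q → ℕ), (∀ i, P.ord (lf (ℓ i) x) = a + v i) ∧ (∀ j, Ge P a (x j)) ∧
      Submodule.span ℂ (ℓ '' {i | v i ≠ 0}) ≠ ⊤ := by
  obtain ⟨i1, -, hmin⟩ := Finset.exists_min_image Finset.univ (fun i => P.ord (lf (ℓ i) x))
    ⟨i0, Finset.mem_univ _⟩
  obtain ⟨a, ha⟩ : ∃ a, a = P.ord (lf (ℓ i1) x) := ⟨_, rfl⟩
  let v : Fin q → ℕ := fun i => (P.ord (lf (ℓ i) x) - a).toNat
  have hvi : ∀ i, P.ord (lf (ℓ i) x) = a + v i := by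
    intro i
    have h3 := hmin i (Finset.mem_univ i)
    have h4 : (v i : ℤ) = P.ord (lf (ℓ i) x) - a := by
      show (((P.ord (lf (ℓ i) x) - a).toNat : ℕ) : ℤ) = _
      rw [Int.toNat_of_nonneg]
      rw [ha]
      linarith
    rw [h4]
    ring
  have hi1 : v i1 = 0 := by
    have := hvi i1
    omega
  refine ⟨a, v, hvi, fun j => ?_, fun htop => ?_⟩
  · have h3 := ge_span P a (Set.range ℓ) x (by
      rintro _ ⟨i, rfl⟩
      right
      rw [hvi i]
      have : (0 : ℤ) ≤ v i := by positivity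
      linarith) (LinearMap.proj j) (by rw [hspan]; trivial)
    rwa [lf_proj] at h3
  · have h3 := ge_span P (a + 1) (ℓ '' {i | v i ≠ 0}) x (by
      rintro _ ⟨i, hi, rfl⟩
      right
      rw [hvi i]
      have : v i ≠ 0 := hi
      omega) (ℓ i1) (by rw [htop]; trivial)
    rcases h3 with h3 | h3
    · exact hx i1 h3
    · rw [hvi i1, hi1] at h3
      simp at h3

/-- the form -/
noncomputable def sf (ℓ : Fin q → Form n) (x : Fin (n + 1) → K) (p : Bases ℓ → ℕ) (t : ℕ)
    (S : Fin (n + 1) → List (Letter d q)) (D : Fin d → Derivation ℂ K K) : K :=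
  psi D (fun i => lf (ℓ i) x) x S ^ (t * ∑ B, p B) / den ℓ x p t

theorem arith2 {n m A N S B vi v0 t : ℤ} (hn : 0 ≤ n) (hN : 1 ≤ N)
    (h1 : (n + 2) * S + N * vi ≤ (n + 2) * (N * B)) (hm : (n + 2) * A < m) (hA : 0 ≤ A)
    (h2 : m ≤ vi) (h3 : v0 ≤ vi) (h0 : 0 ≤ v0) (ht : t = (n + 2) * m) :
    v0 ≤ t * (N * B) - t * N * A - t * S := by
  have hm0 : 0 < m := by nlinarith
  have hpos : (0 : ℤ) < n + 2 := by linarith
  -- the gain
  have h4 : N * (vi - (n + 2) * A) ≤ (n + 2) * (N * B - N * A - S) := by nlinarith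
  have h5 : vi ≤ m * (vi - (n + 2) * A) := by nlinarith
  have h6 : m * (vi - (n + 2) * A) ≤ m * (N * (vi - (n + 2) * A)) := by
    have h7 : 0 ≤ vi - (n + 2) * A := by linarith
    nlinarith
  have h8 : m * (N * (vi - (n + 2) * A)) ≤ m * ((n + 2) * (N * B - N * A - S)) :=
    mul_le_mul_of_nonneg_left h4 hm0.le
  have h9 : t * (N * B) - t * N * A - t * S = m * ((n + 2) * (N * B - N * A - S)) := by
    rw [ht]
    ring
  rw [h9]
  linarith

theorem arith3 {n N S B v0 t : ℤ} (hn : 0 ≤ n) (hN : 1 ≤ N)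
    (h1 : (n + 2) * S + N * v0 ≤ (n + 2) * (N * B)) (h0 : 0 ≤ v0) (ht : n + 2 ≤ t) :
    v0 ≤ t * (N * B) - t * S := by
  have hpos : (0 : ℤ) < n + 2 := by linarith
  have h2 : v0 ≤ N * v0 := by nlinarith
  have h3 : v0 ≤ (n + 2) * (N * B - S) := by linarith
  have h4 : 0 ≤ N * B - S := by
    by_contra hneg
    push Not at hneg
    nlinarith
  have h5 : (n + 2) * (N * B - S) ≤ t * (N * B - S) := mul_le_mul_of_nonneg_right ht h4
  linarith

/-- the independence of the coordinates implies that no form vanishes -/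
theorem lf_ne_of_li {x : Fin (n + 1) → K} (hli : LinearIndependent ℂ x) {φ : Form n} (hφ : φ ≠ 0) :
    lf φ x ≠ 0 := by
  intro h0
  apply hφ
  rw [lf_eq_smul] at h0
  have h1 := Fintype.linearIndependent_iff.mp hli _ h0
  apply LinearMap.pi_ext'
  intro j
  apply LinearMap.ext_ring
  simpa using h1 j

/-- the determinant of the forms of some indices does not vanish -/
theorem exists_index {ℓ : Fin q → Form n} (hspan : Submodule.span ℂ (Set.range ℓ) = ⊤)
    {x : Fin (n + 1) → K} (D : Fin d → Derivation ℂ K K) (σ : Fin (d + 1) → Fin (n + 1))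
    (h : bw D (fun j => x (σ j)) ≠ 0) :
    ∃ I0 : Fin (d + 1) → Fin q, bw D (fun j => lf (ℓ (I0 j)) x) ≠ 0 := by
  by_contra hcon
  push Not at hcon
  apply h
  refine multi_span (R := ℂ) (bw D) (bw_update_add D) (bw_update_smul D)
    (fun _ => Set.range fun i => lf (ℓ i) x) ?_ _ fun j => ?_
  · intro m hm
    choose I hI using hm
    have e : m = fun j => lf (ℓ (I j)) x := funext fun j => (hI j).symm
    rw [e]
    exact hcon I
  · have h1 : (LinearMap.proj (σ j) : Form n) ∈ Submodule.span ℂ (Set.range ℓ) := by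
      rw [hspan]; trivial
    have h2 : ∀ φ ∈ Submodule.span ℂ (Set.range ℓ),
        lf φ x ∈ Submodule.span ℂ (Set.range fun i => lf (ℓ i) x) := by
      intro φ hφ
      induction hφ using Submodule.span_induction with
      | mem φ hφ =>
        obtain ⟨i, rfl⟩ := hφ
        exact Submodule.subset_span ⟨i, rfl⟩
      | zero =>
        have : lf (0 : Form n) x = 0 := by simp [lf]
        rw [this]
        exact Submodule.zero_mem _
      | add φ ψ _ _ h1 h2 =>
        have : lf (φ + ψ) x = lf φ x + lf ψ x := by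
          simp only [lf, LinearMap.add_apply, map_add, add_mul, Finset.sum_add_distrib]
        rw [this]
        exact Submodule.add_mem _ h1 h2
      | smul c φ _ h1 =>
        have : lf (c • φ) x = c • lf φ x := by
          simp only [lf, LinearMap.smul_apply, smul_eq_mul, map_mul, Algebra.smul_def,
            Finset.mul_sum, mul_assoc]
        rw [this]
        exact Submodule.smul_mem _ _ h1
    have h3 := h2 _ h1
    rwa [lf_proj] at h3

/-- **Log general type in any dimension**, for nondegenerate maps. -/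
theorem sub_general {m : ℕ} (hn : 1 ≤ n) {ℓ : Fin q → Form n} (hℓ : ∀ i, ℓ i ≠ 0)
    (hr : ¬ Reducible ℓ) (hm : n * (n + 1) * (n + 2) < 2 * m) {x : Fin (n + 1) → K}
    (hli : LinearIndependent ℂ x) (σ : Fin (d + 1) → Fin (n + 1)) (hσ : x (σ 0) ≠ 0)
    (hbas : IsTranscendenceBasis ℂ (fun j : Fin d => x (σ j.succ) / x (σ 0)))
    (Bd : Place ℂ K → Prop)
    (hP : ∀ P : Place ℂ K, Divisorial d P → ¬ Bd P → HighAt ℓ x m P) :
    LogGeneralType ℂ K d Bd := by
  classical
  have hspan := Pool.Agent.W392.CG.span_top hn ℓ hr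
  obtain ⟨B0⟩ := exists_bases hspan
  have i0 : Fin q := B0.1 0
  obtain ⟨p, hp0, hp⟩ := weights hn hℓ hr
  set N : ℕ := ∑ B, p B with hNdef
  have hlx : ∀ i, lf (ℓ i) x ≠ 0 := fun i => lf_ne_of_li hli (hℓ i)
  obtain ⟨D, hD⟩ := (bwb d K).2.2 (fun j => x (σ j)) hσ hbas
  obtain ⟨I0, hI0⟩ := exists_index hspan D σ hD
  have hDt : (Matrix.of fun i j : Fin d => D i (x (σ j.succ) / x (σ 0))).det ≠ 0 := by
    have h1 := Pool.Agent.W930.CG.bw_eq bwa D (fun j => x (σ j)) hσ
    rw [h1] at hD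
    exact right_ne_zero_of_mul hD
  obtain ⟨hall, hconst⟩ := consts_basis hbas hDt
  obtain ⟨S, hS⟩ := exists_minWords hconst hlx hI0 hli
  set A : ℕ := ∑ a, (S a).length with hA
  have hA1 : 1 ≤ A := by
    by_contra h0
    have h1 : ∀ a, (S a).length = 0 := by
      intro a
      have h2 : (S a).length ≤ A := Finset.single_le_sum (f := fun a => (S a).length)
        (fun _ _ => Nat.zero_le _) (Finset.mem_univ a)
      omega
    apply hS.ne
    have h3 : (0 : Fin (n + 1)) ≠ Fin.last n := by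
      intro h
      have := congrArg Fin.val h
      rw [Fin.val_last, Fin.val_zero] at this
      omega
    refine Matrix.det_zero_of_row_eq h3 ?_
    change wv D _ x (S 0) = wv D _ x (S (Fin.last n))
    rw [List.length_eq_zero_iff.mp (h1 0), List.length_eq_zero_iff.mp (h1 (Fin.last n))]
  have hAm : (n + 2) * A < m := by
    have h1 : 2 * ((n + 2) * A) < 2 * m := by
      calc 2 * ((n + 2) * A) = (n + 2) * (2 * A) := by ring
        _ ≤ (n + 2) * (n * (n + 1)) := Nat.mul_le_mul_left _ hS.le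
        _ = n * (n + 1) * (n + 2) := by ring
        _ < 2 * m := hm
    omega
  have hm0 : 0 < m := by omega
  obtain ⟨t, ht⟩ : ∃ t : ℕ, t = (n + 2) * m := ⟨_, rfl⟩
  have htz : (t : ℤ) = ((n : ℤ) + 2) * m := by
    rw [ht]
    push_cast
    ring
  have hN1 : (1 : ℤ) ≤ (N : ℤ) := by exact_mod_cast hp0
  have hNz : (N : ℤ) = ∑ B, (p B : ℤ) := by rw [hNdef]; push_cast; rfl
  have hpl : IsPluri (A * (t * N)) (sf ℓ x p t S) := by
    intro M E
    obtain ⟨M1, rfl⟩ := hall E
    have e1 : (fun i => ∑ j, M i j • (fun i => ∑ j, M1 i j • D j) j) =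
        fun i => ∑ j, (M * M1) i j • D j := by
      funext i
      simp only [Finset.smul_sum, smul_smul, Matrix.mul_apply, Finset.sum_smul]
      rw [Finset.sum_comm]
    have h1 : psi (fun i => ∑ j, M i j • (fun i => ∑ j, M1 i j • D j) j)
        (fun i => lf (ℓ i) x) x S =
        M.det ^ A * psi (fun i => ∑ j, M1 i j • D j) (fun i => lf (ℓ i) x) x S := by
      rw [e1]
      unfold psi
      rw [det_change hS, det_change hS, Matrix.det_mul, mul_pow, mul_assoc]
    unfold sf
    rw [h1, mul_pow, ← pow_mul, mul_div_assoc]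
  -- the orders
  have hgood : ∀ (P : Place ℂ K) (E : Fin d → Derivation ℂ K K) (a c : ℤ) (v : Fin q → ℕ)
      (j : Fin (n + 1)), (∀ i, P.ord (lf (ℓ i) x) = a + v i) → (∀ j, Ge P a (x j)) →
      Ge P c (sf ℓ x p t S E) → (v i0 : ℤ) ≤ c → P.Reg (sf ℓ x p t S E * x j / lf (ℓ i0) x) := by
    intro P E a c v j h1 h2 h3 h4
    have h5 := ge_div (hlx i0) (h3.mul (h2 j))
    rw [h1 i0] at h5
    exact h5.mono (by linarith)
  have hden : ∀ (P : Place ℂ K) (a : ℤ) (v : Fin q → ℕ), (∀ i, P.ord (lf (ℓ i) x) = a + v i) →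
      P.ord (den ℓ x p t) = t * N * ((n + 1) * a) + t * ∑ B, (p B : ℤ) * ∑ b, (v (B.1 b) : ℤ) := by
    intro P a v hv
    rw [ord_den P hlx p t]
    simp only [hv, Finset.sum_add_distrib, Finset.sum_const, Finset.card_univ, Fintype.card_fin,
      nsmul_eq_mul, mul_add]
    rw [← Finset.sum_mul, ← hNz]
    push_cast
    ring
  have hsf : ∀ (P : Place ℂ K) (E : Fin d → Derivation ℂ K K) (e : ℕ) (a : ℤ) (v : Fin q → ℕ)
      (B' : Bases ℓ), (∀ f : Fin (d + 1) → K, (∀ j, f j ≠ 0) →
        Ge P ((∑ j, P.ord (f j)) - e) (bw E f)) → (∀ i, P.ord (lf (ℓ i) x) = a + v i) →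
      Ge P (t * (N * ∑ b, (v (B'.1 b) : ℤ)) - e * (t * N * A) -
        t * ∑ B, (p B : ℤ) * ∑ b, (v (B.1 b) : ℤ)) (sf ℓ x p t S E) := by
    intro P E e a v B' h1 hv
    have h2 := (ge_psi (D := E) hlx h1 S B').pow (t * N)
    have h3 := ge_div (den_ne hlx p t) h2
    rw [hden P a v hv] at h3
    refine h3.mono (le_of_eq ?_)
    simp only [hv, Finset.sum_add_distrib, Finset.sum_const, Finset.card_univ, Fintype.card_fin,
      nsmul_eq_mul]
    rw [hA]
    push_cast
    ring
  refine ⟨trdeg_of_basis hbas, A * (t * N), by rw [ht]; positivity,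
    fun j E => sf ℓ x p t S E * x (σ j) / lf (ℓ i0) x, ?_, ?_, ?_, D, ?_, ?_⟩
  · intro j M E
    change sf ℓ x p t S _ * x (σ j) / lf (ℓ i0) x = _
    rw [hpl M E]
    ring
  · intro P _ j E hE
    obtain ⟨a, v, hv, hxj, hsp⟩ := norm_orders hspan hlx P i0
    obtain ⟨B', hB'⟩ := orders p hp ⟨B0⟩ v hsp
    refine hgood P E a _ v _ hv hxj (hsf P E 0 a v B' (fun f hf => ?_) hv) ?_
    · have := bw_ge_log P E f hE hf
      simpa using this
    · have h1 := hB' i0
      have h2 : ((n : ℤ) + 2) * (∑ B, (p B : ℤ) * ∑ b, (v (B.1 b) : ℤ)) + N * v i0 ≤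
          (n + 2) * (N * ∑ b, (v (B'.1 b) : ℤ)) := by
        rw [hNz]
        exact_mod_cast h1
      have h3 := arith3 (n := n) (by positivity) hN1 h2 (by positivity) (t := t) (by
        rw [htz]
        have : (1 : ℤ) ≤ m := by exact_mod_cast hm0
        nlinarith)
      refine h3.trans (le_of_eq ?_)
      push_cast
      ring
  · intro P hPd hPB j E hE
    obtain ⟨a, v, hv, hxj, hsp⟩ := norm_orders hspan hlx P i0
    by_cases hv0 : v = 0
    · have ha : ∀ i, P.ord (lf (ℓ i) x) = a := fun i => by rw [hv i, hv0]; simp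
      have h1 := (ge_psi_unit (D := E) hlx ha (fun f hf => (bwb d K).2.1 P E f hE hf) S B0).pow
        (t * N)
      have h2 := ge_div (den_ne hlx p t) h1
      rw [hden P a v hv, hv0] at h2
      refine hgood P E a 0 v _ hv hxj (h2.mono (le_of_eq ?_)) ?_
      · simp
      · rw [hv0]
        simp
    · obtain ⟨i2, hi2⟩ := hP P hPd hPB a v hv hv0 hsp
      obtain ⟨B', hB'⟩ := orders p hp ⟨B0⟩ v hsp
      obtain ⟨i1, -, hi1⟩ := Finset.exists_max_image (Finset.univ : Finset (Fin q)) v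
        ⟨i0, Finset.mem_univ _⟩
      refine hgood P E a _ v _ hv hxj (hsf P E 1 a v B' (fun f hf => ?_) hv) ?_
      · exact_mod_cast (bwb d K).1 P E f hE hf
      · have h1 := hB' i1
        have h2 : ((n : ℤ) + 2) * (∑ B, (p B : ℤ) * ∑ b, (v (B.1 b) : ℤ)) + N * v i1 ≤
            (n + 2) * (N * ∑ b, (v (B'.1 b) : ℤ)) := by
          rw [hNz]
          exact_mod_cast h1
        have h3 := arith2 (n := n) (m := m) (A := A) (v0 := v i0) (t := t) (by positivity) hN1 h2
          (by exact_mod_cast hAm) (by positivity)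
          (by exact_mod_cast hi2.trans (hi1 i2 (Finset.mem_univ _)))
          (by exact_mod_cast hi1 i0 (Finset.mem_univ _)) (by positivity) htz
        refine h3.trans (le_of_eq ?_)
        push_cast
        ring
  · change sf ℓ x p t S D * x (σ 0) / lf (ℓ i0) x ≠ 0
    refine div_ne_zero (mul_ne_zero ?_ hσ) (hlx i0)
    exact div_ne_zero (pow_ne_zero _ hS.ne) (den_ne hlx p t)
  · have hsf0 : sf ℓ x p t S D ≠ 0 := div_ne_zero (pow_ne_zero _ hS.ne) (den_ne hlx p t)
    have h0 := hlx i0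
    have e : (fun i : Fin d => sf ℓ x p t S D * x (σ i.succ) / lf (ℓ i0) x /
        (sf ℓ x p t S D * x (σ 0) / lf (ℓ i0) x)) = fun i : Fin d => x (σ i.succ) / x (σ 0) := by
      funext i
      field_simp
    change AlgebraicIndependent ℂ (fun i : Fin d => sf ℓ x p t S D * x (σ i.succ) / lf (ℓ i0) x /
        (sf ℓ x p t S D * x (σ 0) / lf (ℓ i0) x))
    rw [e]
    exact hbas.1

end Pool.Agent.TH152.HY
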