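import Pool.Agent.TH152.AC.Reg
import Pool.Agent.W602.GT.Der

/-!
Words in logarithmic operators of first order, and the generalised Wronskians of the coordinates of
a map to projective space from a variety of any dimension.
-/

set_option autoImplicit false

open FF Pool.Agent.W603.LV Pool.Agent.W602.GT Pool.Agent.W602.Cov Pool.Agent.W602.Cov.G
open Pool.Agent.TH152.AC

namespace Pool.Agent.TH152.HY

section multi

/-- a multilinear function which vanishes on generators vanishes -/
theorem multi_span {ι R M N : Type*} [Fintype ι] [DecidableEq ι] [CommRing R] [AddCommGroup M]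
    [Module R M] [AddCommGroup N] [Module R N] (φ : (ι → M) → N)
    (hadd : ∀ (m : ι → M) (i : ι) (a b : M), φ (Function.update m i (a + b)) =
      φ (Function.update m i a) + φ (Function.update m i b))
    (hsmul : ∀ (m : ι → M) (i : ι) (c : R) (a : M), φ (Function.update m i (c • a)) =
      c • φ (Function.update m i a)) (s : ι → Set M)
    (h : ∀ m, (∀ i, m i ∈ s i) → φ m = 0) (m : ι → M)
    (hm : ∀ i, m i ∈ Submodule.span R (s i)) : φ m = 0 := by
  have key : ∀ F : Finset ι, ∀ m : ι → M, (∀ i ∈ F, m i ∈ Submodule.span R (s i)) →
      (∀ i, i ∉ F → m i ∈ s i) → φ m = 0 := by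
    intro F
    induction F using Finset.induction_on with
    | empty => exact fun m _ h2 => h m fun i => h2 i (Finset.notMem_empty i)
    | insert i F hi ih =>
      intro m h1 h2
      have h3 : ∀ y ∈ Submodule.span R (s i), φ (Function.update m i y) = 0 := by
        intro y hy
        induction hy using Submodule.span_induction with
        | mem y hy =>
          refine ih _ (fun j hj => ?_) fun j hj => ?_
          · have hji : j ≠ i := fun e => hi (e ▸ hj)
            rw [Function.update_of_ne hji]
            exact h1 j (Finset.mem_insert_of_mem hj)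
          · by_cases hji : j = i
            · subst hji
              rw [Function.update_self]
              exact hy
            · rw [Function.update_of_ne hji]
              exact h2 j (by rw [Finset.mem_insert]; exact fun h => h.elim hji hj)
        | zero =>
          have := hsmul m i 0 0
          rwa [zero_smul, zero_smul] at this
        | add a b _ _ ha hb => rw [hadd, ha, hb, add_zero]
        | smul c a _ ha => rw [hsmul, ha, smul_zero]
      have h4 := h3 (m i) (h1 i (Finset.mem_insert_self i F))
      rwa [Function.update_eq_self] at h4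
  exact key Finset.univ m (fun i _ => hm i) fun i hi => absurd (Finset.mem_univ i) hi

theorem det_span {K : Type*} [Field K] {n : ℕ} (s : Fin n → Set (Fin n → K))
    (h : ∀ m : Fin n → Fin n → K, (∀ i, m i ∈ s i) → (Matrix.of m).det = 0)
    (m : Fin n → Fin n → K) (hm : ∀ i, m i ∈ Submodule.span K (s i)) :
    (Matrix.of m).det = 0 := by
  refine multi_span (R := K) (fun m => (Matrix.of m).det) ?_ ?_ s h m hm
  · intro m i a b
    exact Matrix.det_updateRow_add (Matrix.of m) i a b
  · intro m i c a
    exact Matrix.det_updateRow_smul (Matrix.of m) i c a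

end multi

variable {d n q : ℕ} {K : Type} [Field K] [Algebra ℂ K]

/-- a function and its derivatives -/
def col (D : Fin d → Derivation ℂ K K) (f : K) : Fin (d + 1) → K :=
  fun i => Fin.cases f (fun l => D l f) i

/-- the matrix of functions and their derivatives -/
def Mat (D : Fin d → Derivation ℂ K K) (m : Fin (d + 1) → K) : Matrix (Fin (d + 1)) (Fin (d + 1)) K :=
  Matrix.of fun i j => col D (m j) i

theorem bw_mat (D : Fin d → Derivation ℂ K K) (m : Fin (d + 1) → K) : bw D m = (Mat D m).det := rfl

theorem mat_update (D : Fin d → Derivation ℂ K K) (m : Fin (d + 1) → K) (k : Fin (d + 1)) (f : K) :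
    Mat D (Function.update m k f) = (Mat D m).updateCol k (col D f) := by
  ext i j
  by_cases h : j = k
  · subst h
    simp [Mat]
  · simp [Mat, h]

theorem col_add (D : Fin d → Derivation ℂ K K) (f g : K) : col D (f + g) = col D f + col D g := by
  funext i
  refine Fin.cases ?_ (fun l => ?_) i
  · rfl
  · exact map_add (D l) f g

theorem col_smul (D : Fin d → Derivation ℂ K K) (c : ℂ) (f : K) :
    col D (c • f) = algebraMap ℂ K c • col D f := by
  funext i
  refine Fin.cases ?_ (fun l => ?_) i
  · exact Algebra.smul_def c f
  · exact ((D l).map_smul c f).trans (Algebra.smul_def c _)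

/-- the derivatives only -/
def col0 (D : Fin d → Derivation ℂ K K) (f : K) : Fin (d + 1) → K :=
  fun i => Fin.cases 0 (fun l => D l f) i

theorem col_mul (D : Fin d → Derivation ℂ K K) (h f : K) :
    col D (h * f) = h • col D f + f • col0 D h := by
  funext i
  refine Fin.cases ?_ (fun l => ?_) i
  · change h * f = h * f + f * 0
    ring
  · change D l (h * f) = h * D l f + f * D l h
    rw [(D l).leibniz]
    rfl

theorem bw_update_add (D : Fin d → Derivation ℂ K K) (m : Fin (d + 1) → K) (k : Fin (d + 1))
    (f g : K) : bw D (Function.update m k (f + g)) =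
      bw D (Function.update m k f) + bw D (Function.update m k g) := by
  rw [bw_mat, bw_mat, bw_mat, mat_update, mat_update, mat_update, col_add,
    Matrix.det_updateCol_add]

theorem bw_update_smul (D : Fin d → Derivation ℂ K K) (m : Fin (d + 1) → K) (k : Fin (d + 1))
    (c : ℂ) (f : K) : bw D (Function.update m k (c • f)) = c • bw D (Function.update m k f) := by
  rw [bw_mat, bw_mat, mat_update, mat_update, col_smul, Matrix.det_updateCol_smul,
    Algebra.smul_def]

/-- letters: `d + 1` indices, one of which will be replaced -/
abbrev Letter (d q : ℕ) : Type := (Fin (d + 1) → Fin q) × Fin (d + 1)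

/-- the product of the other members -/
noncomputable def oth (g : Fin q → K) (I : Letter d q) : K :=
  ∏ j ∈ Finset.univ.erase I.2, g (I.1 j)

/-- the operator of a letter -/
noncomputable def op (D : Fin d → Derivation ℂ K K) (g : Fin q → K) (I : Letter d q) :
    K →ₗ[ℂ] K where
  toFun f := bw D (Function.update (fun j => g (I.1 j)) I.2 f) / oth g I
  map_add' f h := by rw [bw_update_add, add_div]
  map_smul' c f := by
    rw [bw_update_smul, RingHom.id_apply, Algebra.smul_def, Algebra.smul_def, mul_div_assoc]

theorem op_apply (D : Fin d → Derivation ℂ K K) (g : Fin q → K) (I : Letter d q) (f : K) :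
    op D g I f = bw D (Function.update (fun j => g (I.1 j)) I.2 f) / oth g I := rfl

/-- the derivation of a letter -/
noncomputable def dl (D : Fin d → Derivation ℂ K K) (g : Fin q → K) (I : Letter d q) (h : K) : K :=
  ((Mat D fun j => g (I.1 j)).updateCol I.2 (col0 D h)).det / oth g I

theorem op_mul (D : Fin d → Derivation ℂ K K) (g : Fin q → K) (I : Letter d q) (h f : K) :
    op D g I (h * f) = h * op D g I f + dl D g I h * f := by
  rw [op_apply, op_apply, bw_mat, bw_mat, mat_update, mat_update, col_mul,
    Matrix.det_updateCol_add, Matrix.det_updateCol_smul, Matrix.det_updateCol_smul]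
  unfold dl
  ring

theorem op_change (D : Fin d → Derivation ℂ K K) (g : Fin q → K) (I : Letter d q)
    (A : Matrix (Fin d) (Fin d) K) (f : K) :
    op (fun i => ∑ j, A i j • D j) g I f = A.det * op D g I f := by
  rw [op_apply, op_apply, (bwa d K).2.1 A D, mul_div_assoc]

/-- words -/
noncomputable def wd (D : Fin d → Derivation ℂ K K) (g : Fin q → K) :
    List (Letter d q) → K →ₗ[ℂ] K
  | [] => LinearMap.id
  | I :: w => op D g I ∘ₗ wd D g w

/-- words applied to vectors -/
noncomputable def wv (D : Fin d → Derivation ℂ K K) (g : Fin q → K) (x : Fin (n + 1) → K)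
    (w : List (Letter d q)) : Fin (n + 1) → K := fun j => wd D g w (x j)

/-- the operator of a letter applied to vectors -/
noncomputable def opv (D : Fin d → Derivation ℂ K K) (g : Fin q → K) (I : Letter d q)
    (y : Fin (n + 1) → K) : Fin (n + 1) → K := fun j => op D g I (y j)

theorem wv_nil (D : Fin d → Derivation ℂ K K) (g : Fin q → K) (x : Fin (n + 1) → K) :
    wv D g x [] = x := rfl

theorem wv_cons (D : Fin d → Derivation ℂ K K) (g : Fin q → K) (x : Fin (n + 1) → K)
    (I : Letter d q) (w : List (Letter d q)) : wv D g x (I :: w) = opv D g I (wv D g x w) := rfl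

theorem opv_add (D : Fin d → Derivation ℂ K K) (g : Fin q → K) (I : Letter d q)
    (y z : Fin (n + 1) → K) : opv D g I (y + z) = opv D g I y + opv D g I z := by
  funext j
  exact map_add (op D g I) (y j) (z j)

theorem opv_zero (D : Fin d → Derivation ℂ K K) (g : Fin q → K) (I : Letter d q) :
    opv D g I (0 : Fin (n + 1) → K) = 0 := by
  funext j
  exact map_zero (op D g I)

theorem opv_smul (D : Fin d → Derivation ℂ K K) (g : Fin q → K) (I : Letter d q)
    (h : K) (y : Fin (n + 1) → K) : opv D g I (h • y) = h • opv D g I y + dl D g I h • y := by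
  funext j
  exact op_mul D g I h (y j)

/-- the span of the words of length less than `k` -/
noncomputable def V (D : Fin d → Derivation ℂ K K) (g : Fin q → K) (x : Fin (n + 1) → K) (k : ℕ) :
    Submodule K (Fin (n + 1) → K) := Submodule.span K (wv D g x '' {w | w.length < k})

theorem V_mono (D : Fin d → Derivation ℂ K K) (g : Fin q → K) (x : Fin (n + 1) → K) {k l : ℕ}
    (h : k ≤ l) : V D g x k ≤ V D g x l :=
  Submodule.span_mono (Set.image_mono fun _ hw => lt_of_lt_of_le hw h)

theorem wv_mem (D : Fin d → Derivation ℂ K K) (g : Fin q → K) (x : Fin (n + 1) → K)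
    {w : List (Letter d q)} {k : ℕ} (h : w.length < k) : wv D g x w ∈ V D g x k :=
  Submodule.subset_span ⟨w, h, rfl⟩

theorem opv_mem (D : Fin d → Derivation ℂ K K) (g : Fin q → K) (x : Fin (n + 1) → K)
    (I : Letter d q) {k : ℕ} {y : Fin (n + 1) → K} (hy : y ∈ V D g x k) :
    opv D g I y ∈ V D g x (k + 1) := by
  unfold V at hy
  induction hy using Submodule.span_induction with
  | mem y hy =>
    obtain ⟨w, hw, rfl⟩ := hy
    have hw' : w.length < k := hw
    rw [← wv_cons]
    exact wv_mem D g x (by rw [List.length_cons]; omega)
  | zero => rw [opv_zero]; exact Submodule.zero_mem _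
  | add y z _ _ hy hz => rw [opv_add]; exact Submodule.add_mem _ hy hz
  | smul c y hy0 hy =>
    rw [opv_smul]
    exact Submodule.add_mem _ (Submodule.smul_mem _ _ hy)
      (Submodule.smul_mem _ _ (V_mono D g x (Nat.le_succ k) hy0))

/-- words under a change of the vector fields -/
theorem wv_change (D : Fin d → Derivation ℂ K K) (g : Fin q → K) (x : Fin (n + 1) → K)
    (A : Matrix (Fin d) (Fin d) K) (w : List (Letter d q)) :
    ∃ r ∈ V D g x w.length, wv (fun i => ∑ j, A i j • D j) g x w =
      A.det ^ w.length • wv D g x w + r := by
  induction w with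
  | nil => exact ⟨0, Submodule.zero_mem _, by rw [wv_nil, wv_nil]; simp⟩
  | cons I w ih =>
    obtain ⟨r, hr, e⟩ := ih
    have h1 : ∀ y : Fin (n + 1) → K, opv (fun i => ∑ j, A i j • D j) g I y
        = A.det • opv D g I y := by
      intro y
      funext j
      exact op_change D g I A (y j)
    refine ⟨A.det • (dl D g I (A.det ^ w.length) • wv D g x w + opv D g I r), ?_, ?_⟩
    · rw [List.length_cons]
      exact Submodule.smul_mem _ _ (Submodule.add_mem _ (Submodule.smul_mem _ _
        (wv_mem D g x (Nat.lt_succ_self _))) (opv_mem D g x I hr))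
    · rw [wv_cons, e, h1, opv_add, opv_smul, wv_cons, List.length_cons, pow_succ]
      module

/-- a tuple of words is minimal -/
structure MinWords (D : Fin d → Derivation ℂ K K) (g : Fin q → K) (x : Fin (n + 1) → K)
    (S : Fin (n + 1) → List (Letter d q)) : Prop where
  ne : (Matrix.of fun a => wv D g x (S a)).det ≠ 0
  low : ∀ S' : Fin (n + 1) → List (Letter d q), ∑ a, (S' a).length < ∑ a, (S a).length →
    (Matrix.of fun a => wv D g x (S' a)).det = 0
  le : 2 * ∑ a, (S a).length ≤ n * (n + 1)

theorem det_low {D : Fin d → Derivation ℂ K K} {g : Fin q → K} {x : Fin (n + 1) → K}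
    {S : Fin (n + 1) → List (Letter d q)} (hS : MinWords D g x S)
    (m : Fin (n + 1) → Fin (n + 1) → K) (a0 : Fin (n + 1))
    (h0 : m a0 ∈ V D g x (S a0).length) (h1 : ∀ a, a ≠ a0 → m a ∈ V D g x ((S a).length + 1)) :
    (Matrix.of m).det = 0 := by
  classical
  refine det_span (fun a => wv D g x '' {w | w.length < if a = a0 then (S a).length else
    (S a).length + 1}) ?_ m ?_
  · intro m' hm'
    choose S' hS' hS'2 using hm'
    have e : m' = fun a => wv D g x (S' a) := funext fun a => (hS'2 a).symm
    rw [e]
    refine hS.low S' (Finset.sum_lt_sum (fun a _ => ?_) ⟨a0, Finset.mem_univ _, ?_⟩)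
    · have h2 := hS' a
      simp only [Set.mem_ofPred_eq] at h2
      split_ifs at h2 <;> omega
    · have h2 := hS' a0
      simp only [Set.mem_ofPred_eq, if_true] at h2
      exact h2
  · intro a
    by_cases ha : a = a0
    · subst ha
      simp only [if_true]
      exact h0
    · simp only [if_neg ha]
      exact h1 a ha

/-- the determinant under a change of the vector fields -/
theorem det_change {D : Fin d → Derivation ℂ K K} {g : Fin q → K} {x : Fin (n + 1) → K}
    {S : Fin (n + 1) → List (Letter d q)} (hS : MinWords D g x S) (A : Matrix (Fin d) (Fin d) K) :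
    (Matrix.of fun a => wv (fun i => ∑ j, A i j • D j) g x (S a)).det =
      A.det ^ (∑ a, (S a).length) * (Matrix.of fun a => wv D g x (S a)).det := by
  classical
  choose r hr e using fun a => wv_change D g x A (S a)
  have key : ∀ F : Finset (Fin (n + 1)), (Matrix.of fun a =>
      if a ∈ F then A.det ^ (S a).length • wv D g x (S a) + r a else
        A.det ^ (S a).length • wv D g x (S a)).det =
      (Matrix.of fun a => A.det ^ (S a).length • wv D g x (S a)).det := by
    intro F
    induction F using Finset.induction_on with
    | empty => simp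
    | insert b F hb ih =>
      rw [← ih]
      have e1 : (Matrix.of fun a => if a ∈ insert b F then
          A.det ^ (S a).length • wv D g x (S a) + r a else A.det ^ (S a).length • wv D g x (S a)) =
          (Matrix.of fun a => if a ∈ F then A.det ^ (S a).length • wv D g x (S a) + r a else
            A.det ^ (S a).length • wv D g x (S a)).updateRow b
            (A.det ^ (S b).length • wv D g x (S b) + r b) := by
        ext i j
        by_cases hi : i = b
        · subst hi
          simp
        · simp [hi]
      rw [e1, Matrix.det_updateRow_add]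
      have e2 : (Matrix.of fun a => if a ∈ F then A.det ^ (S a).length • wv D g x (S a) + r a else
            A.det ^ (S a).length • wv D g x (S a)).updateRow b
            (A.det ^ (S b).length • wv D g x (S b)) = (Matrix.of fun a => if a ∈ F then
            A.det ^ (S a).length • wv D g x (S a) + r a else
            A.det ^ (S a).length • wv D g x (S a)) := by
        ext i j
        by_cases hi : i = b
        · subst hi
          simp [hb]
        · simp [hi]
      have e3 : ((Matrix.of fun a => if a ∈ F then A.det ^ (S a).length • wv D g x (S a) + r a else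
            A.det ^ (S a).length • wv D g x (S a)).updateRow b (r b)).det = 0 := by
        refine det_low hS (((Matrix.of fun a => if a ∈ F then
          A.det ^ (S a).length • wv D g x (S a) + r a else
            A.det ^ (S a).length • wv D g x (S a)).updateRow b (r b))) b ?_ fun a ha => ?_
        · rw [Matrix.updateRow_self]
          exact hr b
        · rw [Matrix.updateRow_ne ha]
          change (if a ∈ F then _ else _) ∈ _
          have h1 : A.det ^ (S a).length • wv D g x (S a) ∈ V D g x ((S a).length + 1) :=
            Submodule.smul_mem _ _ (wv_mem D g x (Nat.lt_succ_self _))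
          split_ifs
          · exact Submodule.add_mem _ h1 (V_mono D g x (Nat.le_succ _) (hr a))
          · exact h1
      rw [e2, e3, add_zero]
  have h1 := key Finset.univ
  simp only [Finset.mem_univ, if_true] at h1
  have h2 : (Matrix.of fun a => A.det ^ (S a).length • wv D g x (S a)).det =
      A.det ^ (∑ a, (S a).length) * (Matrix.of fun a => wv D g x (S a)).det := by
    rw [← Finset.prod_pow_eq_pow_sum]
    exact Matrix.det_mul_column (fun a => A.det ^ (S a).length) (Matrix.of fun a => wv D g x (S a))
  rw [← h2, ← h1]
  congr 2
  funext a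
  exact e a

end Pool.Agent.TH152.HY
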