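import Pool.Agent.TH152.HY.Ext
import Pool.Agent.TH152.AC.Dual

/-!
The Wronskian of a curve near infinity: orders, the pointwise bound.
-/

set_option autoImplicit false

namespace Pool.Agent.TH152.HY

open Filter Metric Real Set Topology Pool.Agent.H159R3.NV Pool.Agent.W602.NC Pool.Agent.W602.TL
  Pool.Agent.W603.BP Pool.Agent.W601.PH Pool.Agent.W602.Cov

/-- the Wronskian of the functions `f b` -/
noncomputable def dt {m : ℕ} (f : Fin m → ℂ → ℂ) (z : ℂ) : ℂ :=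
  (Matrix.of fun b l : Fin m => iteratedDeriv l (f b) z).det

/-- the Wronskian of a curve -/
noncomputable def Wf {d : ℕ} (x : ℂ → Fin (d + 1) → ℂ) (z : ℂ) : ℂ := dt (fun b w => x w b) z

theorem form_sum {d : ℕ} (φ : Form d) (v : Fin (d + 1) → ℂ) :
    φ v = ∑ k, φ (Pi.single k 1) * v k := by
  rw [LinearMap.pi_apply_eq_sum_univ φ v]
  refine Finset.sum_congr rfl fun k _ => ?_
  rw [smul_eq_mul, mul_comm]
  congr 2
  funext j
  simp [Pi.single_apply, eq_comm]

theorem form_an {d : ℕ} (φ : Form d) {x : ℂ → Fin (d + 1) → ℂ} {z : ℂ}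
    (hx : ∀ k, AnalyticAt ℂ (fun w => x w k) z) : AnalyticAt ℂ (fun w => φ (x w)) z := by
  have e : (fun w => φ (x w)) = fun w => ∑ k, φ (Pi.single k 1) * x w k :=
    funext fun w => form_sum φ (x w)
  rw [e]
  exact Finset.analyticAt_fun_sum _ fun k _ => analyticAt_const.fun_mul (hx k)

theorem iter_lin {m : ℕ} (c : Fin m → ℂ) (f : Fin m → ℂ → ℂ) {z : ℂ} (l : ℕ)
    (hf : ∀ k, AnalyticAt ℂ (f k) z) :
    iteratedDeriv l (fun w => ∑ k, c k * f k w) z = ∑ k, c k * iteratedDeriv l (f k) z := by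
  have h1 : (fun w => ∑ k, c k * f k w) = fun w => ∑ k ∈ Finset.univ, (fun w => c k * f k w) w :=
    rfl
  rw [h1, iteratedDeriv_fun_sum fun k _ => (analyticAt_const.fun_mul (hf k)).contDiffAt]
  refine Finset.sum_congr rfl fun k _ => ?_
  rw [iteratedDeriv_const_mul_field]

theorem wr_lin {d : ℕ} (φ : Fin (d + 1) → Form d) {x : ℂ → Fin (d + 1) → ℂ} {z : ℂ}
    (hx : ∀ k, AnalyticAt ℂ (fun w => x w k) z) :
    dt (fun b w => φ b (x w)) z
      = (Matrix.of fun b k : Fin (d + 1) => φ b (Pi.single k 1)).det * Wf x z := by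
  unfold Wf dt
  rw [← Matrix.det_mul]
  congr 1
  ext b l
  rw [Matrix.mul_apply]
  simp only [Matrix.of_apply]
  have e : (fun w => φ b (x w)) = fun w => ∑ k, φ b (Pi.single k 1) * x w k :=
    funext fun w => form_sum (φ b) (x w)
  rw [e]
  exact iter_lin _ _ l hx

theorem det_ne {d : ℕ} (φ : Fin (d + 1) → Form d) (hφ : LinearIndependent ℂ φ) :
    (Matrix.of fun b k : Fin (d + 1) => φ b (Pi.single k 1)).det ≠ 0 := by
  intro h
  obtain ⟨a, ha, hM⟩ := Matrix.exists_vecMul_eq_zero_iff.2 h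
  apply ha
  have h1 := Fintype.linearIndependent_iff.1 hφ a
  funext b
  apply h1
  apply LinearMap.pi_ext'
  intro k
  ext
  have h2 := congrFun hM k
  simp only [Matrix.vecMul, dotProduct, Matrix.of_apply, Pi.zero_apply] at h2
  simp only [LinearMap.coe_comp, LinearMap.coe_single, Function.comp_apply, LinearMap.coe_sum,
    Finset.sum_apply, LinearMap.smul_apply, smul_eq_mul, LinearMap.zero_apply, LinearMap.zero_comp]
  exact h2

theorem dt_an {m : ℕ} {f : Fin m → ℂ → ℂ} {z : ℂ} (hf : ∀ b, AnalyticAt ℂ (f b) z) :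
    AnalyticAt ℂ (dt f) z := by
  have : dt f = fun z => ∑ σ : Equiv.Perm (Fin m), ((Equiv.Perm.sign σ : ℤ) : ℂ) *
        ∏ k : Fin m, iteratedDeriv k (f (σ k)) z := by
    funext z
    unfold dt
    rw [Matrix.det_apply']
    rfl
  rw [this]
  apply Finset.analyticAt_fun_sum
  intro σ _
  apply AnalyticAt.fun_mul analyticAt_const
  apply Finset.analyticAt_fun_prod
  intro k _
  rw [iteratedDeriv_eq_iterate]
  exact (hf (σ k)).iterated_deriv k

/-- the order of a Wronskian -/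
theorem dt_order {m : ℕ} {f : Fin m → ℂ → ℂ} {z : ℂ} (hf : ∀ b, AnalyticAt ℂ (f b) z)
    (n : Fin m → ℕ) (hn : ∀ b, (n b : ℕ∞) ≤ analyticOrderAt (f b) z) :
    ((∑ b, n b : ℕ) : ℕ∞) ≤ analyticOrderAt (dt f) z + ((∑ k : Fin m, (k : ℕ) : ℕ) : ℕ∞) := by
  have key : ((∑ b, n b - ∑ k : Fin m, (k : ℕ) : ℕ) : ℕ∞) ≤ analyticOrderAt (dt f) z := by
    have e : dt f = fun z => ∑ σ : Equiv.Perm (Fin m), (((Equiv.Perm.sign σ : ℤ) : ℂ) *
          ∏ k : Fin m, iteratedDeriv k (f (σ k)) z) := by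
      funext z
      unfold dt
      rw [Matrix.det_apply']
      rfl
    rw [e]
    apply ord_sum_ge
    intro σ _
    have ha : ∀ k : Fin m, AnalyticAt ℂ (iteratedDeriv k (f (σ k))) z := by
      intro k
      rw [iteratedDeriv_eq_iterate]
      exact (hf (σ k)).iterated_deriv k
    have hp : AnalyticAt ℂ (fun z => ∏ k : Fin m, iteratedDeriv k (f (σ k)) z) z :=
      Finset.analyticAt_fun_prod _ (fun k _ => ha k)
    have h1 : analyticOrderAt (fun z => ((Equiv.Perm.sign σ : ℤ) : ℂ) *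
          ∏ k : Fin m, iteratedDeriv k (f (σ k)) z) z
        = ∑ k : Fin m, analyticOrderAt (iteratedDeriv k (f (σ k))) z := by
      have e2 : (fun z => ((Equiv.Perm.sign σ : ℤ) : ℂ) *
          ∏ k : Fin m, iteratedDeriv k (f (σ k)) z)
          = (fun _ => ((Equiv.Perm.sign σ : ℤ) : ℂ)) * fun z =>
            ∏ k : Fin m, iteratedDeriv k (f (σ k)) z := rfl
      rw [e2, analyticOrderAt_mul analyticAt_const hp, ord_prod _ _ _ (fun k _ => ha k)]
      have h3 : analyticOrderAt (fun _ : ℂ => ((Equiv.Perm.sign σ : ℤ) : ℂ)) z = 0 := by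
        rw [analyticOrderAt_eq_zero]
        right
        rcases Int.units_eq_one_or (Equiv.Perm.sign σ) with h | h <;> simp [h]
      rw [h3, zero_add]
    rw [h1]
    have h2 : (∑ b, n b - ∑ k : Fin m, (k : ℕ)) ≤ ∑ k : Fin m, (n (σ k) - (k : ℕ)) := by
      have h3 : ∑ b, n b = ∑ k, n (σ k) := (Equiv.sum_comp σ n).symm
      rw [h3, tsub_le_iff_right, ← Finset.sum_add_distrib]
      exact Finset.sum_le_sum fun k _ => by omega
    have h4 : ((∑ b, n b - ∑ k : Fin m, (k : ℕ) : ℕ) : ℕ∞)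
        ≤ ((∑ k : Fin m, (n (σ k) - (k : ℕ)) : ℕ) : ℕ∞) := by exact_mod_cast h2
    refine h4.trans ?_
    rw [Nat.cast_sum]
    apply Finset.sum_le_sum
    intro k _
    rw [ENat.natCast_sub, tsub_le_iff_right]
    exact (hn (σ k)).trans (ord_iter (hf (σ k)) k)
  have h5 : ((∑ b, n b : ℕ) : ℕ∞) ≤ ((∑ b, n b - ∑ k : Fin m, (k : ℕ) : ℕ) : ℕ∞)
      + ((∑ k : Fin m, (k : ℕ) : ℕ) : ℕ∞) := by
    exact_mod_cast (by omega : ∑ b, n b ≤ (∑ b, n b - ∑ k : Fin m, (k : ℕ)) + ∑ k : Fin m, (k : ℕ))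
  exact h5.trans (add_le_add_left key _)

/-- the pointwise bound of a Wronskian -/
theorem dt_upper {d : ℕ} (f : Fin (d + 1) → ℂ → ℂ) {z : ℂ} {ε B : ℝ} (hB : 1 ≤ B)
    (hε : 0 < ε) (hε1 : ε ≤ 1) (hf : ∀ b, ∀ w ∈ closedBall z ε, AnalyticAt ℂ (f b) w)
    (h0 : ∀ b, ∀ w ∈ closedBall z ε, f b w ≠ 0)
    (hb : ∀ i j, ∀ w ∈ closedBall z ε, ‖f j w / f i w‖ ≤ B * ‖f j z / f i z‖) :
    ‖dt f z‖ ≤ ((Nat.factorial (d + 1) : ℝ)) ^ (d + 2) * (B / ε) ^ ((d + 1) * (d + 1)) *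
      ∏ b, ‖f b z‖ := by
  have h1 := point_upper_loc (m := d + 1) (N := 1) (Fin.cons (f 0) f) (z := z) (ε := ε) (B := B)
    (by linarith) hε hε1 (by
      intro j w hw
      refine Fin.cases ?_ (fun j => ?_) j
      · simpa using hf 0 w hw
      · simpa using hf j w hw) (by
      intro w hw
      simpa using h0 0 w hw) (by
      intro j w hw
      refine Fin.cases ?_ (fun j => ?_) j
      · simpa using hb 0 0 w hw
      · simpa using hb 0 j w hw) 0
  have e1 : wr 1 (Fin.cons (f 0) f : Fin (d + 2) → ℂ → ℂ) 0 z = dt f z := by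
    unfold wr dt
    simp only [Fin.succAbove_zero, Fin.cons_succ, pow_one]
  rw [e1] at h1
  refine h1.trans ?_
  simp only [Fin.succAbove_zero, Fin.cons_succ, pow_one]
  refine mul_le_mul_of_nonneg_right ?_ (Finset.prod_nonneg fun b _ => norm_nonneg _)
  have h2 : B * (1 / ε) ^ (d + 1) ≤ (B / ε) ^ (d + 1) := by
    have e2 : (B / ε) ^ (d + 1) = B ^ (d + 1) * (1 / ε) ^ (d + 1) := by
      rw [← mul_pow]
      congr 1
      ring
    rw [e2]
    refine mul_le_mul_of_nonneg_right ?_ (by positivity)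
    exact le_self_pow₀ hB (Nat.succ_ne_zero d)
  calc (Nat.factorial (d + 1) : ℝ) * ((Nat.factorial (d + 1) : ℝ) * B * (1 / ε) ^ (d + 1)) ^ (d + 1)
      = (Nat.factorial (d + 1) : ℝ) ^ (d + 2) * (B * (1 / ε) ^ (d + 1)) ^ (d + 1) := by
        rw [mul_assoc (Nat.factorial (d + 1) : ℝ), mul_pow]; ring
    _ ≤ (Nat.factorial (d + 1) : ℝ) ^ (d + 2) * ((B / ε) ^ (d + 1)) ^ (d + 1) := by
        refine mul_le_mul_of_nonneg_left ?_ (by positivity)
        exact pow_le_pow_left₀ (by positivity) h2 _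
    _ = _ := by rw [← pow_mul]

/-- nondegenerate curves have nonzero Wronskian -/
theorem Wf_ne {d : ℕ} {r0 : ℝ} (hr0 : 0 < r0) {x : ℂ → Fin (d + 1) → ℂ}
    (hx : ∀ z ∈ Ext r0, ∀ k, AnalyticAt ℂ (fun w => x w k) z)
    (hnd : ∀ φ : Form d, (∀ z ∈ Ext r0, φ (x z) = 0) → φ = 0) : ∃ z ∈ Ext r0, Wf x z ≠ 0 := by
  refine wron_ne_loc (Ext_open r0) (Ext_preconn hr0) (Ext_nonempty r0) (fun b w => x w b)
    (fun k z hz => hx z hz k) ?_
  intro c hc
  have h1 := hnd (∑ k, c k • LinearMap.proj k) (by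
    intro z hz
    rw [← hc z hz]
    simp [LinearMap.sum_apply])
  funext k
  have h2 := congrArg (fun φ : Form d => φ (Pi.single k 1)) h1
  simpa [LinearMap.sum_apply, Pi.single_apply] using h2

end Pool.Agent.TH152.HY
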